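import Pool.Agent.H51R3.PS.Common
import Pool.Agent.H607R3.PS.Len
import Pool.Agent.H633R3.PS.Loc
import Pool.Agent.H291R3.PSB.Base
import Pool.Agent.H841.PSRes
import Pool.Agent.H594.PSRegP

set_option autoImplicit false

/-! The ring `RR[[t]]/(s t)`: dimension and grade statements for the grade conjecture. -/

namespace Pool.Agent.R829.GC

open Pool.Agent.H607R3.PS H51R3.PS IsLocalRing RR

variable {T : Type} [CommRing T] {α β γ : T}

/-- the class of the power series variable -/
noncomputable def tt (T : Type) [CommRing T] (α β γ : T) : RP T α β γ :=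
  Ideal.Quotient.mk _ (PowerSeries.X : PowerSeries (RR T α β γ))

theorem s_mul_tt : toRP (s : RR T α β γ) * tt T α β γ = 0 := by
  unfold tt toRP
  rw [RingHom.comp_apply, ← map_mul]
  exact Ideal.Quotient.eq_zero_iff_mem.2 (Ideal.subset_span rfl)

theorem x_mul_s : toRP (x : RR T α β γ) * toRP (s : RR T α β γ) = 0 := by
  rw [← map_mul, xs, map_zero]

theorem w_mul_s : toRP (w : RR T α β γ) * toRP (s : RR T α β γ) = 0 := by
  rw [← map_mul, ws, map_zero]

theorem decompRP (f : RP T α β γ) : ∃ (u : RR T α β γ) (g : RP T α β γ),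
    f = toRP u + tt T α β γ * g := by
  obtain ⟨f, rfl⟩ := Ideal.Quotient.mk_surjective f
  obtain ⟨g, hg⟩ := Pool.Agent.H291R3.PSB.decomp1 f
  refine ⟨PowerSeries.constantCoeff f, Ideal.Quotient.mk _ g, ?_⟩
  conv_lhs => rw [hg]
  rw [map_add, map_mul]
  rfl

theorem toRP_decomp (u : RR T α β γ) : (toRP u : RP T α β γ) =
    toRP (emb u.a) + toRP (emb u.b) * toRP x + toRP (emb u.c) * toRP w := by
  conv_lhs => rw [decomp u]
  rw [map_add, map_add, map_mul, map_mul]

/-- the composite with the structure map of `T` -/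
noncomputable def fromT (T : Type) [CommRing T] (α β γ : T) : T →+* RP T α β γ :=
  (toRP : RR T α β γ →+* RP T α β γ).comp emb

/-- primes containing everything are maximal -/
theorem eq_max [IsLocalRing T] [IsLocalRing (RP T α β γ)]
    (hmax : maximalIdeal T = Ideal.span {α, β, γ}) (Q : Ideal (RP T α β γ)) [Q.IsPrime]
    (ht : tt T α β γ ∈ Q) (hx : toRP (x : RR T α β γ) ∈ Q) (hw : toRP (w : RR T α β γ) ∈ Q)
    (hα : fromT T α β γ α ∈ Q) (hβ : fromT T α β γ β ∈ Q) (hγ : fromT T α β γ γ ∈ Q) :
    Q = maximalIdeal (RP T α β γ) := by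
  apply le_antisymm (IsLocalRing.le_maximalIdeal (Ideal.IsPrime.ne_top inferInstance))
  have hT : maximalIdeal T ≤ Q.comap (fromT T α β γ) := by
    rw [hmax, Ideal.span_le]
    intro a ha
    rw [Set.mem_insert_iff, Set.mem_insert_iff, Set.mem_singleton_iff] at ha
    rcases ha with rfl | rfl | rfl
    · exact hα
    · exact hβ
    · exact hγ
  intro f hf
  obtain ⟨u, g, rfl⟩ := decompRP f
  have h1 : toRP u + tt T α β γ * g - fromT T α β γ u.a ∈ Q := by
    rw [toRP_decomp u]
    have e : toRP (emb u.a : RR T α β γ) + toRP (emb u.b) * toRP x + toRP (emb u.c) * toRP w +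
        tt T α β γ * g - fromT T α β γ u.a =
        toRP (emb u.b) * toRP x + toRP (emb u.c) * toRP w + tt T α β γ * g := by
      have : fromT T α β γ u.a = toRP (emb u.a : RR T α β γ) := rfl
      rw [this]; ring
    rw [e]
    exact Ideal.add_mem _ (Ideal.add_mem _ (Ideal.mul_mem_left _ _ hx)
      (Ideal.mul_mem_left _ _ hw)) (Ideal.mul_mem_right _ _ ht)
  by_cases hu : u.a ∈ maximalIdeal T
  · have h2 : fromT T α β γ u.a ∈ Q := hT hu
    have := Ideal.add_mem _ h1 h2
    simpa using this
  · exfalso
    have h3 : IsUnit u.a := by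
      by_contra hcon
      exact hu ((mem_maximalIdeal _).mpr hcon)
    have h4 : IsUnit (fromT T α β γ u.a) := h3.map _
    have h5 : fromT T α β γ u.a ∈ maximalIdeal (RP T α β γ) := by
      have h6 := IsLocalRing.le_maximalIdeal (J := Q) (Ideal.IsPrime.ne_top inferInstance) h1
      have h7 := Ideal.sub_mem _ hf h6
      simpa using h7
    exact (mem_maximalIdeal _).mp h5 h4

/-- a prime containing the ideal, `s` and `t` is maximal -/
theorem eq_max' [IsLocalRing T] [IsLocalRing (RP T α β γ)]
    (hmax : maximalIdeal T = Ideal.span {α, β, γ}) (Q : Ideal (RP T α β γ)) [hQ : Q.IsPrime]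
    (hc : cP T α β γ ≤ Q)
    (ht : tt T α β γ ∈ Q) (hs : toRP (s : RR T α β γ) ∈ Q) :
    Q = maximalIdeal (RP T α β γ) := by
  have hg : ∀ i, gens (toRP (x : RR T α β γ)) (toRP y) (toRP z) (toRP w) (toRP s) i ∈ Q :=
    fun i => hc (Ideal.subset_span ⟨i, rfl⟩)
  have g0 : toRP (y : RR T α β γ) ^ 3 ∈ Q := hg 0
  have g1 : toRP (z : RR T α β γ) ^ 2 ∈ Q := hg 1
  have g3 : toRP (x : RR T α β γ) ^ 2 + toRP (s : RR T α β γ) ^ 2 * toRP (z : RR T α β γ) ∈ Q :=
    hg 3
  have g4 : toRP (w : RR T α β γ) ^ 4 + toRP (s : RR T α β γ) * toRP (y : RR T α β γ) *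
    toRP (z : RR T α β γ) ∈ Q := hg 4
  have hy := hQ.mem_of_pow_mem _ g0
  have hz := hQ.mem_of_pow_mem _ g1
  have hx : toRP (x : RR T α β γ) ∈ Q := by
    refine hQ.mem_of_pow_mem 2 ?_
    have := Ideal.sub_mem _ g3 (Ideal.mul_mem_left Q (toRP (s : RR T α β γ) ^ 2) hz)
    simpa using this
  have hw : toRP (w : RR T α β γ) ∈ Q := by
    refine hQ.mem_of_pow_mem 4 ?_
    have := Ideal.sub_mem _ g4 (Ideal.mul_mem_left Q (toRP (s : RR T α β γ) *
      toRP (y : RR T α β γ)) hz)
    simpa using this
  apply eq_max hmax Q ht hx hw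
  · have : fromT T α β γ α = toRP (x : RR T α β γ) - toRP (y : RR T α β γ) := by
      rw [← map_sub, x_sub_y]; rfl
    rw [this]
    exact Ideal.sub_mem _ hx hy
  · have : fromT T α β γ β = toRP (z : RR T α β γ) := by
      rw [z_eq]; rfl
    rw [this]
    exact hz
  · have : fromT T α β γ γ = toRP (s : RR T α β γ) + toRP (w : RR T α β γ) := by
      rw [← map_add, s_add_w]; rfl
    rw [this]
    exact Ideal.add_mem _ hs hw

theorem local_RP' [IsLocalRing T] [IsNoetherianRing T] [IsDomain T] (hB : Base T α β γ) :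
    IsLocalRing (RP T α β γ) := by
  obtain ⟨hα, hβ, hγ⟩ := mem_max hB
  have hloc : IsLocalRing (RR T α β γ) := taskLoc T α β γ hα hβ hγ
  exact local_RP

/-- the lower bound for the dimension of the ring -/
theorem dim_RP_ge [IsLocalRing T] [IsNoetherianRing T] [IsDomain T] (hB : Base T α β γ) :
    (4 : WithBot ℕ∞) ≤ ringKrullDim (RP T α β γ) := by
  let I : Ideal (RR T α β γ) := Ideal.span {RR.s}
  let f : PowerSeries (RR T α β γ) →+* PowerSeries (RR T α β γ ⧸ I) :=
    PowerSeries.map (Ideal.Quotient.mk I)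
  have hf : Function.Surjective f := PowerSeries.map_surjective _ Ideal.Quotient.mk_surjective
  have hk : ∀ a ∈ (Ideal.span {PowerSeries.C (s : RR T α β γ) * PowerSeries.X} :
      Ideal (PowerSeries (RR T α β γ))), f a = 0 := by
    intro a ha
    rw [Ideal.mem_span_singleton] at ha
    obtain ⟨b, rfl⟩ := ha
    have h0 : f (PowerSeries.C (s : RR T α β γ)) = 0 := by
      change PowerSeries.map (Ideal.Quotient.mk I) (PowerSeries.C (s : RR T α β γ)) = 0
      rw [PowerSeries.map_C]
      have : Ideal.Quotient.mk I (s : RR T α β γ) = 0 :=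
        Ideal.Quotient.eq_zero_iff_mem.2 (Ideal.subset_span rfl)
      rw [this, map_zero]
    rw [map_mul, map_mul, h0, zero_mul, zero_mul]
  let g : RP T α β γ →+* PowerSeries (RR T α β γ ⧸ I) := Ideal.Quotient.lift _ f hk
  have hg : Function.Surjective g := Ideal.Quotient.lift_surjective_of_surjective _ _ hf
  have h1 := dimA hB
  calc (4 : WithBot ℕ∞) = 3 + 1 := by norm_num
    _ ≤ ringKrullDim (RR T α β γ ⧸ I) + 1 := by gcongr
    _ ≤ ringKrullDim (PowerSeries (RR T α β γ ⧸ I)) := ringKrullDim_succ_le_ringKrullDim_powerseries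
    _ ≤ ringKrullDim (RP T α β γ) := ringKrullDim_le_of_surjective g hg

theorem cP_ne_top' [IsLocalRing T] [IsNoetherianRing T] [IsDomain T] (hB : Base T α β γ) :
    cP T α β γ ≠ ⊤ := by
  obtain ⟨hα, hβ, hγ⟩ := mem_max hB
  exact cP_ne_top hα hβ hγ

/-- a Noetherian local ring in which only the maximal ideal contains `h` has dimension at most one -/
theorem dim_le_one_of {A : Type} [CommRing A] [IsLocalRing A] [IsNoetherianRing A] (h : A)
    (hmem : h ∈ maximalIdeal A) (key : ∀ q : Ideal A, q.IsPrime → h ∈ q → q = maximalIdeal A) :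
    ringKrullDim A ≤ 1 := by
  have h7 := ringKrullDim_le_ringKrullDim_quotient_add_card (R := A) {h} (by
    intro a ha
    rw [Finset.coe_singleton, Set.mem_singleton_iff] at ha
    rw [ha]
    rw [SetLike.mem_coe, IsLocalRing.ringJacobson_eq_maximalIdeal]
    exact hmem)
  have h8 : ringKrullDim (A ⧸ Ideal.span ((({h} : Finset A)) : Set A)) ≤ 0 := by
    rw [ringKrullDim_quotient]
    have : Subsingleton (PrimeSpectrum.zeroLocus
        (((Ideal.span ((({h} : Finset A)) : Set A)) : Ideal A) : Set A)) := by
      refine ⟨fun p q => ?_⟩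
      apply Subtype.ext
      apply PrimeSpectrum.ext
      have hp : h ∈ p.1.asIdeal := p.2 (Ideal.subset_span (by simp))
      have hq : h ∈ q.1.asIdeal := q.2 (Ideal.subset_span (by simp))
      rw [key _ p.1.isPrime hp, key _ q.1.isPrime hq]
    exact Order.krullDim_nonpos_of_subsingleton
  refine h7.trans ?_
  calc ringKrullDim (A ⧸ Ideal.span ((({h} : Finset A)) : Set A)) + (({h} : Finset A).card : WithBot ℕ∞)
      ≤ 0 + (({h} : Finset A).card : WithBot ℕ∞) := by gcongr
    _ = 1 := by simp

/-- the upper bound for the dimension of the quotient -/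
theorem dim_quot_le [IsLocalRing T] [IsNoetherianRing T] [IsDomain T] (hB : Base T α β γ) :
    ringKrullDim (RP T α β γ ⧸ cP T α β γ) ≤ 1 := by
  have := local_RP' hB
  have : Nontrivial (RP T α β γ ⧸ cP T α β γ) := Ideal.Quotient.nontrivial_iff.2 (cP_ne_top' hB)
  have : IsLocalRing (RP T α β γ ⧸ cP T α β γ) :=
    IsLocalRing.of_surjective' (Ideal.Quotient.mk _) Ideal.Quotient.mk_surjective
  let A := RP T α β γ ⧸ cP T α β γ
  set π : RP T α β γ →+* A := Ideal.Quotient.mk (cP T α β γ) with hπ
  have hπs : Function.Surjective π := Ideal.Quotient.mk_surjective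
  let h : A := π (toRP (s : RR T α β γ) + tt T α β γ)
  -- every prime containing h is maximal
  have key : ∀ q : Ideal A, q.IsPrime → h ∈ q → q = maximalIdeal A := by
    intro q hq hh
    have hQ : (q.comap π).IsPrime := Ideal.comap_isPrime π q
    have hc : cP T α β γ ≤ q.comap π := by
      intro a ha
      rw [Ideal.mem_comap, hπ, Ideal.Quotient.eq_zero_iff_mem.2 ha]
      exact Ideal.zero_mem _
    have hst : toRP (s : RR T α β γ) + tt T α β γ ∈ q.comap π := hh
    have h0 : toRP (s : RR T α β γ) * tt T α β γ ∈ q.comap π := by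
      rw [s_mul_tt]; exact Ideal.zero_mem _
    have hs : toRP (s : RR T α β γ) ∈ q.comap π ∧ tt T α β γ ∈ q.comap π := by
      rcases hQ.mem_or_mem h0 with h1 | h1
      · refine ⟨h1, ?_⟩
        have := Ideal.sub_mem _ hst h1
        simpa using this
      · refine ⟨?_, h1⟩
        have := Ideal.sub_mem _ hst h1
        simpa using this
    have e := eq_max' hB.max (q.comap π) hc hs.2 hs.1
    have h2 : (q.comap π).IsMaximal := by rw [e]; infer_instance
    have h3 : q.IsMaximal := by
      have h4 : (q.comap π).map π = q := Ideal.map_comap_of_surjective π hπs q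
      rcases Ideal.map_eq_top_or_isMaximal_of_surjective π hπs h2 with h5 | h5
      · exfalso
        rw [h4] at h5
        exact hq.ne_top h5
      · rwa [h4] at h5
    exact @IsLocalRing.eq_maximalIdeal A _ _ q h3
  have hmem : h ∈ maximalIdeal A := by
    rw [mem_maximalIdeal, mem_nonunits_iff]
    intro hu
    -- s and t are nonunits of the local ring RP
    have h5 : toRP (s : RR T α β γ) + tt T α β γ ∈ maximalIdeal (RP T α β γ) := by
      rw [mem_maximalIdeal]
      intro hu2
      -- s t = 0
      have e1 : IsUnit (toRP (s : RR T α β γ)) ∨ IsUnit (tt T α β γ) :=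
        IsLocalRing.isUnit_or_isUnit_of_isUnit_add hu2
      rcases e1 with e1 | e1
      · have e2 : toRP (x : RR T α β γ) = 0 := by
          have := x_mul_s (α := α) (β := β) (γ := γ)
          exact e1.mul_left_eq_zero.1 this
        have e3 : toRP (w : RR T α β γ) = 0 := e1.mul_left_eq_zero.1 w_mul_s
        have e4 : fromT T α β γ γ = toRP (s : RR T α β γ) := by
          have : fromT T α β γ γ = toRP (s : RR T α β γ) + toRP (w : RR T α β γ) := by
            rw [← map_add, s_add_w]; rfl
          rw [this, e3, add_zero]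
        have e5 : IsUnit (fromT T α β γ γ) := by rw [e4]; exact e1
        -- evaluate at constant coefficient, first coordinate, residue field
        have hker : ∀ f ∈ (Ideal.span {PowerSeries.C (s : RR T α β γ) * PowerSeries.X} :
            Ideal (PowerSeries (RR T α β γ))),
            ((fstR (T := T) (α := α) (β := β) (γ := γ)).comp
              (PowerSeries.constantCoeff (R := RR T α β γ))) f = 0 := by
          intro f hf
          rw [Ideal.mem_span_singleton] at hf
          obtain ⟨c, rfl⟩ := hf
          simp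
        let φ : RP T α β γ →+* T := Ideal.Quotient.lift _ _ hker
        have e6 : φ (fromT T α β γ γ) = γ := by
          change φ (Ideal.Quotient.mk _ (PowerSeries.C (emb γ : RR T α β γ))) = γ
          rw [Ideal.Quotient.lift_mk]
          simp [fstR]
        have e7 : IsUnit γ := by rw [← e6]; exact e5.map φ
        exact (mem_maximalIdeal _).1 (mem_max hB).2.2 e7
      · have hker : ∀ f ∈ (Ideal.span {PowerSeries.C (s : RR T α β γ) * PowerSeries.X} :
            Ideal (PowerSeries (RR T α β γ))),
            ((fstR (T := T) (α := α) (β := β) (γ := γ)).comp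
              (PowerSeries.constantCoeff (R := RR T α β γ))) f = 0 := by
          intro f hf
          rw [Ideal.mem_span_singleton] at hf
          obtain ⟨c, rfl⟩ := hf
          simp
        let φ : RP T α β γ →+* T := Ideal.Quotient.lift _ _ hker
        have e6 : φ (tt T α β γ) = 0 := by
          change φ (Ideal.Quotient.mk _ PowerSeries.X) = 0
          rw [Ideal.Quotient.lift_mk]
          simp
        have e7 : IsUnit (0 : T) := by rw [← e6]; exact e1.map φ
        exact not_isUnit_zero e7
    -- the quotient map is local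
    have h6 : maximalIdeal (RP T α β γ) = (maximalIdeal A).comap π := by
      have : ((maximalIdeal A).comap π).IsMaximal := Ideal.comap_isMaximal_of_surjective π hπs
      exact (IsLocalRing.eq_maximalIdeal this).symm
    rw [h6, Ideal.mem_comap] at h5
    exact (mem_maximalIdeal _).1 h5 hu
  exact dim_le_one_of h hmem key

theorem taskDimP : TaskDimP := by
  intro T _ _ _ _ α β γ hB
  calc (2 : WithBot ℕ∞) + ringKrullDim (RP T α β γ ⧸ cP T α β γ) ≤ 2 + 1 := by
        gcongr; exact dim_quot_le hB
    _ = 3 := by norm_num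
    _ < 4 := by exact_mod_cast (by decide : (3 : ℕ) < 4)
    _ ≤ ringKrullDim (RP T α β γ) := dim_RP_ge hB

/-- the evaluation to `T/(α, β)` -/
theorem exists_eval [IsLocalRing T] [IsNoetherianRing T] [IsDomain T] (_hB : Base T α β γ) :
    ∃ ψ : RP T α β γ →+* T ⧸ (Ideal.span {α, β} : Ideal T), ψ (tt T α β γ) = 0 ∧
      ∀ u : RR T α β γ, ψ (toRP u) = Ideal.Quotient.mk _ u.a := by
  have hker : ∀ f ∈ (Ideal.span {PowerSeries.C (s : RR T α β γ) * PowerSeries.X} :
      Ideal (PowerSeries (RR T α β γ))),
      ((Ideal.Quotient.mk (Ideal.span {α, β} : Ideal T)).comp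
        ((fstR (T := T) (α := α) (β := β) (γ := γ)).comp
        (PowerSeries.constantCoeff (R := RR T α β γ)))) f = 0 := by
    intro f hf
    rw [Ideal.mem_span_singleton] at hf
    obtain ⟨c, rfl⟩ := hf
    simp
  refine ⟨Ideal.Quotient.lift _ _ hker, ?_, ?_⟩
  · change Ideal.Quotient.lift _ _ hker (Ideal.Quotient.mk _ PowerSeries.X) = 0
    rw [Ideal.Quotient.lift_mk]
    simp
  · intro u
    change Ideal.Quotient.lift _ _ hker (Ideal.Quotient.mk _ (PowerSeries.C u)) = _
    rw [Ideal.Quotient.lift_mk]
    simp [fstR]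

/-- weakly regular sequences in a prime are not longer than its height -/
theorem length_le_height {A : Type} [CommRing A] [IsNoetherianRing A] (P : Ideal A) [P.IsPrime]
    (rs : List A) (hmem : ∀ r ∈ rs, r ∈ P) (hreg : RingTheory.Sequence.IsWeaklyRegular A rs) :
    (rs.length : ℕ∞) ≤ P.height := by
  have h1 : RingTheory.Sequence.IsRegular (Localization.AtPrime P)
      (rs.map (algebraMap A (Localization.AtPrime P))) :=
    RingTheory.Sequence.IsWeaklyRegular.isRegular_of_isLocalization_of_mem
      (Localization.AtPrime P) P hreg hmem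
  have h2 := ringKrullDim_add_length_eq_ringKrullDim_of_isRegular _ h1
  rw [IsLocalization.AtPrime.ringKrullDim_eq_height P (Localization.AtPrime P)] at h2
  have h3 : (0 : WithBot ℕ∞) ≤ ringKrullDim (Localization.AtPrime P ⧸
      Ideal.ofList (rs.map (algebraMap A (Localization.AtPrime P)))) := by
    have : Nontrivial (Localization.AtPrime P ⧸
        Ideal.ofList (rs.map (algebraMap A (Localization.AtPrime P)))) := by
      apply Ideal.Quotient.nontrivial_iff.2
      have h4 := h1.top_ne_smul
      intro h5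
      apply h4
      rw [h5]
      simp
    exact ringKrullDim_nonneg_of_nontrivial
  rw [List.length_map] at h2
  have h4 : ((rs.length : ℕ∞) : WithBot ℕ∞) ≤ (P.height : WithBot ℕ∞) := by
    rw [← h2]
    calc ((rs.length : ℕ∞) : WithBot ℕ∞) = 0 + ((rs.length : ℕ∞) : WithBot ℕ∞) := by rw [zero_add]
      _ ≤ _ := by gcongr; rfl
  exact_mod_cast h4

theorem taskGradeP : TaskGradeP := by
  intro T _ _ _ _ α β γ hB
  have := local_RP' hB
  obtain ⟨ψ, ht, hψ⟩ := exists_eval hB
  have := hB.prime2
  let P : Ideal (RP T α β γ) := RingHom.ker ψ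
  have hP : P.IsPrime := RingHom.ker_isPrime ψ
  have htP : tt T α β γ ∈ P := ht
  have hxP : toRP (x : RR T α β γ) ∈ P := by
    rw [RingHom.mem_ker, hψ]; simp [x]
  have hwP : toRP (w : RR T α β γ) ∈ P := by
    rw [RingHom.mem_ker, hψ]; simp [w]
  have hαP : fromT T α β γ α ∈ P := by
    change ψ (toRP (emb α)) = 0
    rw [hψ, emb_a]
    exact Ideal.Quotient.eq_zero_iff_mem.2 (Ideal.subset_span (by simp))
  have hβP : fromT T α β γ β ∈ P := by
    change ψ (toRP (emb β)) = 0
    rw [hψ, emb_a]
    exact Ideal.Quotient.eq_zero_iff_mem.2 (Ideal.subset_span (by simp))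
  have hsP : toRP (s : RR T α β γ) ∉ P := by
    rw [RingHom.mem_ker, hψ]
    intro h
    apply hB.notMem
    rw [Ideal.Quotient.eq_zero_iff_mem] at h
    simpa [s] using h
  have hcP : cP T α β γ ≤ P := by
    rw [cP, cI, Ideal.span_le]
    rintro _ ⟨i, rfl⟩
    have hyP : toRP (y : RR T α β γ) ∈ P := by
      have : toRP (y : RR T α β γ) = toRP (x : RR T α β γ) - fromT T α β γ α := by
        have : fromT T α β γ α = toRP (x : RR T α β γ) - toRP (y : RR T α β γ) := by
          rw [← map_sub, x_sub_y]; rfl
        rw [this]; ring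
      rw [this]
      exact Ideal.sub_mem _ hxP hαP
    have hzP : toRP (z : RR T α β γ) ∈ P := by
      have : fromT T α β γ β = toRP (z : RR T α β γ) := by
        rw [z_eq]; rfl
      rw [← this]
      exact hβP
    have e1 : ψ (toRP (x : RR T α β γ)) = 0 := hxP
    have e2 : ψ (toRP (y : RR T α β γ)) = 0 := hyP
    have e3 : ψ (toRP (z : RR T α β γ)) = 0 := hzP
    have e4 : ψ (toRP (w : RR T α β γ)) = 0 := hwP
    rw [SetLike.mem_coe, RingHom.mem_ker]
    fin_cases i <;> simp [gens, e1, e2, e3, e4]
  -- height of P is at most two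
  have hht : P.height ≤ 2 := by
    have hmin : P ∈ (Ideal.span ((({fromT T α β γ α, fromT T α β γ β} :
        Set (RP T α β γ)))) : Ideal (RP T α β γ)).minimalPrimes := by
      refine ⟨⟨hP, ?_⟩, ?_⟩
      · rw [Ideal.span_le]
        intro a ha
        rw [Set.mem_insert_iff, Set.mem_singleton_iff] at ha
        rcases ha with rfl | rfl
        · exact hαP
        · exact hβP
      · rintro Q ⟨hQ, hQ2⟩ hQP
        have hsQ : toRP (s : RR T α β γ) ∉ Q := fun h => hsP (hQP h)
        have h1 : tt T α β γ ∈ Q := by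
          have : toRP (s : RR T α β γ) * tt T α β γ ∈ Q := by
            rw [s_mul_tt]; exact Ideal.zero_mem _
          exact (hQ.mem_or_mem this).resolve_left hsQ
        have h2 : toRP (x : RR T α β γ) ∈ Q := by
          have : toRP (x : RR T α β γ) * toRP (s : RR T α β γ) ∈ Q := by
            rw [x_mul_s]; exact Ideal.zero_mem _
          exact (hQ.mem_or_mem this).resolve_right hsQ
        have h3 : toRP (w : RR T α β γ) ∈ Q := by
          have : toRP (w : RR T α β γ) * toRP (s : RR T α β γ) ∈ Q := by
            rw [w_mul_s]; exact Ideal.zero_mem _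
          exact (hQ.mem_or_mem this).resolve_right hsQ
        have h4 : fromT T α β γ α ∈ Q := hQ2 (Ideal.subset_span (by simp))
        have h5 : fromT T α β γ β ∈ Q := hQ2 (Ideal.subset_span (by simp))
        intro f hf
        obtain ⟨u, g, rfl⟩ := decompRP f
        have h6 : u.a ∈ (Ideal.span {α, β} : Ideal T) := by
          have h7 : ψ (toRP u + tt T α β γ * g) = 0 := hf
          rw [map_add, map_mul, ht, zero_mul, add_zero, hψ, Ideal.Quotient.eq_zero_iff_mem] at h7
          exact h7
        have h8 : fromT T α β γ u.a ∈ Q := by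
          have hle : (Ideal.span {α, β} : Ideal T) ≤ Q.comap (fromT T α β γ) := by
            rw [Ideal.span_le]
            intro a ha
            rw [Set.mem_insert_iff, Set.mem_singleton_iff] at ha
            rcases ha with rfl | rfl
            · exact h4
            · exact h5
          exact hle h6
        rw [toRP_decomp u]
        exact Ideal.add_mem _ (Ideal.add_mem _ (Ideal.add_mem _ h8 (Ideal.mul_mem_left _ _ h2))
          (Ideal.mul_mem_left _ _ h3)) (Ideal.mul_mem_right _ _ h1)
    have hfin : ({fromT T α β γ α, fromT T α β γ β} : Set (RP T α β γ)).Finite :=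
      Set.toFinite _
    refine (Ideal.height_le_card_of_mem_minimalPrimes_span hfin hmin).trans ?_
    have : ({fromT T α β γ α, fromT T α β γ β} : Set (RP T α β γ)).ncard ≤ 2 := by
      refine (Set.ncard_insert_le _ _).trans ?_
      simp
    exact_mod_cast this
  rintro ⟨rs, hlen, hmem, hreg⟩
  have h1 := length_le_height P rs (fun r hr => hcP (hmem r hr)) hreg
  rw [hlen] at h1
  have h2 := h1.trans hht
  exact absurd (by exact_mod_cast h2 : (3 : ℕ) ≤ 2) (by decide)

end Pool.Agent.R829.GC
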