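import Pool.Agent.R829.StLen

set_option autoImplicit false

namespace Pool.Agent.R829.NH

open Finset MvPowerSeries

/-- Power series in three variables over the rationals. -/
abbrev P3 : Type := MvPowerSeries (Fin 3) ℚ

/-- Restriction to a coordinate face. -/
noncomputable def faceFun (F : Finset (Fin 3)) (f : P3) : P3 :=
  fun e => if e.support ⊆ F then coeff e f else 0

lemma coeff_faceFun (F : Finset (Fin 3)) (f : P3) (e : Fin 3 →₀ ℕ) :
    coeff e (faceFun F f) = if e.support ⊆ F then coeff e f else 0 := rfl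

lemma supp_add {a b : Fin 3 →₀ ℕ} (F : Finset (Fin 3)) :
    (a + b).support ⊆ F ↔ a.support ⊆ F ∧ b.support ⊆ F := by
  constructor
  · intro h
    constructor
    · intro i hi
      apply h
      rw [Finsupp.mem_support_iff] at hi ⊢
      rw [Finsupp.add_apply]
      omega
    · intro i hi
      apply h
      rw [Finsupp.mem_support_iff] at hi ⊢
      rw [Finsupp.add_apply]
      omega
  · rintro ⟨h1, h2⟩ i hi
    rw [Finsupp.mem_support_iff, Finsupp.add_apply] at hi
    by_cases h : a i = 0
    · apply h2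
      rw [Finsupp.mem_support_iff]
      omega
    · apply h1
      rw [Finsupp.mem_support_iff]
      exact h

/-- Restriction to a coordinate face, as a ring homomorphism. -/
noncomputable def face (F : Finset (Fin 3)) : P3 →+* P3 where
  toFun := faceFun F
  map_one' := by
    ext e
    rw [coeff_faceFun, coeff_one]
    by_cases h : e = 0
    · subst h; simp
    · rw [if_neg h]; simp
  map_zero' := by
    ext e
    rw [coeff_faceFun]
    simp
  map_add' := by
    intro f g
    ext e
    rw [coeff_faceFun, map_add, map_add, coeff_faceFun, coeff_faceFun]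
    split_ifs <;> simp
  map_mul' := by
    intro f g
    ext e
    rw [coeff_faceFun, coeff_mul, coeff_mul]
    split_ifs with h
    · apply Finset.sum_congr rfl
      rintro ⟨a, b⟩ hab
      rw [Finset.HasAntidiagonal.mem_antidiagonal] at hab
      simp only at hab
      rw [← hab, supp_add] at h
      rw [coeff_faceFun, coeff_faceFun, if_pos h.1, if_pos h.2]
    · symm
      apply Finset.sum_eq_zero
      rintro ⟨a, b⟩ hab
      rw [Finset.HasAntidiagonal.mem_antidiagonal] at hab
      simp only at hab
      rw [← hab, supp_add] at h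
      rw [coeff_faceFun, coeff_faceFun]
      by_cases h1 : a.support ⊆ F
      · rw [if_neg (fun h2 => h ⟨h1, h2⟩), mul_zero]
      · rw [if_neg h1, zero_mul]

lemma coeff_face (F : Finset (Fin 3)) (f : P3) (e : Fin 3 →₀ ℕ) :
    coeff e (face F f) = if e.support ⊆ F then coeff e f else 0 := rfl

lemma face_eq_zero {F : Finset (Fin 3)} {f : P3} :
    face F f = 0 ↔ ∀ e : Fin 3 →₀ ℕ, e.support ⊆ F → coeff e f = 0 := by
  constructor
  · intro h e he
    have := congrArg (coeff e) h
    rw [coeff_face, if_pos he] at this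
    simpa using this
  · intro h
    ext e
    rw [coeff_face]
    split_ifs with he
    · rw [h e he]; simp
    · simp

lemma face_X (F : Finset (Fin 3)) (i : Fin 3) :
    face F (X i) = if i ∈ F then X i else 0 := by
  ext e
  rw [coeff_face, coeff_X]
  by_cases h : e = Finsupp.single i 1
  · have h1 : e.support = {i} := by
      rw [h]; exact Finsupp.support_single_ne_zero i one_ne_zero
    by_cases hi : i ∈ F
    · rw [if_pos hi, coeff_X, if_pos (by rw [h1, Finset.singleton_subset_iff]; exact hi)]
    · rw [if_neg hi, if_neg (by rw [h1, Finset.singleton_subset_iff]; exact hi)]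
      simp
  · rw [if_neg h]
    split_ifs <;> simp [coeff_X, h]

/-- The defining ideal. -/
noncomputable def J : Ideal P3 := RingHom.ker (face {0, 1}) ⊓ RingHom.ker (face {2})

/-- Exponents of the standard monomials. -/
def Std (e : Fin 3 →₀ ℕ) : Prop := e.support ⊆ {0, 1} ∨ e.support ⊆ {2}

lemma mem_J {f : P3} : f ∈ J ↔ ∀ e, Std e → coeff e f = 0 := by
  unfold J
  rw [Ideal.mem_inf, RingHom.mem_ker, RingHom.mem_ker, face_eq_zero, face_eq_zero]
  constructor
  · rintro ⟨h1, h2⟩ e (he | he)
    · exact h1 e he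
    · exact h2 e he
  · intro h
    exact ⟨fun e he => h e (Or.inl he), fun e he => h e (Or.inr he)⟩

/-- The example ring. -/
abbrev R : Type := P3 ⧸ J

lemma J_ne_top : J ≠ ⊤ := by
  intro h
  have h1 : (1 : P3) ∈ J := by rw [h]; trivial
  rw [mem_J] at h1
  have := h1 0 (Or.inl (by simp))
  simp at this

instance : Nontrivial R := Ideal.Quotient.nontrivial_iff.mpr J_ne_top

instance : IsLocalRing R := IsLocalRing.of_surjective' (Ideal.Quotient.mk J) Ideal.Quotient.mk_surjective

/-- Series with vanishing coefficients in degrees below `n`. -/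
def O (n : ℕ) : Ideal P3 where
  carrier := {f | ∀ e : Fin 3 →₀ ℕ, e.degree < n → coeff e f = 0}
  add_mem' := by
    intro f g hf hg e he
    rw [map_add, hf e he, hg e he, add_zero]
  zero_mem' := by
    intro e _
    simp
  smul_mem' := by
    intro c f hf e he
    rw [smul_eq_mul, coeff_mul]
    apply Finset.sum_eq_zero
    rintro ⟨a, b⟩ hab
    rw [Finset.HasAntidiagonal.mem_antidiagonal] at hab
    simp only at hab ⊢
    rw [hf b, mul_zero]
    have : e.degree = a.degree + b.degree := by rw [← hab, map_add]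
    omega

lemma mem_O {n : ℕ} {f : P3} : f ∈ O n ↔ ∀ e : Fin 3 →₀ ℕ, e.degree < n → coeff e f = 0 := Iff.rfl

lemma O_mul {a b : ℕ} : O a * O b ≤ O (a + b) := by
  rw [Ideal.mul_le]
  intro f hf g hg e he
  rw [coeff_mul]
  apply Finset.sum_eq_zero
  rintro ⟨u, v⟩ huv
  rw [Finset.HasAntidiagonal.mem_antidiagonal] at huv
  simp only at huv ⊢
  have : e.degree = u.degree + v.degree := by rw [← huv, map_add]
  by_cases h : u.degree < a
  · rw [hf u h, zero_mul]
  · rw [hg v (by omega), mul_zero]

/-- The ideal of the variables. -/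
noncomputable abbrev 𝔐 : Ideal P3 := Ideal.span (Set.range (X : Fin 3 → P3))

lemma decomp (f : P3) (hf : constantCoeff f = 0) : ∃ g : Fin 3 → P3, f = ∑ i, X i * g i ∧
    ∀ i e, coeff e (g i) = 0 ∨ coeff e (g i) = coeff (e + Finsupp.single i 1) f := by
  classical
  let first : (Fin 3 →₀ ℕ) → Fin 3 → Prop := fun e i => e i ≠ 0 ∧ ∀ j < i, e j = 0
  have hfirst : ∀ e : Fin 3 →₀ ℕ, e ≠ 0 → ∃! i, first e i := by
    intro e he
    have hne : e.support.Nonempty := Finsupp.support_nonempty_iff.mpr he
    refine ⟨e.support.min' hne, ⟨?_, ?_⟩, ?_⟩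
    · exact Finsupp.mem_support_iff.mp (Finset.min'_mem _ hne)
    · intro j hj
      by_contra hcon
      exact absurd (Finset.min'_le _ j (Finsupp.mem_support_iff.mpr hcon)) (not_le.mpr hj)
    · rintro i ⟨h1, h2⟩
      apply le_antisymm
      · by_contra hcon
        push Not at hcon
        exact Finsupp.mem_support_iff.mp (Finset.min'_mem _ hne) (h2 _ hcon)
      · exact Finset.min'_le _ i (Finsupp.mem_support_iff.mpr h1)
  let g : Fin 3 → P3 := fun i e =>
    if first (e + Finsupp.single i 1) i then coeff (e + Finsupp.single i 1) f else 0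
  refine ⟨g, ?_, ?_⟩
  · ext e
    rw [map_sum]
    have h1 : ∀ i, coeff e (X i * g i) = if first e i then coeff e f else 0 := by
      intro i
      rw [X_def, coeff_monomial_mul, one_mul]
      by_cases h2 : Finsupp.single i 1 ≤ e
      · rw [if_pos h2]
        have h3 : e - Finsupp.single i 1 + Finsupp.single i 1 = e := tsub_add_cancel_of_le h2
        show (if first (e - Finsupp.single i 1 + Finsupp.single i 1) i then
          coeff (e - Finsupp.single i 1 + Finsupp.single i 1) f else 0) = _
        rw [h3]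
      · rw [if_neg h2, if_neg]
        intro h3
        apply h2
        rw [Finsupp.single_le_iff]
        exact Nat.one_le_iff_ne_zero.mpr h3.1
    simp only [h1]
    by_cases he : e = 0
    · subst he
      rw [coeff_zero_eq_constantCoeff_apply, hf]
      simp
    · obtain ⟨i, hi, hu⟩ := hfirst e he
      rw [Finset.sum_eq_single i]
      · rw [if_pos hi]
      · intro j _ hj
        rw [if_neg]
        intro h
        exact hj (hu j h)
      · intro h
        exact absurd (Finset.mem_univ i) h
  · intro i e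
    show (if first (e + Finsupp.single i 1) i then coeff (e + Finsupp.single i 1) f else 0) = 0 ∨
      (if first (e + Finsupp.single i 1) i then coeff (e + Finsupp.single i 1) f else 0) = _
    split_ifs
    · right; rfl
    · left; rfl

lemma pow_eq_O (n : ℕ) : 𝔐 ^ n = O n := by
  induction n with
  | zero =>
    rw [pow_zero, Ideal.one_eq_top]
    symm
    rw [Ideal.eq_top_iff_one]
    intro e he
    omega
  | succ n ih =>
    apply le_antisymm
    · rw [pow_succ, ih]
      have h1 : 𝔐 ≤ O 1 := by
        rw [Ideal.span_le]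
        rintro _ ⟨i, rfl⟩ e he
        have : e = 0 := by
          rw [← Finsupp.degree_eq_zero_iff]
          omega
        subst this
        rw [coeff_zero_eq_constantCoeff_apply, constantCoeff_X]
      exact (Ideal.mul_mono_right h1).trans O_mul
    · intro f hf
      have h0 : constantCoeff f = 0 := by
        rw [← coeff_zero_eq_constantCoeff_apply]
        exact hf 0 (by simp)
      obtain ⟨g, hfg, hg⟩ := decomp f h0
      rw [hfg]
      refine Ideal.sum_mem _ ?_
      intro i _
      rw [pow_succ']
      apply Ideal.mul_mem_mul (show (X i : P3) ∈ 𝔐 from Ideal.subset_span ⟨i, rfl⟩)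
      rw [ih]
      intro e he
      rcases hg i e with h | h
      · exact h
      · rw [h]
        apply hf
        rw [map_add, Finsupp.degree_single]
        omega

lemma max_eq : IsLocalRing.maximalIdeal R = 𝔐.map (Ideal.Quotient.mk J) := by
  apply le_antisymm
  · intro r hr
    obtain ⟨f, rfl⟩ := Ideal.Quotient.mk_surjective r
    apply Ideal.mem_map_of_mem
    apply St.mem_span_X_of_constantCoeff
    by_contra hcon
    apply hr
    have : IsUnit f := by
      rw [isUnit_iff_constantCoeff]
      exact isUnit_iff_ne_zero.mpr hcon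
    exact this.map _
  · rw [Ideal.map_le_iff_le_comap, Ideal.span_le]
    rintro _ ⟨i, rfl⟩
    rw [SetLike.mem_coe, Ideal.mem_comap, IsLocalRing.mem_maximalIdeal, mem_nonunits_iff]
    intro hu
    obtain ⟨s, hs⟩ := hu.exists_right_inv
    obtain ⟨g, rfl⟩ := Ideal.Quotient.mk_surjective s
    rw [← map_mul, ← map_one (Ideal.Quotient.mk J), Ideal.Quotient.eq, mem_J] at hs
    have := hs 0 (Or.inl (by simp))
    rw [map_sub, coeff_zero_eq_constantCoeff_apply, coeff_zero_eq_constantCoeff_apply, map_mul,
      constantCoeff_X, zero_mul, map_one] at this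
    norm_num at this

/-- Membership in powers of the maximal ideal. -/
lemma mem_max_pow {n : ℕ} {f : P3} : Ideal.Quotient.mk J f ∈ IsLocalRing.maximalIdeal R ^ n ↔
    ∀ e, Std e → e.degree < n → coeff e f = 0 := by
  classical
  rw [max_eq, ← Ideal.map_pow, pow_eq_O, Ideal.mem_quotient_iff_mem_sup]
  constructor
  · intro h e he hn
    obtain ⟨g, hg, h', hh, rfl⟩ := Submodule.mem_sup.mp h
    rw [map_add, hg e hn, mem_J.mp hh e he, add_zero]
  · intro h
    let g : P3 := fun e => if Std e then coeff e f else 0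
    have hg : ∀ e, coeff e g = if Std e then coeff e f else 0 := fun _ => rfl
    have : f = g + (f - g) := by ring
    rw [this]
    apply Submodule.add_mem_sup
    · intro e he
      rw [hg]
      split_ifs with hs
      · exact h e hs he
      · rfl
    · rw [mem_J]
      intro e he
      rw [map_sub, hg, if_pos he, sub_self]

lemma order_pow' (f : P3) (k : ℕ) : (f ^ k).order = k • f.order := by
  induction k with
  | zero =>
    rw [pow_zero, zero_nsmul]
    apply le_antisymm _ zero_le
    have h : coeff (0 : Fin 3 →₀ ℕ) (1 : P3) ≠ 0 := by simp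
    have := order_le h
    simpa using this
  | succ k ih => rw [pow_succ, order_mul, ih, succ_nsmul]

/-- The associated graded ring is reduced. -/
lemma pow_notMem {r : R} {s : ℕ} (hr : r ∉ IsLocalRing.maximalIdeal R ^ (s + 1)) (k : ℕ) :
    r ^ k ∉ IsLocalRing.maximalIdeal R ^ (k * s + 1) := by
  obtain ⟨f, rfl⟩ := Ideal.Quotient.mk_surjective r
  rw [← map_pow]
  rw [mem_max_pow] at hr ⊢
  push Not at hr ⊢
  obtain ⟨e, he, hdeg, hne⟩ := hr
  obtain ⟨F, hF, heF⟩ : ∃ F : Finset (Fin 3), (∀ e' : Fin 3 →₀ ℕ, e'.support ⊆ F → Std e') ∧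
      e.support ⊆ F := by
    rcases he with h | h
    · exact ⟨{0, 1}, fun _ h' => Or.inl h', h⟩
    · exact ⟨{2}, fun _ h' => Or.inr h', h⟩
  have h1 : coeff e (face F f) ≠ 0 := by
    rw [coeff_face, if_pos heF]; exact hne
  have h2 : (face F f).order ≤ (e.degree : ℕ∞) := order_le h1
  have h3 : ((face F f) ^ k).order ≤ ((k * s : ℕ) : ℕ∞) := by
    rw [order_pow']
    calc k • (face F f).order ≤ k • (e.degree : ℕ∞) := nsmul_le_nsmul_right h2 k
      _ = ((k * e.degree : ℕ) : ℕ∞) := by simp
      _ ≤ _ := by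
        exact_mod_cast Nat.mul_le_mul_left k (by omega)
  have h4 : (face F f) ^ k ≠ 0 := by
    intro h
    rw [h, order_zero] at h3
    exact absurd h3 (not_le.mpr (WithTop.coe_lt_top _))
  have h5 : ((face F f) ^ k).order ≠ ⊤ := fun h => h4 (order_eq_top_iff.mp h)
  obtain ⟨e', he', hdeg'⟩ := exists_coeff_ne_zero_and_order (f := (face F f) ^ k)
    (ENat.natCast_toNat h5)
  rw [← map_pow, coeff_face] at he'
  split_ifs at he' with hs
  · refine ⟨e', hF e' hs, ?_, he'⟩
    rw [← hdeg'] at h3
    have h6 : e'.degree ≤ k * s := by exact_mod_cast h3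
    omega
  · exact absurd rfl he'

/-- Powers of the maximal ideal are integrally closed. -/
lemma closure_eq (n : ℕ) (x : R) :
    x ∈ IsLocalRing.maximalIdeal R ^ n ↔
      ∃ k : ℕ, 0 < k ∧ ∃ a : ℕ → R, (∀ j, a j ∈ (IsLocalRing.maximalIdeal R ^ n) ^ j) ∧
            x ^ k + ∑ j ∈ Finset.range k, a (k - j) * x ^ j = 0 := by
  set 𝔪 := IsLocalRing.maximalIdeal R
  constructor
  · intro hx
    refine ⟨1, one_pos, fun j => if j = 1 then -x else 0, ?_, by simp⟩
    intro j
    show (if j = 1 then -x else 0) ∈ (𝔪 ^ n) ^ j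
    by_cases hj : j = 1
    · rw [if_pos hj, hj, pow_one]
      exact neg_mem hx
    · rw [if_neg hj]
      exact Ideal.zero_mem _
  · rintro ⟨k, hk, a, ha, heq⟩
    by_contra hx
    -- the exact order of `x`
    have hex : ∃ s, x ∉ 𝔪 ^ (s + 1) ∧ s < n ∧ x ∈ 𝔪 ^ s := by
      classical
      have h0 : ∃ m, x ∉ 𝔪 ^ m := ⟨n, hx⟩
      have h1 := Nat.find_spec h0
      have h2 : Nat.find h0 ≤ n := Nat.find_le hx
      have h3 : Nat.find h0 ≠ 0 := by
        intro h
        rw [h, pow_zero, Ideal.one_eq_top] at h1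
        exact h1 trivial
      obtain ⟨s, hs⟩ := Nat.exists_eq_succ_of_ne_zero h3
      refine ⟨s, by rw [← Nat.succ_eq_add_one, ← hs]; exact h1, by omega, ?_⟩
      by_contra hcon
      have := Nat.find_le (h := h0) hcon
      omega
    obtain ⟨s, hs1, hsn, hs2⟩ := hex
    apply pow_notMem hs1 k
    have h4 : x ^ k = - ∑ j ∈ Finset.range k, a (k - j) * x ^ j := eq_neg_of_add_eq_zero_left heq
    rw [h4]
    apply neg_mem
    refine Ideal.sum_mem _ ?_
    intro j hj
    rw [Finset.mem_range] at hj
    have h5 : a (k - j) * x ^ j ∈ 𝔪 ^ (n * (k - j)) * 𝔪 ^ (s * j) := by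
      apply Ideal.mul_mem_mul
      · rw [pow_mul]; exact ha _
      · rw [pow_mul]; exact Ideal.pow_mem_pow hs2 j
    rw [← pow_add] at h5
    apply Ideal.pow_le_pow_right _ h5
    obtain ⟨c, hc⟩ := Nat.exists_eq_add_of_lt hj
    have h6 : k - j = c + 1 := by omega
    rw [h6, hc]
    have h7 : s * (c + 1) + (c + 1) ≤ n * (c + 1) := by nlinarith
    nlinarith

/-- The completion is reduced. -/
lemma completion_reduced : IsReduced (AdicCompletion (IsLocalRing.maximalIdeal R) R) := by
  set 𝔪 := IsLocalRing.maximalIdeal R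
  constructor
  rintro a ⟨k, hk⟩
  apply AdicCompletion.ext_evalₐ
  intro n
  rw [map_zero]
  rcases n with _ | s
  · have : Subsingleton (R ⧸ 𝔪 ^ 0) := by
      rw [pow_zero, Ideal.one_eq_top]
      exact Ideal.Quotient.subsingleton_iff.mpr rfl
    exact Subsingleton.elim _ _
  · -- work at level `k * s + 1 + s`
    set N := k * s + 1 + s with hN
    obtain ⟨f, rfl⟩ := AdicCompletion.mk_surjective 𝔪 R a
    have hb : AdicCompletion.evalₐ 𝔪 N (AdicCompletion.mk 𝔪 R f)
        = Ideal.Quotient.mk (𝔪 ^ N) (f.val N) := AdicCompletion.evalₐ_mk 𝔪 N f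
    have h1 : (f.val N) ^ k ∈ 𝔪 ^ N := by
      rw [← Ideal.Quotient.eq_zero_iff_mem, map_pow, ← hb, ← map_pow, hk, map_zero]
    have h2 : f.val N ∈ 𝔪 ^ (s + 1) := by
      by_contra hcon
      exact pow_notMem hcon k (Ideal.pow_le_pow_right (by omega) h1)
    rw [AdicCompletion.evalₐ_mk]
    have h3 := AdicCompletion.Ideal.mk_eq_mk 𝔪 (show s + 1 ≤ N by omega) f
    rw [← h3]
    exact Ideal.Quotient.eq_zero_iff_mem.mpr h2

/-! ### Dimension -/

/-- The map of the example ring to a face. -/
noncomputable def toFace (F : Finset (Fin 3)) (hF : F ⊆ {0, 1}) : R →+* P3 :=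
  Ideal.Quotient.lift J (face F) (by
    intro f hf
    rw [face_eq_zero]
    intro e he
    exact mem_J.mp hf e (Or.inl (he.trans hF)))

lemma toFace_mk (F : Finset (Fin 3)) (hF : F ⊆ {0, 1}) (f : P3) :
    toFace F hF (Ideal.Quotient.mk J f) = face F f := rfl

instance : IsDomain P3 := NoZeroDivisors.to_isDomain _

/-- The prime of a face. -/
noncomputable def facePrime (F : Finset (Fin 3)) (hF : F ⊆ {0, 1}) : PrimeSpectrum R :=
  ⟨RingHom.ker (toFace F hF), RingHom.ker_isPrime _⟩

lemma facePrime_lt {F G : Finset (Fin 3)} (hF : F ⊆ {0, 1}) (hG : G ⊆ {0, 1}) (i : Fin 3)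
    (hi : i ∈ G) (hi' : i ∉ F) (hFG : F ⊆ G) : facePrime G hG < facePrime F hF := by
  have hle : facePrime G hG ≤ facePrime F hF := by
    intro r hr
    obtain ⟨f, rfl⟩ := Ideal.Quotient.mk_surjective r
    have h1 : toFace G hG (Ideal.Quotient.mk J f) = 0 := hr
    show toFace F hF (Ideal.Quotient.mk J f) = 0
    rw [toFace_mk, face_eq_zero] at h1 ⊢
    intro e he
    exact h1 e (he.trans hFG)
  refine lt_of_le_of_ne hle ?_
  intro heq
  have h1 : (Ideal.Quotient.mk J (X i) : R) ∈ (facePrime F hF).asIdeal := by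
    show toFace F hF (Ideal.Quotient.mk J (X i)) = 0
    rw [toFace_mk, face_X, if_neg hi']
  rw [← heq] at h1
  have h2 : toFace G hG (Ideal.Quotient.mk J (X i)) = 0 := h1
  rw [toFace_mk, face_X, if_pos hi] at h2
  have h3 := congrArg (coeff (Finsupp.single i 1)) h2
  rw [coeff_X, if_pos rfl] at h3
  simp at h3

lemma dim_ge : (2 : WithBot ℕ∞) ≤ ringKrullDim R := by
  let p : LTSeries (PrimeSpectrum R) :=
    LTSeries.mk 2 ![facePrime {0, 1} subset_rfl, facePrime {0} (by decide), facePrime ∅ (by decide)]
      (by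
        rw [Fin.strictMono_iff_lt_succ]
        intro i
        fin_cases i
        · exact facePrime_lt _ _ 1 (by decide) (by decide) (by decide)
        · exact facePrime_lt _ _ 0 (by decide) (by decide) (by decide))
  exact Order.LTSeries.length_le_krullDim p

lemma dim_le : ringKrullDim R ≤ (2 : WithBot ℕ∞) := by
  classical
  rw [← IsLocalRing.maximalIdeal_height_eq_ringKrullDim]
  let a : R := Ideal.Quotient.mk J (X 0 + X 2)
  let b : R := Ideal.Quotient.mk J (X 1)
  have hmin : IsLocalRing.maximalIdeal R ∈ (Ideal.span (({a, b} : Finset R) : Set R)).minimalPrimes := by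
    refine ⟨⟨inferInstance, ?_⟩, ?_⟩
    · rw [Ideal.span_le]
      intro r hr
      simp only [Finset.coe_insert, Finset.coe_singleton, Set.mem_insert_iff,
        Set.mem_singleton_iff] at hr
      rw [SetLike.mem_coe, max_eq]
      rcases hr with rfl | rfl
      · apply Ideal.mem_map_of_mem
        exact Ideal.add_mem _ (Ideal.subset_span ⟨0, rfl⟩) (Ideal.subset_span ⟨2, rfl⟩)
      · apply Ideal.mem_map_of_mem
        exact Ideal.subset_span ⟨1, rfl⟩
    · rintro Q ⟨hQ, hle⟩ _
      rw [max_eq, Ideal.map_le_iff_le_comap, Ideal.span_le]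
      have ha : a ∈ Q := hle (Ideal.subset_span (by simp))
      have hb : b ∈ Q := hle (Ideal.subset_span (by simp))
      have hprod : (Ideal.Quotient.mk J (X 0) : R) * Ideal.Quotient.mk J (X 2) = 0 := by
        rw [← map_mul, Ideal.Quotient.eq_zero_iff_mem]
        unfold J
        rw [Ideal.mem_inf, RingHom.mem_ker, RingHom.mem_ker, map_mul, map_mul, face_X, face_X,
          face_X, face_X]
        simp
      have h0 : (Ideal.Quotient.mk J (X 0) : R) ∈ Q := by
        have : (Ideal.Quotient.mk J (X 0) : R) ^ 2 = Ideal.Quotient.mk J (X 0) * a := by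
          simp only [a, map_add]
          rw [mul_add, hprod, add_zero, sq]
        apply hQ.mem_of_pow_mem 2
        rw [this]
        exact Ideal.mul_mem_left _ _ ha
      have h2 : (Ideal.Quotient.mk J (X 2) : R) ∈ Q := by
        have : (Ideal.Quotient.mk J (X 2) : R) = a - Ideal.Quotient.mk J (X 0) := by
          simp only [a, map_add]; ring
        rw [this]
        exact Q.sub_mem ha h0
      rintro _ ⟨i, rfl⟩
      fin_cases i
      · exact h0
      · exact hb
      · exact h2
  have h1 := Ideal.height_le_card_of_mem_minimalPrimes_span_finset hmin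
  have h2 : (({a, b} : Finset R).card : ℕ∞) ≤ 2 := by
    exact_mod_cast Finset.card_le_two
  have h3 := h1.trans h2
  exact WithBot.coe_le_coe.mpr h3

lemma dim_eq : ringKrullDim R = ((2 : ℕ) : WithBot ℕ∞) :=
  le_antisymm dim_le dim_ge

/-! ### Length -/

/-- Index set of the standard monomials of degree at most `n`. -/
abbrev Idx (n : ℕ) : Type := (Σ a : Fin (n + 1), Fin (n + 1 - a.val)) ⊕ Fin n

lemma card_Idx (n : ℕ) : Fintype.card (Idx n) = (n + 2).choose 2 + n := by
  rw [Fintype.card_sum, Fintype.card_fin, Fintype.card_sigma]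
  congr 1
  simp only [Fintype.card_fin]
  rw [Fin.sum_univ_eq_sum_range (fun i => n + 1 - i) (n + 1)]
  induction n with
  | zero => simp
  | succ n ih =>
    rw [Finset.sum_range_succ', Nat.choose_succ_succ' (n + 2) 1, Nat.choose_one_right, ← ih]
    have : ∀ i, n + 1 + 1 - (i + 1) = n + 1 - i := fun i => by omega
    simp only [this]
    omega

/-- The standard exponents. -/
noncomputable def expo (n : ℕ) : Idx n → (Fin 3 →₀ ℕ)
  | Sum.inl ⟨a, b⟩ => Finsupp.single 0 a.val + Finsupp.single 1 b.val
  | Sum.inr c => Finsupp.single 2 (c.val + 1)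

lemma expo_std (n : ℕ) (i : Idx n) : Std (expo n i) ∧ (expo n i).degree ≤ n := by
  rcases i with ⟨a, b⟩ | c
  · constructor
    · left
      rw [expo, supp_add]
      exact ⟨Finsupp.support_single_subset.trans (by decide),
        Finsupp.support_single_subset.trans (by decide)⟩
    · rw [expo, map_add, Finsupp.degree_single, Finsupp.degree_single]
      have := a.2
      have := b.2
      omega
  · constructor
    · right
      exact Finsupp.support_single_subset
    · rw [expo, Finsupp.degree_single]
      have := c.2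
      omega

lemma expo_surj (n : ℕ) (e : Fin 3 →₀ ℕ) (he : Std e) (hdeg : e.degree ≤ n) :
    ∃ i, expo n i = e := by
  have hd : e.degree = e 0 + e 1 + e 2 := by
    rw [Finsupp.degree_eq_sum]
    simp [Fin.sum_univ_three]
  rcases he with h | h
  · have h2 : e 2 = 0 := by
      by_contra hcon
      have := h (Finsupp.mem_support_iff.mpr hcon)
      simp at this
    refine ⟨Sum.inl ⟨⟨e 0, by omega⟩, ⟨e 1, by simp only; omega⟩⟩, ?_⟩
    rw [expo]
    ext j
    fin_cases j <;> simp [h2]
  · have h0 : e 0 = 0 := by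
      by_contra hcon
      have := h (Finsupp.mem_support_iff.mpr hcon)
      simp at this
    have h1 : e 1 = 0 := by
      by_contra hcon
      have := h (Finsupp.mem_support_iff.mpr hcon)
      simp at this
    by_cases h2 : e 2 = 0
    · refine ⟨Sum.inl ⟨⟨0, by omega⟩, ⟨0, by simp⟩⟩, ?_⟩
      rw [expo]
      ext j
      fin_cases j <;> simp [h0, h1, h2]
    · refine ⟨Sum.inr ⟨e 2 - 1, by omega⟩, ?_⟩
      rw [expo]
      ext j
      fin_cases j
      · simp [h0]
      · simp [h1]
      · simp; omega

lemma expo_inj (n : ℕ) : Function.Injective (expo n) := by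
  intro i j h
  rcases i with ⟨a, b⟩ | c <;> rcases j with ⟨a', b'⟩ | c'
  · have h0 := DFunLike.congr_fun h 0
    have h1 := DFunLike.congr_fun h 1
    simp [expo] at h0 h1
    have ha : a = a' := Fin.ext h0
    subst ha
    have hb : b = b' := Fin.ext h1
    rw [hb]
  · have h2 := DFunLike.congr_fun h 2
    simp [expo] at h2
  · have h2 := DFunLike.congr_fun h 2
    simp [expo] at h2
  · have h2 := DFunLike.congr_fun h 2
    simp [expo] at h2
    rw [Fin.ext h2]

/-- The coefficient map. -/
noncomputable def cmap (n : ℕ) : R →ₗ[ℚ] (Idx n → ℚ) :=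
  (J.restrictScalars ℚ).liftQ (LinearMap.pi (fun i => coeff (expo n i))) (by
    intro f hf
    rw [LinearMap.mem_ker]
    funext i
    exact mem_J.mp hf _ (expo_std n i).1)

lemma cmap_mk (n : ℕ) (f : P3) (i : Idx n) :
    cmap n (Ideal.Quotient.mk J f) i = coeff (expo n i) f := rfl

lemma cmap_surj (n : ℕ) : Function.Surjective (cmap n) := by
  classical
  intro v
  let f : P3 := fun e => if h : ∃ i, expo n i = e then v h.choose else 0
  refine ⟨Ideal.Quotient.mk J f, ?_⟩
  funext i
  rw [cmap_mk]
  show (if h : ∃ j, expo n j = expo n i then v h.choose else 0) = v i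
  rw [dif_pos ⟨i, rfl⟩]
  congr 1
  exact expo_inj n (Exists.choose_spec (⟨i, rfl⟩ : ∃ j, expo n j = expo n i))

lemma cmap_ker (n : ℕ) : LinearMap.ker (cmap n)
    = (IsLocalRing.maximalIdeal R ^ (n + 1)).restrictScalars ℚ := by
  ext r
  obtain ⟨f, rfl⟩ := Ideal.Quotient.mk_surjective r
  rw [LinearMap.mem_ker, Submodule.restrictScalars_mem, mem_max_pow]
  constructor
  · intro h e he hdeg
    obtain ⟨i, rfl⟩ := expo_surj n e he (by omega)
    have := congrFun h i
    rwa [cmap_mk] at this
  · intro h
    funext i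
    rw [cmap_mk]
    exact h _ (expo_std n i).1 (by have := (expo_std n i).2; omega)

lemma finrank_quot (n : ℕ) :
    Module.Finite ℚ (R ⧸ IsLocalRing.maximalIdeal R ^ (n + 1)) ∧
    Module.finrank ℚ (R ⧸ IsLocalRing.maximalIdeal R ^ (n + 1)) = (n + 2).choose 2 + n := by
  have e1 : (R ⧸ (IsLocalRing.maximalIdeal R ^ (n + 1)).restrictScalars ℚ) ≃ₗ[ℚ] (Idx n → ℚ) :=
    (Submodule.quotEquivOfEq _ _ (cmap_ker n).symm).trans
      ((cmap n).quotKerEquivOfSurjective (cmap_surj n))
  have e2 : (R ⧸ IsLocalRing.maximalIdeal R ^ (n + 1)) ≃ₗ[ℚ] (Idx n → ℚ) := e1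
  constructor
  · exact Module.Finite.equiv e2.symm
  · rw [e2.finrank_eq, Module.finrank_fintype_fun_eq_card, card_Idx]

lemma resR (r : R) : ∃ a : ℚ, r - algebraMap ℚ R a ∈ IsLocalRing.maximalIdeal R := by
  obtain ⟨f, rfl⟩ := Ideal.Quotient.mk_surjective r
  obtain ⟨a, ha⟩ := St.res_span_X (k := ℚ) f
  refine ⟨a, ?_⟩
  rw [max_eq]
  exact Ideal.mem_map_of_mem (Ideal.Quotient.mk J) ha

lemma length_quot (n : ℕ) :
    Module.length R (R ⧸ IsLocalRing.maximalIdeal R ^ (n + 1)) = (((n + 2).choose 2 + n : ℕ) : ℕ∞) := by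
  obtain ⟨h1, h2⟩ := finrank_quot n
  rw [St.length_eq_finrank (k := ℚ) resR, h2]

end Pool.Agent.R829.NH
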