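import Mathlib

set_option autoImplicit false

namespace Pool.Agent.R829.St

open Finset

/-- The monomial with exponent `u` in the elements `y i`. -/
noncomputable def mon {n : ℕ} {R : Type*} [CommRing R] (y : Fin n → R) (u : Fin n → ℕ) : R :=
  ∏ i, y i ^ u i

section
variable {n : ℕ} {R : Type*} [CommRing R]

lemma mon_zero (y : Fin n → R) : mon y 0 = 1 := by simp [mon]

lemma mon_add (y : Fin n → R) (u v : Fin n → ℕ) : mon y (u + v) = mon y u * mon y v := by
  simp [mon, pow_add, Finset.prod_mul_distrib]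

lemma mon_single (y : Fin n → R) (i : Fin n) : mon y (Pi.single i 1) = y i := by
  unfold mon
  rw [Finset.prod_eq_single i]
  · simp
  · intro j _ hj
    simp [Pi.single_eq_of_ne hj]
  · simp

lemma mon_map {S : Type*} [CommRing S] (f : R →+* S) (y : Fin n → R) (u : Fin n → ℕ) :
    f (mon y u) = mon (fun i => f (y i)) u := by
  simp [mon]

lemma mon_mem_pow {J : Ideal R} {y : Fin n → R} (hy : ∀ i, y i ∈ J) (u : Fin n → ℕ) :
    mon y u ∈ J ^ (∑ i, u i) := by
  unfold mon
  rw [← Finset.prod_pow_eq_pow_sum]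
  exact Ideal.prod_mem_prod (fun i _ => Ideal.pow_mem_pow (hy i) _)

variable {Γ : Type*} [AddCommMonoid Γ] [LinearOrder Γ] [IsOrderedCancelAddMonoid Γ]

/-- Ideal generated by the monomials strictly above `u`. -/
def hi (ord : (Fin n → ℕ) →+ Γ) (y : Fin n → R) (u : Fin n → ℕ) : Ideal R :=
  Ideal.span (mon y '' {v | ord u < ord v})

omit [IsOrderedCancelAddMonoid Γ] in
lemma mon_mem_hi (ord : (Fin n → ℕ) →+ Γ) (y : Fin n → R) {u v : Fin n → ℕ}
    (h : ord u < ord v) : mon y v ∈ hi ord y u :=
  Ideal.subset_span ⟨v, h, rfl⟩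

omit [IsOrderedCancelAddMonoid Γ] in
lemma hi_le_iff (ord : (Fin n → ℕ) →+ Γ) (y : Fin n → R) (u : Fin n → ℕ) (J : Ideal R) :
    hi ord y u ≤ J ↔ ∀ v, ord u < ord v → mon y v ∈ J := by
  unfold hi
  rw [Ideal.span_le]
  constructor
  · intro h v hv
    exact h ⟨v, hv, rfl⟩
  · rintro h _ ⟨v, hv, rfl⟩
    exact h v hv

lemma hi_mul_hi (ord : (Fin n → ℕ) →+ Γ) (y : Fin n → R) {u v : Fin n → ℕ} {f g : R}
    (hf : f ∈ hi ord y u) (hg : g ∈ hi ord y v) : f * g ∈ hi ord y (u + v) := by
  have h : hi ord y u * hi ord y v ≤ hi ord y (u + v) := by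
    unfold hi
    rw [Ideal.span_mul_span', Ideal.span_le]
    rintro _ ⟨_, ⟨a, ha, rfl⟩, _, ⟨b, hb, rfl⟩, rfl⟩
    refine Ideal.subset_span ⟨a + b, ?_, mon_add y a b⟩
    simp only [Set.mem_ofPred_eq, map_add] at *
    exact add_lt_add ha hb
  exact h (Ideal.mul_mem_mul hf hg)

lemma mon_mul_hi (ord : (Fin n → ℕ) →+ Γ) (y : Fin n → R) {u : Fin n → ℕ} (v : Fin n → ℕ)
    {g : R} (hg : g ∈ hi ord y u) : mon y v * g ∈ hi ord y (u + v) := by
  unfold hi at hg
  induction hg using Submodule.span_induction with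
  | mem x hx =>
    obtain ⟨a, ha, rfl⟩ := hx
    rw [← mon_add]
    apply mon_mem_hi
    simp only [Set.mem_ofPred_eq, map_add] at *
    rw [add_comm]
    gcongr
  | zero => simp
  | add x y _ _ hx hy => rw [mul_add]; exact Ideal.add_mem _ hx hy
  | smul a x _ hx =>
    rw [smul_eq_mul, mul_left_comm]
    exact Ideal.mul_mem_left _ _ hx

/-- `t`-fold powers of a set of exponents (an up-closed version). -/
def Mp (M : Set (Fin n → ℕ)) : ℕ → Set (Fin n → ℕ)
  | 0 => Set.univ
  | t + 1 => {u | ∃ v ∈ Mp M t, ∃ w ∈ M, u = v + w}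

lemma mem_pow_of_Mp (ord : (Fin n → ℕ) →+ Γ) (y : Fin n → R) (I : Ideal R)
    (M : Set (Fin n → ℕ)) (hM : ∀ u ∈ M, mon y u ∈ I ⊔ hi ord y u) (t : ℕ) :
    ∀ u ∈ Mp M t, mon y u ∈ I ^ t ⊔ hi ord y u := by
  induction t with
  | zero =>
    intro u _
    simp
  | succ t ih =>
    rintro u ⟨v, hv, w, hw, rfl⟩
    obtain ⟨f, hf, h, hh, hfh⟩ := Submodule.mem_sup.mp (ih v hv)
    obtain ⟨f', hf', h', hh', hfh'⟩ := Submodule.mem_sup.mp (hM w hw)
    rw [mon_add]
    have e : mon y v * mon y w = f * f' + (mon y v * h' - h * h' + mon y w * h) := by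
      rw [← hfh, ← hfh']
      ring
    rw [e]
    apply Submodule.add_mem_sup
    · rw [pow_succ]
      exact Ideal.mul_mem_mul hf hf'
    · apply Ideal.add_mem
      · apply Ideal.sub_mem
        · rw [add_comm v w]
          exact mon_mul_hi ord y v hh'
        · exact hi_mul_hi ord y hh hh'
      · exact mon_mul_hi ord y w hh

lemma mul_mem_of_span {k : Type*} [Field k] [Algebra k R] {Z : Submodule k R} {S : Set R}
    (h : ∀ s ∈ S, ∀ r : R, r * s ∈ Z) : ∀ f ∈ Ideal.span S, ∀ r : R, r * f ∈ Z := by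
  intro f hf
  induction hf using Submodule.span_induction with
  | mem x hx => exact h x hx
  | zero => intro r; simp
  | add x y _ _ hx hy => intro r; rw [mul_add]; exact Z.add_mem (hx r) (hy r)
  | smul a x _ hx => intro r; rw [smul_eq_mul, ← mul_assoc]; exact hx _

/-- The spanning lemma. -/
lemma span_std {k : Type*} [Field k] [Algebra k R] (ord : (Fin n → ℕ) →+ Γ)
    (hpos : ∀ i, 0 < ord (Pi.single i 1))
    (y : Fin n → R) (J : Ideal R) (K : ℕ)
    (hK : Ideal.span (Set.range y) ^ K ≤ J)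
    (hres : ∀ f : R, ∃ a : k, f - algebraMap k R a ∈ Ideal.span (Set.range y))
    (G : Set (Fin n → ℕ)) (hG : ∀ u, u ∉ G → mon y u ∈ J ⊔ hi ord y u) :
    (J.restrictScalars k) ⊔ Submodule.span k (mon y '' G) = ⊤ := by
  classical
  set Z : Submodule k R := (J.restrictScalars k) ⊔ Submodule.span k (mon y '' G) with hZ
  have hJZ : ∀ f ∈ J, f ∈ Z := fun f hf => Submodule.mem_sup_left hf
  have hy : ∀ i, y i ∈ Ideal.span (Set.range y) := fun i => Ideal.subset_span ⟨i, rfl⟩
  -- main claim
  have key : ∀ u : Fin n → ℕ, ∀ r : R, r * mon y u ∈ Z := by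
    -- the finite set of small exponents
    let F : Finset (Fin n → ℕ) := (Fintype.piFinset (fun _ => Finset.range K))
    have hF : ∀ u, u ∉ F → ∀ r : R, r * mon y u ∈ Z := by
      intro u hu r
      apply hJZ
      apply J.mul_mem_left
      apply hK
      have h1 : K ≤ ∑ i, u i := by
        have : ∃ i, K ≤ u i := by
          by_contra hcon
          push Not at hcon
          apply hu
          simp [F, Fintype.mem_piFinset, hcon]
        obtain ⟨i, hi⟩ := this
        exact hi.trans (Finset.single_le_sum (fun _ _ => Nat.zero_le _) (Finset.mem_univ i))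
      exact Ideal.pow_le_pow_right h1 (mon_mem_pow hy u)
    by_contra hcon
    push Not at hcon
    obtain ⟨u0, r0, h0⟩ := hcon
    let B : Finset (Fin n → ℕ) := F.filter (fun u => ∃ r : R, r * mon y u ∉ Z)
    have hB : B.Nonempty := by
      refine ⟨u0, ?_⟩
      simp only [B, Finset.mem_filter]
      refine ⟨?_, r0, h0⟩
      by_contra h
      exact h0 (hF u0 h r0)
    obtain ⟨u, huB, hmax⟩ := B.exists_max_image ord hB
    have hgt : ∀ v, ord u < ord v → ∀ r : R, r * mon y v ∈ Z := by
      intro v hv r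
      by_contra hr
      have : v ∈ B := by
        simp only [B, Finset.mem_filter]
        refine ⟨?_, r, hr⟩
        by_contra h
        exact hr (hF v h r)
      exact absurd (hmax v this) (not_le.mpr hv)
    have hhi : ∀ f ∈ hi ord y u, f ∈ Z := by
      intro f hf
      have h1 : ∀ s ∈ mon y '' {v | ord u < ord v}, ∀ r : R, r * s ∈ Z := by
        rintro _ ⟨v, hv, rfl⟩ r
        exact hgt v hv r
      have := mul_mem_of_span h1 f hf 1
      rwa [one_mul] at this
    have hu1 : mon y u ∈ Z := by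
      by_cases h : u ∈ G
      · exact Submodule.mem_sup_right (Submodule.subset_span ⟨u, h, rfl⟩)
      · obtain ⟨f, hf, g, hg, hfg⟩ := Submodule.mem_sup.mp (hG u h)
        rw [← hfg]
        exact Z.add_mem (hJZ f hf) (hhi g hg)
    simp only [B, Finset.mem_filter] at huB
    obtain ⟨r, hr⟩ := huB.2
    apply hr
    obtain ⟨a, ha⟩ := hres r
    have e : r * mon y u = a • mon y u + (r - algebraMap k R a) * mon y u := by
      rw [Algebra.smul_def]; ring
    rw [e]
    apply Z.add_mem (Z.smul_mem a hu1)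
    have h2 : ∀ s ∈ Set.range y, ∀ r : R, r * s ∈ {f : R | f * mon y u ∈ Z} := by
      rintro _ ⟨i, rfl⟩ r
      have h3 := hgt (u + Pi.single i 1) (by rw [map_add]; exact lt_add_of_pos_right _ (hpos i)) r
      rw [mon_add, mon_single] at h3
      show r * y i * mon y u ∈ Z
      rw [mul_assoc, mul_comm (y i)]
      exact h3
    let Z' : Submodule k R := Z.comap (LinearMap.mulRight k (mon y u))
    have h4 : ∀ s ∈ Set.range y, ∀ r : R, r * s ∈ Z' := fun s hs r => h2 s hs r
    have h5 := mul_mem_of_span h4 _ ha 1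
    rw [one_mul] at h5
    exact h5
  rw [eq_top_iff]
  intro f _
  have := key 0 f
  rwa [mon_zero, mul_one] at this

/-- Dimension bound from the spanning lemma. -/
lemma finrank_quot_le {k : Type*} [Field k] [Algebra k R] (ord : (Fin n → ℕ) →+ Γ)
    (hpos : ∀ i, 0 < ord (Pi.single i 1))
    (y : Fin n → R) (J : Ideal R) (K : ℕ)
    (hK : Ideal.span (Set.range y) ^ K ≤ J)
    (hres : ∀ f : R, ∃ a : k, f - algebraMap k R a ∈ Ideal.span (Set.range y))
    (G : Set (Fin n → ℕ)) (hGf : G.Finite) (hG : ∀ u, u ∉ G → mon y u ∈ J ⊔ hi ord y u) :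
    Module.Finite k (R ⧸ J) ∧ Module.finrank k (R ⧸ J) ≤ G.ncard := by
  classical
  have h := span_std ord hpos y J K hK hres G hG
  let q : R →ₗ[k] (R ⧸ J) := (Ideal.Quotient.mkₐ k J).toLinearMap
  have hq : Function.Surjective q := Ideal.Quotient.mkₐ_surjective k J
  have h1 : Submodule.span k (q '' (mon y '' G)) = ⊤ := by
    rw [← Submodule.map_span, eq_top_iff]
    have h2 : Submodule.map q ⊤ = ⊤ := by rw [Submodule.map_top, LinearMap.range_eq_top.mpr hq]
    rw [← h2, ← h, Submodule.map_sup]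
    apply sup_le _ le_rfl
    rintro _ ⟨f, hf, rfl⟩
    have : q f = 0 := Ideal.Quotient.eq_zero_iff_mem.mpr hf
    rw [this]
    exact Submodule.zero_mem _
  have hfin : (q '' (mon y '' G)).Finite := (hGf.image _).image _
  constructor
  · exact ⟨⟨hfin.toFinset, by simpa using h1⟩⟩
  · have h3 := finrank_span_finset_le_card (R := k) hfin.toFinset
    rw [Set.Finite.coe_toFinset, Set.finrank, h1, finrank_top] at h3
    refine h3.trans ?_
    rw [← Set.ncard_eq_toFinset_card _ hfin]
    exact (Set.ncard_image_le (hGf.image _)).trans (Set.ncard_image_le hGf)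

/-- Move all of the exponent of `b` to `a`. -/
def shift (a b : Fin n) (j : ℕ) (u : Fin n → ℕ) : Fin n → ℕ :=
  fun i => if i = b then u b - j else if i = a then u a + j else u i

lemma shift_add_single {a b : Fin n} (hab : a ≠ b) {j : ℕ} {u : Fin n → ℕ} (hj : j ≤ u b) :
    shift a b j u + Pi.single b j = u + Pi.single a j := by
  funext i
  simp only [shift, Pi.add_apply, Pi.single_apply]
  by_cases h1 : i = b
  · subst h1
    simp [Ne.symm hab, hj]
  · by_cases h2 : i = a
    · subst h2
      simp [h1]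
    · simp [h1, h2]

omit [LinearOrder Γ] [IsOrderedCancelAddMonoid Γ] in
lemma ord_single (ord : (Fin n → ℕ) →+ Γ) (a : Fin n) (j : ℕ) :
    ord (Pi.single a j) = j • ord (Pi.single a 1) := by
  rw [← map_nsmul]
  congr 1
  funext i
  simp [Pi.single_apply]

lemma ord_shift_lt (ord : (Fin n → ℕ) →+ Γ) {a b : Fin n} (hab : a ≠ b)
    (hlt : ord (Pi.single a 1) < ord (Pi.single b 1)) {u v : Fin n → ℕ} {j : ℕ}
    (huv : ord u ≤ ord v) (hj : j ≤ u b) (hjv : j ≤ v b) (hne : ord u < ord v ∨ j < u b) :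
    ord (shift a b (u b) u) < ord (shift a b j v) := by
  have e1 := congrArg ord (shift_add_single hab (le_refl (u b)))
  have e2 := congrArg ord (shift_add_single hab hjv)
  simp only [map_add] at e1 e2
  rw [ord_single ord a, ord_single ord b] at e1 e2
  set α := ord (Pi.single a 1)
  set β := ord (Pi.single b 1)
  have h1 : (u b - j) • α ≤ (u b - j) • β := nsmul_le_nsmul_right hlt.le _
  have h2 : j < u b → (u b - j) • α < (u b - j) • β := fun h =>
    nsmul_lt_nsmul_right (by omega) hlt
  -- compare `shift u + u_b β + j β` with `shift v + j β + u_b β`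
  have h3 : ord (shift a b (u b) u) + (u b) • β + j • β
      < ord (shift a b j v) + j • β + (u b) • β := by
    rw [e1, e2]
    obtain ⟨m, hm⟩ := Nat.exists_eq_add_of_le hj
    have h4 : u b - j = m := by omega
    rw [h4] at h1 h2
    rw [hm, add_nsmul, add_nsmul]
    rcases hne with hne | hne
    · calc ord u + (j • α + m • α) + j • β ≤ ord u + (j • α + m • β) + j • β := by gcongr
        _ < ord v + (j • α + m • β) + j • β := by gcongr
        _ = ord v + j • α + (j • β + m • β) := by ac_rfl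
    · calc ord u + (j • α + m • α) + j • β < ord u + (j • α + m • β) + j • β := by
            gcongr
            omega
        _ ≤ ord v + (j • α + m • β) + j • β := by gcongr
        _ = ord v + j • α + (j • β + m • β) := by ac_rfl
  have h5 : ord (shift a b (u b) u) + ((u b) • β + j • β)
      < ord (shift a b j v) + ((u b) • β + j • β) := by
    calc _ = ord (shift a b (u b) u) + (u b) • β + j • β := by ac_rfl
      _ < _ := h3
      _ = _ := by ac_rfl
  exact lt_of_add_lt_add_right h5

/-- Polynomials over `B` whose low coefficients lie in an ideal. -/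
def lowIdeal (B : Type*) [CommRing B] (𝔍 : Ideal B) (m : ℕ) : Ideal (Polynomial B) where
  carrier := {p | ∀ j ≤ m, p.coeff j ∈ 𝔍}
  add_mem' := by
    intro p q hp hq j hj
    rw [Polynomial.coeff_add]
    exact 𝔍.add_mem (hp j hj) (hq j hj)
  zero_mem' := by
    intro j _
    simp
  smul_mem' := by
    intro c p hp j hj
    rw [smul_eq_mul, Polynomial.coeff_mul]
    refine 𝔍.sum_mem ?_
    rintro ⟨a, b⟩ hab
    rw [Finset.HasAntidiagonal.mem_antidiagonal] at hab
    exact 𝔍.mul_mem_left _ (hp b (by simp only at hab ⊢; omega))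

lemma mem_lowIdeal {B : Type*} [CommRing B] {𝔍 : Ideal B} {m : ℕ} {p : Polynomial B} :
    p ∈ lowIdeal B 𝔍 m ↔ ∀ j ≤ m, p.coeff j ∈ 𝔍 := Iff.rfl

lemma monomial_mem_lowIdeal {B : Type*} [CommRing B] {𝔍 : Ideal B} {m : ℕ} {j : ℕ} {c : B}
    (h : j ≤ m → c ∈ 𝔍) : Polynomial.X ^ j * Polynomial.C c ∈ lowIdeal B 𝔍 m := by
  intro i hi
  rw [mul_comm, Polynomial.coeff_C_mul, Polynomial.coeff_X_pow]
  split_ifs with hij
  · subst hij
    simpa using h hi
  · simp

/-- The image of a monomial under the substitution `Y_b ↦ Y_b + s Y_a`. -/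
lemma map_mon_eq {B : Type*} [CommRing B] (Y : Fin n → B) (Φ : B →+* Polynomial B)
    {a b : Fin n} (hab : a ≠ b)
    (hb : Φ (Y b) = Polynomial.C (Y b) + Polynomial.X * Polynomial.C (Y a))
    (ho : ∀ i, i ≠ b → Φ (Y i) = Polynomial.C (Y i)) (u : Fin n → ℕ) :
    Φ (mon Y u) = ∑ j ∈ Finset.range (u b + 1),
      Polynomial.X ^ j * Polynomial.C (mon Y (shift a b j u) * ((u b).choose j : B)) := by
  classical
  have h1 : ∀ j, j ≤ u b → mon Y (shift a b j u)
      = Y a ^ j * Y b ^ (u b - j) * ∏ i ∈ Finset.univ.erase b, Y i ^ u i := by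
    intro j hj
    have e := congrArg (mon Y) (shift_add_single hab hj)
    unfold mon
    rw [← Finset.mul_prod_erase Finset.univ _ (Finset.mem_univ b)]
    have h2 : Y b ^ (shift a b j u b) = Y b ^ (u b - j) := by simp [shift]
    rw [h2]
    have hmem : a ∈ Finset.univ.erase b := by simp [hab]
    rw [← Finset.mul_prod_erase (Finset.univ.erase b) _ hmem,
      ← Finset.mul_prod_erase (Finset.univ.erase b) (fun i => Y i ^ u i) hmem]
    have h3 : Y a ^ (shift a b j u a) = Y a ^ (u a) * Y a ^ j := by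
      simp [shift, hab, pow_add]
    rw [h3]
    have h4 : ∏ i ∈ (Finset.univ.erase b).erase a, Y i ^ (shift a b j u i)
        = ∏ i ∈ (Finset.univ.erase b).erase a, Y i ^ u i := by
      apply Finset.prod_congr rfl
      intro i hi
      simp only [Finset.mem_erase, Finset.mem_univ, and_true] at hi
      simp [shift, hi.1, hi.2]
    rw [h4]
    ring
  have h5 : Φ (mon Y u) = (Polynomial.C (Y b) + Polynomial.X * Polynomial.C (Y a)) ^ (u b) *
      Polynomial.C (∏ i ∈ Finset.univ.erase b, Y i ^ u i) := by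
    rw [mon_map]
    unfold mon
    rw [← Finset.mul_prod_erase Finset.univ _ (Finset.mem_univ b)]
    simp only [hb]
    congr 1
    rw [map_prod]
    apply Finset.prod_congr rfl
    intro i hi
    simp only [Finset.mem_erase, Finset.mem_univ, and_true] at hi
    rw [ho i hi, map_pow]
  rw [h5, add_comm (Polynomial.C (Y b)), add_pow, Finset.sum_mul]
  apply Finset.sum_congr rfl
  intro j hj
  rw [Finset.mem_range] at hj
  rw [h1 j (by omega)]
  simp only [map_mul, map_pow, map_natCast, mul_pow]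
  ring

/-- The Borel property of generic initial exponents, in abstract form. -/
lemma borel_abstract {B : Type*} [CommRing B] (ord : (Fin n → ℕ) →+ Γ)
    (Y : Fin n → B) (Φ : B →+* Polynomial B)
    {a b : Fin n} (hab : a ≠ b) (hlt : ord (Pi.single a 1) < ord (Pi.single b 1))
    (hb : Φ (Y b) = Polynomial.C (Y b) + Polynomial.X * Polynomial.C (Y a))
    (ho : ∀ i, i ≠ b → Φ (Y i) = Polynomial.C (Y i))
    (P : B) (hP : (Φ P).coeff 0 = P) (u : Fin n → ℕ)
    (hu : P * mon Y u ∈ hi ord Y u) :
    P * mon Y (shift a b (u b) u) ∈ hi ord Y (shift a b (u b) u) := by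
  classical
  set 𝔍 := hi ord Y (shift a b (u b) u) with h𝔍
  set m := u b with hm
  -- image of the higher monomials
  have h1 : ∀ v, ord u < ord v → Φ (mon Y v) ∈ lowIdeal B 𝔍 m := by
    intro v hv
    rw [map_mon_eq Y Φ hab hb ho]
    refine Ideal.sum_mem _ ?_
    intro j hj
    rw [Finset.mem_range] at hj
    apply monomial_mem_lowIdeal
    intro hjm
    apply Ideal.mul_mem_right
    exact mon_mem_hi ord Y (ord_shift_lt ord hab hlt hv.le hjm (by omega) (Or.inl hv))
  have h2 : hi ord Y u ≤ (lowIdeal B 𝔍 m).comap Φ := by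
    rw [hi_le_iff]
    intro v hv
    exact h1 v hv
  have h3 : Φ P * Φ (mon Y u) ∈ lowIdeal B 𝔍 m := by
    rw [← map_mul]
    exact h2 hu
  have h4 : Φ (mon Y u) - Polynomial.X ^ m * Polynomial.C (mon Y (shift a b m u))
      ∈ lowIdeal B 𝔍 m := by
    rw [map_mon_eq Y Φ hab hb ho, Finset.sum_range_succ, ← hm, Nat.choose_self, Nat.cast_one,
      mul_one, add_sub_cancel_right]
    refine Ideal.sum_mem _ ?_
    intro j hj
    rw [Finset.mem_range] at hj
    apply monomial_mem_lowIdeal
    intro hjm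
    apply Ideal.mul_mem_right
    exact mon_mem_hi ord Y (ord_shift_lt ord hab hlt le_rfl hjm hjm (Or.inr hj))
  have h5 : Φ P * (Polynomial.X ^ m * Polynomial.C (mon Y (shift a b m u)))
      ∈ lowIdeal B 𝔍 m := by
    have : Φ P * (Polynomial.X ^ m * Polynomial.C (mon Y (shift a b m u)))
        = Φ P * Φ (mon Y u)
          - Φ P * (Φ (mon Y u) - Polynomial.X ^ m * Polynomial.C (mon Y (shift a b m u))) := by
      ring
    rw [this]
    exact Ideal.sub_mem _ h3 (Ideal.mul_mem_left _ _ h4)
  have h6 := h5 m le_rfl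
  have h7 : (Φ P * (Polynomial.X ^ m * Polynomial.C (mon Y (shift a b m u)))).coeff m
      = P * mon Y (shift a b m u) := by
    have : Φ P * (Polynomial.X ^ m * Polynomial.C (mon Y (shift a b m u)))
        = (Φ P * Polynomial.C (mon Y (shift a b m u))) * Polynomial.X ^ m := by ring
    rw [this, Polynomial.coeff_mul_X_pow', if_pos le_rfl, Nat.sub_self, Polynomial.coeff_mul_C, hP]
  rw [h7] at h6
  exact h6

end

end Pool.Agent.R829.St
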