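import Pool.Agent.R829.StGen

set_option autoImplicit false

namespace Pool.Agent.R829.St

open Finset

section
variable {n : ℕ}

lemma exists_le_sum (u : Fin n → ℕ) : ∀ r, r ≤ ∑ i, u i → ∃ w : Fin n → ℕ, w ≤ u ∧ ∑ i, w i = r := by
  intro r
  induction r with
  | zero => intro _; exact ⟨0, fun i => Nat.zero_le _, by simp⟩
  | succ r ih =>
    intro h
    obtain ⟨w, hw, hs⟩ := ih (by omega)
    have : ∃ i, w i < u i := by
      by_contra hcon
      push Not at hcon
      have : ∑ i, u i ≤ ∑ i, w i := Finset.sum_le_sum (fun i _ => hcon i)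
      omega
    obtain ⟨i, hi⟩ := this
    refine ⟨w + Pi.single i 1, ?_, ?_⟩
    · intro j
      by_cases hj : j = i
      · subst hj; simp; omega
      · simp [hj, hw j]
    · simp [Finset.sum_add_distrib, hs]

lemma Mp_of_large {M : Set (Fin n → ℕ)} {r : ℕ} (hM : ∀ u : Fin n → ℕ, r ≤ ∑ i, u i → u ∈ M) :
    ∀ t, ∀ u : Fin n → ℕ, r * t ≤ ∑ i, u i → u ∈ Mp M t := by
  intro t
  induction t with
  | zero => intro u _; exact Set.mem_univ _
  | succ t ih =>
    intro u hu
    obtain ⟨w, hw, hs⟩ := exists_le_sum u r (by nlinarith)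
    refine ⟨u - w, ih _ ?_, w, hM w hs.ge, ?_⟩
    · have h1 : ∑ i, (u - w) i + ∑ i, w i = ∑ i, u i := by
        rw [← Finset.sum_add_distrib]
        apply Finset.sum_congr rfl
        intro i _
        have h0 : w i ≤ u i := hw i
        simp only [Pi.sub_apply]
        omega
      have h2 : r * (t + 1) = r * t + r := by ring
      omega
    · funext i
      have h0 : w i ≤ u i := hw i
      simp only [Pi.add_apply, Pi.sub_apply]
      omega

lemma finite_compl_Mp {M : Set (Fin n → ℕ)} {r : ℕ}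
    (hM : ∀ u : Fin n → ℕ, r ≤ ∑ i, u i → u ∈ M) (t : ℕ) : {u | u ∉ Mp M t}.Finite := by
  apply (Set.finite_Iic (fun _ : Fin n => r * t)).subset
  intro u hu i
  by_contra hcon
  apply hu
  apply Mp_of_large hM
  have : u i ≤ ∑ i, u i := Finset.single_le_sum (fun _ _ => Nat.zero_le _) (Finset.mem_univ i)
  simp only at hcon
  omega

end

section
variable {k : Type*} [Field k] {d : ℕ} {R : Type*} [CommRing R] [Algebra k R]
variable {Γ : Type*} [AddCommMonoid Γ] [LinearOrder Γ] [IsOrderedCancelAddMonoid Γ]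

omit [IsOrderedCancelAddMonoid Γ] in
lemma lift_hi (ord : (Fin (d + 1) → ℕ) →+ Γ) (I : Ideal R) (y : Fin (d + 1) → R)
    (u : Fin (d + 1) → ℕ) (f : R)
    (h : Ideal.Quotient.mk I f ∈ hi ord (fun i => Ideal.Quotient.mk I (y i)) u) :
    f ∈ I ⊔ hi ord y u := by
  have h1 : hi ord (fun i => Ideal.Quotient.mk I (y i)) u
      = (hi ord y u).map (Ideal.Quotient.mk I) := by
    unfold hi
    rw [Ideal.map_span, ← Set.image_comp]
    congr 2
    funext v
    exact (mon_map _ y v).symm
  rw [h1, Ideal.mem_quotient_iff_mem_sup, sup_comm] at h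
  exact h

lemma Ynum_quot (c : Fin d → Fin (d + 1) → k) (I : Ideal R) (x : Fin (d + 1) → R) :
    Ynum c (fun i => Ideal.Quotient.mk I (x i)) = fun i => Ideal.Quotient.mk I (Ynum c x i) := by
  funext i
  unfold Ynum
  have : Ideal.Quotient.mk I (∑ t, Cnum c i t • x t)
      = Ideal.Quotient.mkₐ k I (∑ t, Cnum c i t • x t) := rfl
  rw [this, map_sum]
  apply Finset.sum_congr rfl
  intro t _
  rw [map_smul]
  rfl

/-- The determinant polynomial. -/
noncomputable def Pdet (k : Type*) [Field k] (d : ℕ) : MvPolynomial (Fin d × Fin (d + 1)) k :=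
  (Matrix.of (Cgen k d)).det

lemma eval_Pdet (c : Fin d → Fin (d + 1) → k) :
    MvPolynomial.eval (fun p => c p.1 p.2) (Pdet k d) = (Matrix.of (Cnum c)).det := by
  unfold Pdet
  rw [RingHom.map_det]
  congr 1
  ext i t
  simp only [RingHom.mapMatrix_apply, Matrix.map_apply, Matrix.of_apply]
  exact eval_Cgen c i t

lemma Pdet_ne_zero : Pdet k d ≠ 0 := by
  intro h
  let c0 : Fin d → Fin (d + 1) → k := fun j t => if t = j.castSucc then 1 else 0
  have h1 := eval_Pdet c0
  rw [h, map_zero] at h1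
  have h2 : Matrix.of (Cnum c0) = (1 : Matrix (Fin (d + 1)) (Fin (d + 1)) k).submatrix
      (Fin.revPerm : Equiv.Perm (Fin (d + 1))) id := by
    ext i t
    rw [Matrix.of_apply, Matrix.submatrix_apply, Matrix.one_apply]
    refine Fin.cases ?_ (fun j => ?_) i
    · rw [Cnum_zero]
      simp [Fin.rev_zero, eq_comm]
    · rw [Cnum_succ]
      simp [c0, Fin.rev_succ, eq_comm]
  rw [h2, Matrix.det_permute, Matrix.det_one, mul_one] at h1
  rcases Int.units_eq_one_or (Equiv.Perm.sign (Fin.revPerm : Equiv.Perm (Fin (d + 1)))) with h3 | h3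
  · rw [h3] at h1; simp at h1
  · rw [h3] at h1; simp at h1

lemma span_Ynum (c : Fin d → Fin (d + 1) → k) (x : Fin (d + 1) → R)
    (hc : (Matrix.of (Cnum c)).det ≠ 0) :
    Ideal.span (Set.range (Ynum c x)) = Ideal.span (Set.range x) := by
  apply le_antisymm
  · rw [Ideal.span_le]
    rintro _ ⟨i, rfl⟩
    unfold Ynum
    refine Ideal.sum_mem _ ?_
    intro t _
    rw [Algebra.smul_def]
    exact Ideal.mul_mem_left _ _ (Ideal.subset_span ⟨t, rfl⟩)
  · rw [Ideal.span_le]
    rintro _ ⟨s, rfl⟩
    have h1 : x s = ∑ i, (Matrix.of (Cnum c))⁻¹ s i • Ynum c x i := by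
      unfold Ynum
      simp only [Finset.smul_sum, smul_smul]
      rw [Finset.sum_comm]
      simp only [← Finset.sum_smul]
      have h2 : ∀ t, ∑ i, (Matrix.of (Cnum c))⁻¹ s i * Cnum c i t
          = (1 : Matrix (Fin (d + 1)) (Fin (d + 1)) k) s t := by
        intro t
        rw [← Matrix.nonsing_inv_mul (Matrix.of (Cnum c)) (isUnit_iff_ne_zero.mpr hc),
          Matrix.mul_apply]
        rfl
      simp only [h2, Matrix.one_apply, ite_smul, one_smul, zero_smul]
      simp
    rw [h1]
    refine Ideal.sum_mem _ ?_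
    intro i _
    rw [Algebra.smul_def]
    exact Ideal.mul_mem_left _ _ (Ideal.subset_span ⟨i, rfl⟩)

theorem alg_main (x : Fin (d + 1) → R) (I : Ideal R) (r : ℕ)
    (hr : Ideal.span (Set.range x) ^ r ≤ I)
    (hres : ∀ f : R, ∃ a : k, f - algebraMap k R a ∈ Ideal.span (Set.range x))
    (ord : (Fin (d + 1) → ℕ) →+ Γ) (hinj : Function.Injective ord)
    (hpos : ∀ i, 0 < ord (Pi.single i 1))
    (hlt : ∀ a b : Fin (d + 1), a < b → ord (Pi.single a 1) < ord (Pi.single b 1)) :
    ∃ M : Set (Fin (d + 1) → ℕ), ∃ P : MvPolynomial (Fin d × Fin (d + 1)) k, P ≠ 0 ∧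
      (∀ u ∈ M, ∀ w, u + w ∈ M) ∧ (∀ u : Fin (d + 1) → ℕ, r ≤ ∑ i, u i → u ∈ M) ∧
      (∀ u ∈ M, ∀ a b : Fin (d + 1), a < b → shift a b (u b) u ∈ M) ∧
      Module.Finite k (R ⧸ I) ∧ (Mᶜ).ncard ≤ Module.finrank k (R ⧸ I) ∧
      ∀ c : Fin d → Fin (d + 1) → k, MvPolynomial.eval (fun p => c p.1 p.2) P ≠ 0 →
        ∀ i : ℕ, i ≤ d → ∀ t : ℕ,
          Module.Finite k (R ⧸ (I ^ t ⊔ Ideal.span {f : R |
                    ∃ j : Fin d, j.val < i ∧ f = ∑ t : Fin (d+1), c j t • x t})) ∧
          Module.finrank k (R ⧸ (I ^ t ⊔ Ideal.span {f : R |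
                    ∃ j : Fin d, j.val < i ∧ f = ∑ t : Fin (d+1), c j t • x t}))
            ≤ {u : Fin (d + 1) → ℕ | (∀ s : Fin (d + 1), d + 1 - i ≤ s.val → u s = 0) ∧
                u ∉ Mp M t}.ncard := by
  classical
  set A := R ⧸ I with hA
  let xb : Fin (d + 1) → A := fun i => Ideal.Quotient.mk I (x i)
  let M : Set (Fin (d + 1) → ℕ) := Mgen k ord xb
  have hxI : ∀ u : Fin (d + 1) → ℕ, r ≤ ∑ i, u i → mon x u ∈ I := by
    intro u hu
    exact hr (Ideal.pow_le_pow_right hu
      (mon_mem_pow (J := Ideal.span (Set.range x)) (fun i => Ideal.subset_span ⟨i, rfl⟩) u))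
  -- finiteness of A
  have hfinA : Module.Finite k A := by
    have hfin : {u : Fin (d + 1) → ℕ | ∑ i, u i < r}.Finite := by
      apply (Set.finite_Iic (fun _ : Fin (d + 1) => r)).subset
      intro u hu i
      have : u i ≤ ∑ i, u i := Finset.single_le_sum (fun _ _ => Nat.zero_le _) (Finset.mem_univ i)
      simp only [Set.mem_ofPred_eq] at hu
      show u i ≤ r
      omega
    refine (finrank_quot_le (k := k) ord hpos x I r hr hres _ hfin ?_).1
    intro u hu
    simp only [Set.mem_ofPred_eq, not_lt] at hu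
    exact Ideal.mem_sup_left (hxI u hu)
  have hpow : Ideal.span (Set.range xb) ^ r = ⊥ := by
    have h1 : Ideal.span (Set.range xb) = (Ideal.span (Set.range x)).map (Ideal.Quotient.mk I) := by
      rw [Ideal.map_span, ← Set.range_comp]
      rfl
    rw [h1, ← Ideal.map_pow, Ideal.map_eq_bot_iff_le_ker, Ideal.mk_ker]
    exact hr
  have hlarge : ∀ u : Fin (d + 1) → ℕ, r ≤ ∑ i, u i → u ∈ M := fun u hu =>
    Mgen_large ord xb r hpow u hu
  have hadd : ∀ u ∈ M, ∀ w, u + w ∈ M := fun u hu w => Mgen_add ord xb hu w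
  -- choose polynomials
  have hch : ∀ u : Fin (d + 1) → ℕ, ∃ P : MvPolynomial (Fin d × Fin (d + 1)) k, P ≠ 0 ∧
      (u ∈ M → ∀ c : Fin d → Fin (d + 1) → k, MvPolynomial.eval (fun p => c p.1 p.2) P ≠ 0 →
        mon (Ynum c x) u ∈ I ⊔ hi ord (Ynum c x) u) := by
    intro u
    by_cases hu : u ∈ M
    · obtain ⟨P, hP, h⟩ := hu
      refine ⟨P, hP, fun _ c hc => ?_⟩
      apply lift_hi
      have h1 := spec ord xb c P hc u h
      rw [Ynum_quot] at h1
      rw [mon_map]
      exact h1
    · exact ⟨1, one_ne_zero, fun h => absurd h hu⟩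
  choose Pu hPu0 hPu using hch
  let F : Finset (Fin (d + 1) → ℕ) := Fintype.piFinset (fun _ => Finset.range r)
  refine ⟨M, Pdet k d * ∏ u ∈ F, Pu u, ?_, hadd, hlarge, ?_, hfinA, ?_, ?_⟩
  · apply mul_ne_zero Pdet_ne_zero
    rw [Finset.prod_ne_zero_iff]
    intro u _
    exact hPu0 u
  · intro u hu a b hab
    exact Mgen_borel ord hlt xb hu hab
  · have hfinC : (Mᶜ).Finite := by
      have := finite_compl_Mp hlarge 1
      apply this.subset
      intro u hu h1
      obtain ⟨v, _, w, hw, rfl⟩ := h1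
      apply hu
      have h2 := hadd w hw v
      rw [add_comm w v] at h2
      exact h2
    rw [Set.ncard_eq_toFinset_card _ hfinC]
    apply Mgen_card ord hinj xb
    intro u hu
    rw [Set.Finite.mem_toFinset] at hu
    exact hu
  · intro c hc i hid t
    rw [map_mul, map_prod] at hc
    have hdet : (Matrix.of (Cnum c)).det ≠ 0 := by
      rw [← eval_Pdet]; exact left_ne_zero_of_mul hc
    have hc2 : ∀ u ∈ F, MvPolynomial.eval (fun p => c p.1 p.2) (Pu u) ≠ 0 := by
      have := right_ne_zero_of_mul hc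
      rw [Finset.prod_ne_zero_iff] at this
      exact this
    set y := Ynum c x with hy
    have hspan : Ideal.span (Set.range y) = Ideal.span (Set.range x) := span_Ynum c x hdet
    have hM : ∀ u ∈ M, mon y u ∈ I ⊔ hi ord y u := by
      intro u hu
      by_cases huF : u ∈ F
      · exact hPu u hu c (hc2 u huF)
      · have h1 : r ≤ ∑ i, u i := by
          have : ∃ i, r ≤ u i := by
            by_contra hcon
            push Not at hcon
            apply huF
            simp [F, Fintype.mem_piFinset, hcon]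
          obtain ⟨i, hi'⟩ := this
          exact hi'.trans (Finset.single_le_sum (fun _ _ => Nat.zero_le _) (Finset.mem_univ i))
        apply Ideal.mem_sup_left
        apply hr
        rw [← hspan]
        exact Ideal.pow_le_pow_right h1
          (mon_mem_pow (J := Ideal.span (Set.range y)) (fun i => Ideal.subset_span ⟨i, rfl⟩) u)
    have hfinG : {u : Fin (d + 1) → ℕ | (∀ s : Fin (d + 1), d + 1 - i ≤ s.val → u s = 0) ∧
                u ∉ Mp M t}.Finite :=
      (finite_compl_Mp hlarge t).subset (fun u hu => hu.2)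
    refine finrank_quot_le (k := k) ord hpos y _ (r * t) ?_ ?_ _ hfinG ?_
    · rw [hspan, pow_mul]
      exact (Ideal.pow_right_mono hr t).trans le_sup_left
    · rw [hspan]; exact hres
    · intro u hu
      simp only [Set.mem_ofPred_eq, not_and_or, not_not] at hu
      rcases hu with hu | hu
      · push Not at hu
        obtain ⟨s, hs, hus⟩ := hu
        apply Ideal.mem_sup_left
        apply Ideal.mem_sup_right
        obtain ⟨j, rfl⟩ : ∃ j : Fin d, j.succ = s := by
          apply Fin.exists_succ_eq.mpr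
          intro h0
          rw [h0] at hs
          simp at hs
          omega
        have h1 : y j.succ ∈ Ideal.span {f : R |
                    ∃ j : Fin d, j.val < i ∧ f = ∑ t : Fin (d+1), c j t • x t} := by
          apply Ideal.subset_span
          refine ⟨Fin.rev j, ?_, ?_⟩
          · have := j.2
            rw [Fin.val_rev]
            simp only [Fin.val_succ] at hs
            omega
          · rfl
        have h2 : y j.succ ∣ mon y u := by
          unfold mon
          exact (dvd_pow_self _ hus).trans (Finset.dvd_prod_of_mem _ (Finset.mem_univ j.succ))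
        exact Ideal.mem_of_dvd _ h2 h1
      · have h3 := mem_pow_of_Mp ord y I M hM t u hu
        have h4 : I ^ t ⊔ hi ord y u ≤ (I ^ t ⊔ Ideal.span {f : R |
                    ∃ j : Fin d, j.val < i ∧ f = ∑ t : Fin (d+1), c j t • x t}) ⊔ hi ord y u :=
          sup_le_sup_right le_sup_left _
        exact h4 h3

end

end Pool.Agent.R829.St
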