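import Mathlib

set_option autoImplicit false

namespace Pool.Agent.R829.St

open Finset

section
variable {α : Type*} [Fintype α] [LinearOrder α] [OrderBot α]

/-- The weight of a sequence (order of its stabilizer). -/
def wt : (n : ℕ) → (Fin n → α) → ℕ
  | 0, _ => 1
  | n + 1, y => (1 + #{m : Fin n | y m.succ = y 0}) * wt n (Fin.tail y)

omit [Fintype α] [OrderBot α] in
lemma wt_cons (n : ℕ) (v : α) (y : Fin n → α) :
    wt (n + 1) (Fin.cons v y : Fin (n + 1) → α) = (1 + #{m : Fin n | y m = v}) * wt n y := by
  rw [wt]
  simp [Fin.tail_cons]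

omit [LinearOrder α] [OrderBot α] in
lemma sum_cons {n : ℕ} (f : (Fin (n + 1) → α) → ℕ) :
    ∑ y, f y = ∑ v : α, ∑ y : Fin n → α, f (Fin.cons v y) := by
  rw [← Fintype.sum_prod_type' (fun v (y : Fin n → α) => f (Fin.cons v y))]
  exact (Fintype.sum_equiv (Fin.consEquiv (fun _ => α)) _ _ (fun _ => rfl)).symm

omit [Fintype α] [LinearOrder α] [OrderBot α] in
lemma map_cons_ms {n : ℕ} (v : α) (y : Fin n → α) :
    (Finset.univ : Finset (Fin (n + 1))).val.map (Fin.cons v y : Fin (n + 1) → α)
      = v ::ₘ (Finset.univ : Finset (Fin n)).val.map y := by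
  rw [Fin.univ_val_map, Fin.univ_val_map, List.ofFn_cons]
  rfl

omit [Fintype α] [OrderBot α] in
lemma count_map {n : ℕ} (v : α) (y : Fin n → α) :
    Multiset.count v ((Finset.univ : Finset (Fin n)).val.map y) = #{m : Fin n | y m = v} := by
  rw [Multiset.count_map]
  simp only [Finset.card, Finset.filter_val]
  congr 1
  apply Multiset.filter_congr
  intro x _
  exact eq_comm

lemma wt_sum (n : ℕ) : ∀ μ : Multiset α, Multiset.card μ = n →
    ∑ y : Fin n → α, (if (Finset.univ : Finset (Fin n)).val.map y = μ then wt n y else 0)
      = n.factorial := by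
  induction n with
  | zero =>
    intro μ hμ
    rw [Multiset.card_eq_zero] at hμ
    subst hμ
    simp [wt]
  | succ n ih =>
    intro μ hμ
    rw [sum_cons]
    have h1 : ∀ v : α, ∑ y : Fin n → α,
        (if (Finset.univ : Finset (Fin (n + 1))).val.map (Fin.cons v y : Fin (n + 1) → α) = μ
          then wt (n + 1) (Fin.cons v y : Fin (n + 1) → α) else 0)
        = Multiset.count v μ * n.factorial := by
      intro v
      by_cases hv : v ∈ μ
      · have h2 : Multiset.card (μ.erase v) = n := by
          rw [Multiset.card_erase_of_mem hv, hμ]; rfl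
        rw [← ih _ h2, Finset.mul_sum]
        apply Finset.sum_congr rfl
        intro y _
        rw [map_cons_ms, wt_cons]
        by_cases h3 : (Finset.univ : Finset (Fin n)).val.map y = μ.erase v
        · rw [if_pos h3, if_pos (by rw [h3]; exact Multiset.cons_erase hv)]
          congr 1
          rw [← count_map v y, h3, Multiset.count_erase_self]
          have : 1 ≤ Multiset.count v μ := Multiset.one_le_count_iff_mem.mpr hv
          omega
        · rw [if_neg h3, if_neg, mul_zero]
          intro h4
          apply h3
          rw [← h4, Multiset.erase_cons_head]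
      · rw [Multiset.count_eq_zero_of_notMem hv, zero_mul]
        apply Finset.sum_eq_zero
        intro y _
        rw [map_cons_ms, if_neg]
        intro h4
        apply hv
        rw [← h4]
        exact Multiset.mem_cons_self _ _
    simp only [h1]
    rw [← Finset.sum_mul]
    have h5 : ∑ v : α, Multiset.count v μ = n + 1 := by
      rw [Multiset.sum_count_eq_card (fun a _ => Finset.mem_univ a), hμ]
    rw [h5, Nat.factorial_succ]

lemma sum_wt_symm (n : ℕ) (X : Finset (Fin n → α))
    (hsym : ∀ y ∈ X, ∀ σ : Equiv.Perm (Fin n), y ∘ σ ∈ X) :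
    ∑ y ∈ X, wt n y = n.factorial * #{y ∈ X | Monotone y} := by
  classical
  rw [← Finset.sum_fiberwise_of_maps_to (s := X) (t := X.filter (fun y => Monotone y))
    (g := fun y => y ∘ Tuple.sort y)]
  · rw [mul_comm, ← smul_eq_mul, ← Finset.sum_const]
    apply Finset.sum_congr rfl
    intro y0 hy0
    rw [Finset.mem_filter] at hy0
    rw [← wt_sum n ((Finset.univ : Finset (Fin n)).val.map y0) (by simp), Finset.sum_filter,
      ← Finset.sum_filter, ← Finset.sum_filter]
    apply Finset.sum_congr _ (fun _ _ => rfl)
    ext y
    simp only [Finset.mem_filter, Finset.mem_univ, true_and]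
    constructor
    · rintro ⟨_, h⟩
      rw [← h, ← Multiset.map_map]
      congr 1
      have := Finset.map_univ_equiv (Tuple.sort y)
      have h2 := congrArg Finset.val this
      rw [Finset.map_val] at h2
      exact h2.symm
    · intro h
      have hperm : (List.ofFn y).Perm (List.ofFn y0) := by
        rw [← Multiset.coe_eq_coe, ← Fin.univ_val_map, ← Fin.univ_val_map, h]
      have hs : y ∘ Tuple.sort y = y0 := by
        apply List.ofFn_injective
        exact (((Tuple.sort y).ofFn_comp_perm y).trans hperm).eq_of_pairwise'
          (Tuple.monotone_sort y).sortedLE_ofFn.pairwise hy0.2.sortedLE_ofFn.pairwise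
      refine ⟨?_, hs⟩
      have h3 : y = y0 ∘ (Tuple.sort y).symm := by
        rw [← hs]
        funext i
        simp
      rw [h3]
      exact hsym y0 hy0.1 _
  · intro y hy
    rw [Finset.mem_filter]
    exact ⟨hsym y hy _, Tuple.monotone_sort y⟩

/-- Extension of a sequence by its largest value. -/
def ext (j n : ℕ) (z : Fin j → α) : Fin n → α :=
  fun i => if h : i.val < j then z ⟨i.val, h⟩ else Finset.univ.sup z

omit [Fintype α] in
lemma sup_ext {j n : ℕ} (h : j ≤ n) (z : Fin j → α) : Finset.univ.sup (ext j n z) = Finset.univ.sup z := by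
  apply le_antisymm
  · apply Finset.sup_le
    intro i _
    unfold ext
    split_ifs with h
    · exact Finset.le_sup (f := z) (Finset.mem_univ _)
    · exact le_rfl
  · apply Finset.sup_le
    intro i _
    have h1 : z i = ext j n z ⟨i.val, lt_of_lt_of_le i.2 h⟩ := by
      unfold ext
      rw [dif_pos i.2]
    rw [h1]
    exact Finset.le_sup (f := ext j n z) (Finset.mem_univ _)

theorem main_ineq (n : ℕ) : ∀ X : Finset (Fin n → α),
    (∀ y ∈ X, ∀ σ : Equiv.Perm (Fin n), y ∘ σ ∈ X) → (∀ y ∈ X, ∀ y', y' ≤ y → y' ∈ X) →
    ∑ j ∈ Finset.range (n + 1), (ascPochhammer ℕ n).coeff j * #{z : Fin j → α | ext j n z ∈ X}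
      ≤ ∑ y ∈ X, wt n y := by
  classical
  induction n with
  | zero =>
    intro X _ _
    rw [Finset.sum_range_one]
    simp only [ascPochhammer_zero, Polynomial.coeff_one_zero, one_mul, wt, Finset.sum_const,
      smul_eq_mul, mul_one]
    apply Finset.card_le_card_of_injOn (fun z => ext 0 0 z)
    · intro z hz
      simp only [Finset.coe_filter, Finset.mem_univ, true_and] at hz
      exact hz
    · intro a _ b _ _
      exact Subsingleton.elim _ _
  | succ n ih =>
    intro X hsym hdown
    -- the slices
    let Xv : α → Finset (Fin n → α) := fun v => Finset.univ.filter (fun y => (Fin.cons v y : Fin (n + 1) → α) ∈ X)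
    let X' : Finset (Fin n → α) :=
      Finset.univ.filter (fun y => (Fin.cons (Finset.univ.sup y) y : Fin (n + 1) → α) ∈ X)
    have hsymcons : ∀ v : α, ∀ y : Fin n → α, (Fin.cons v y : Fin (n + 1) → α) ∈ X →
        ∀ σ : Equiv.Perm (Fin n), (Fin.cons v (y ∘ σ) : Fin (n + 1) → α) ∈ X := by
      intro v y hy σ
      have h1 := hsym _ hy (Equiv.Perm.decomposeFin.symm (0, σ))
      have h2 : (Fin.cons v y : Fin (n + 1) → α) ∘ (Equiv.Perm.decomposeFin.symm (0, σ))
          = Fin.cons v (y ∘ σ) := by
        funext i
        refine Fin.cases ?_ (fun m => ?_) i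
        · simp
        · simp
      rw [h2] at h1
      exact h1
    have hXv : ∀ v, ∑ j ∈ Finset.range (n + 1),
        (ascPochhammer ℕ n).coeff j * #{z : Fin j → α | ext j n z ∈ Xv v} ≤ ∑ y ∈ Xv v, wt n y := by
      intro v
      apply ih
      · intro y hy σ
        simp only [Xv, Finset.mem_filter, Finset.mem_univ, true_and] at hy ⊢
        exact hsymcons v y hy σ
      · intro y hy y' hy'
        simp only [Xv, Finset.mem_filter, Finset.mem_univ, true_and] at hy ⊢
        apply hdown _ hy
        intro i
        refine Fin.cases ?_ (fun m => ?_) i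
        · simp
        · simpa using hy' m
    have hX' : ∑ j ∈ Finset.range (n + 1),
        (ascPochhammer ℕ n).coeff j * #{z : Fin j → α | ext j n z ∈ X'} ≤ ∑ y ∈ X', wt n y := by
      apply ih
      · intro y hy σ
        simp only [X', Finset.mem_filter, Finset.mem_univ, true_and] at hy ⊢
        have h1 : Finset.univ.sup (y ∘ σ) = Finset.univ.sup y := by
          apply le_antisymm
          · apply Finset.sup_le
            intro i _
            exact Finset.le_sup (f := y) (Finset.mem_univ _)
          · apply Finset.sup_le
            intro i _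
            have : y i = (y ∘ σ) (σ.symm i) := by simp
            rw [this]
            exact Finset.le_sup (f := y ∘ σ) (Finset.mem_univ _)
        rw [h1]
        exact hsymcons _ y hy σ
      · intro y hy y' hy'
        simp only [X', Finset.mem_filter, Finset.mem_univ, true_and] at hy ⊢
        apply hdown _ hy
        intro i
        refine Fin.cases ?_ (fun m => ?_) i
        · simp only [Fin.cons_zero]
          exact Finset.sup_mono_fun (fun i _ => hy' i)
        · simpa using hy' m
    -- decompose the weight sum
    have hdecomp : ∑ v, ∑ y ∈ Xv v, wt n y + n * ∑ y ∈ X', wt n y ≤ ∑ y ∈ X, wt (n + 1) y := by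
      have e1 : ∑ y ∈ X, wt (n + 1) y
          = ∑ v : α, ∑ y : Fin n → α, (if (Fin.cons v y : Fin (n + 1) → α) ∈ X
              then (1 + #{m : Fin n | y m = v}) * wt n y else 0) := by
        have e0 : ∑ y ∈ X, wt (n + 1) y = ∑ y, if y ∈ X then wt (n + 1) y else 0 := by
          rw [← Finset.sum_filter]
          apply Finset.sum_congr _ (fun _ _ => rfl)
          ext y; simp
        rw [e0, sum_cons]
        apply Finset.sum_congr rfl
        intro v _
        apply Finset.sum_congr rfl
        intro y _
        rw [wt_cons]
      have e2 : ∀ v : α, ∑ y : Fin n → α, (if (Fin.cons v y : Fin (n + 1) → α) ∈ X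
              then (1 + #{m : Fin n | y m = v}) * wt n y else 0)
          = ∑ y ∈ Xv v, wt n y + ∑ y : Fin n → α, (if (Fin.cons v y : Fin (n + 1) → α) ∈ X
              then #{m : Fin n | y m = v} else 0) * wt n y := by
        intro v
        simp only [Xv]
        rw [Finset.sum_filter, ← Finset.sum_add_distrib]
        apply Finset.sum_congr rfl
        intro y _
        split_ifs <;> ring
      rw [e1]
      simp only [e2]
      rw [Finset.sum_add_distrib]
      gcongr
      rw [Finset.sum_comm]
      simp only [← Finset.sum_mul]
      rw [Finset.mul_sum, ← Finset.sum_filter_add_sum_filter_not Finset.univ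
        (fun y : Fin n → α => (Fin.cons (Finset.univ.sup y) y : Fin (n + 1) → α) ∈ X)]
      apply le_add_right
      apply Finset.sum_le_sum
      intro y hy
      rw [Finset.mem_filter] at hy
      gcongr
      have e3 : ∀ v : α, (if (Fin.cons v y : Fin (n + 1) → α) ∈ X
              then #{m : Fin n | y m = v} else 0) = #{m : Fin n | y m = v} := by
        intro v
        split_ifs with h
        · rfl
        · symm
          rw [Finset.card_eq_zero, Finset.filter_eq_empty_iff]
          intro m _ hm
          apply h
          apply hdown _ hy.2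
          intro i
          refine Fin.cases ?_ (fun m => ?_) i
          · simp only [Fin.cons_zero]
            rw [← hm]
            exact Finset.le_sup (f := y) (Finset.mem_univ m)
          · simp
      simp only [e3]
      rw [← Finset.card_eq_sum_card_fiberwise (f := y) (s := Finset.univ) (t := Finset.univ)
        (fun _ _ => Finset.mem_univ _)]
      simp
    refine le_trans ?_ hdecomp
    -- combine
    have hc1 : ∑ j ∈ Finset.range (n + 1),
        (ascPochhammer ℕ n).coeff j * #{z : Fin (j + 1) → α | ext (j + 1) (n + 1) z ∈ X}
        ≤ ∑ v, ∑ y ∈ Xv v, wt n y := by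
      refine le_trans ?_ (Finset.sum_le_sum (fun v _ => hXv v))
      rw [Finset.sum_comm]
      apply Finset.sum_le_sum
      intro j hj
      rw [Finset.mem_range] at hj
      rw [← Finset.mul_sum]
      gcongr
      have : #{z : Fin (j + 1) → α | ext (j + 1) (n + 1) z ∈ X}
          = ∑ v : α, #{z : Fin j → α | ext (j + 1) (n + 1) (Fin.cons v z : Fin (j + 1) → α) ∈ X} := by
        simp only [Finset.card_filter]
        rw [sum_cons]
      rw [this]
      apply Finset.sum_le_sum
      intro v _
      apply Finset.card_le_card
      intro z hz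
      simp only [Xv, Finset.mem_filter, Finset.mem_univ, true_and] at hz ⊢
      apply hdown _ hz
      intro i
      refine Fin.cases ?_ (fun m => ?_) i
      · simp only [Fin.cons_zero]
        simp [ext]
      · simp only [Fin.cons_succ]
        unfold ext
        by_cases hm : m.val < j
        · have h2 : (m.succ : Fin (n + 1)).val < j + 1 := by simp; omega
          rw [dif_pos hm, dif_pos h2]
          have : (⟨m.succ.val, h2⟩ : Fin (j + 1)) = Fin.succ ⟨m.val, hm⟩ := by
            ext; simp
          rw [this, Fin.cons_succ]
        · have h2 : ¬ (m.succ : Fin (n + 1)).val < j + 1 := by simp; omega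
          rw [dif_neg hm, dif_neg h2]
          apply Finset.sup_le
          intro i _
          have : z i = (Fin.cons v z : Fin (j + 1) → α) i.succ := by simp
          rw [this]
          exact Finset.le_sup (f := (Fin.cons v z : Fin (j + 1) → α)) (Finset.mem_univ _)
    have hc2 : ∑ j ∈ Finset.range (n + 1),
        (ascPochhammer ℕ n).coeff j * #{z : Fin j → α | ext j (n + 1) z ∈ X}
        ≤ ∑ y ∈ X', wt n y := by
      refine le_trans ?_ hX'
      apply Finset.sum_le_sum
      intro j hj
      rw [Finset.mem_range] at hj
      apply Nat.mul_le_mul_left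
      apply Finset.card_le_card
      intro z hz
      simp only [X', Finset.mem_filter, Finset.mem_univ, true_and] at hz ⊢
      have h1 := hsym _ hz (finRotate (n + 1)).symm
      have h2 : (Fin.cons (Finset.univ.sup (ext j n z)) (ext j n z) : Fin (n + 1) → α)
          = ext j (n + 1) z ∘ (finRotate (n + 1)).symm := by
        funext i
        obtain ⟨i', rfl⟩ := (finRotate (n + 1)).surjective i
        simp only [Function.comp_apply, Equiv.symm_apply_apply]
        rw [sup_ext (by omega)]
        refine Fin.lastCases ?_ (fun m => ?_) i'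
        · rw [finRotate_last, Fin.cons_zero]
          unfold ext
          rw [dif_neg (by simp; omega)]
        · rw [finRotate_succ_apply, Fin.coeSucc_eq_succ, Fin.cons_succ]
          unfold ext
          simp
      rw [h2]
      exact h1
    refine le_trans ?_ (add_le_add hc1 (Nat.mul_le_mul_left n hc2))
    rw [Finset.sum_range_succ']
    have hcoef : ∀ j, (ascPochhammer ℕ (n + 1)).coeff (j + 1)
        = (ascPochhammer ℕ n).coeff j + n * (ascPochhammer ℕ n).coeff (j + 1) := by
      intro j
      rw [ascPochhammer_succ_right, mul_add, Polynomial.coeff_add, Polynomial.coeff_mul_X,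
        Polynomial.coeff_mul_natCast, mul_comm]
      rfl
    have hcoef0 : (ascPochhammer ℕ (n + 1)).coeff 0 = n * (ascPochhammer ℕ n).coeff 0 := by
      rw [ascPochhammer_succ_right, mul_add, Polynomial.coeff_add, Polynomial.coeff_mul_X_zero,
        Polynomial.coeff_mul_natCast, zero_add, mul_comm]
      rfl
    rw [hcoef0]
    simp only [hcoef, add_mul]
    rw [Finset.sum_add_distrib, add_assoc]
    gcongr
    have htop : (ascPochhammer ℕ n).coeff (n + 1) = 0 := by
      apply Polynomial.coeff_eq_zero_of_natDegree_lt
      rw [ascPochhammer_natDegree]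
      omega
    rw [Finset.sum_range_succ, htop, mul_zero, zero_mul, add_zero, Finset.mul_sum,
      Finset.sum_range_succ' _ n]
    apply le_of_eq
    congr 1
    · apply Finset.sum_congr rfl
      intro j _
      ring
    · ring

/-- The Stirling count. -/
theorem stirling_count (n : ℕ) (X : Finset (Fin n → α))
    (hsym : ∀ y ∈ X, ∀ σ : Equiv.Perm (Fin n), y ∘ σ ∈ X)
    (hdown : ∀ y ∈ X, ∀ y', y' ≤ y → y' ∈ X) :
    ∑ j ∈ Finset.range (n + 1), (ascPochhammer ℕ n).coeff j * #{z : Fin j → α | ext j n z ∈ X}
      ≤ n.factorial * #{y ∈ X | Monotone y} := by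
  classical
  rw [← sum_wt_symm n X hsym]
  exact main_ineq n X hsym hdown

end

end Pool.Agent.R829.St
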