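import Pool.Agent.R829.StAlgMain
import Pool.Agent.R829.StComb1

set_option autoImplicit false

namespace Pool.Agent.R829.St

open Finset

section
variable {n : ℕ} {M : Set (Fin n → ℕ)}

/-! ### Powers of an up-set -/

lemma Mp_up (hadd : ∀ u ∈ M, ∀ w, u + w ∈ M) :
    ∀ t, ∀ u ∈ Mp M t, ∀ w, u + w ∈ Mp M t := by
  intro t
  induction t with
  | zero => intro u _ w; exact Set.mem_univ _
  | succ t ih =>
    rintro _ ⟨v, hv, w', hw', rfl⟩ w
    exact ⟨v + w, ih v hv w, w', hw', by rw [add_right_comm]⟩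

lemma Mp_up_le (hadd : ∀ u ∈ M, ∀ w, u + w ∈ M) {t : ℕ} {u v : Fin n → ℕ} (hu : u ∈ Mp M t)
    (huv : u ≤ v) : v ∈ Mp M t := by
  have : v = u + (v - u) := by
    funext i
    have h0 : u i ≤ v i := huv i
    simp only [Pi.add_apply, Pi.sub_apply]; omega
  rw [this]
  exact Mp_up hadd t u hu _

lemma Mp_add (hadd : ∀ u ∈ M, ∀ w, u + w ∈ M) (t : ℕ) :
    ∀ s, ∀ u ∈ Mp M t, ∀ v ∈ Mp M s, u + v ∈ Mp M (t + s) := by
  intro s
  induction s with
  | zero => intro u hu v _; exact Mp_up hadd t u hu v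
  | succ s ih =>
    rintro u hu _ ⟨v, hv, w, hw, rfl⟩
    exact ⟨u + v, ih u hu v hv, w, hw, by rw [add_assoc]⟩

lemma Mp_anti (hadd : ∀ u ∈ M, ∀ w, u + w ∈ M) {s t : ℕ} (h : s ≤ t) : Mp M t ⊆ Mp M s := by
  induction h with
  | refl => exact subset_rfl
  | step _ ih =>
    refine Set.Subset.trans ?_ ih
    rintro _ ⟨v, hv, w, hw, rfl⟩
    exact Mp_up hadd _ v hv w

lemma Mp_nsmul (hadd : ∀ u ∈ M, ∀ w, u + w ∈ M) {t : ℕ} {u : Fin n → ℕ} (hu : u ∈ Mp M t) :
    ∀ m : ℕ, m • u ∈ Mp M (m * t) := by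
  intro m
  induction m with
  | zero => rw [zero_mul]; exact Set.mem_univ _
  | succ m ih =>
    rw [succ_nsmul, Nat.succ_mul]
    exact Mp_add hadd _ _ _ ih _ hu

lemma Mp_sum (hadd : ∀ u ∈ M, ∀ w, u + w ∈ M) {ι : Type*} [DecidableEq ι] (S : Finset ι)
    (f : ι → Fin n → ℕ) (τ : ι → ℕ) (h : ∀ i ∈ S, f i ∈ Mp M (τ i)) :
    ∑ i ∈ S, f i ∈ Mp M (∑ i ∈ S, τ i) := by
  induction S using Finset.induction_on with
  | empty => exact Set.mem_univ _
  | insert a S ha ih =>
    rw [Finset.sum_insert ha, Finset.sum_insert ha]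
    exact Mp_add hadd _ _ _ (h a (Finset.mem_insert_self _ _)) _
      (ih (fun i hi => h i (Finset.mem_insert_of_mem hi)))

lemma mem_Mp_one {u : Fin n → ℕ} (hu : u ∈ M) : u ∈ Mp M 1 :=
  ⟨0, Set.mem_univ _, u, hu, (zero_add u).symm⟩

lemma shift_full_add {a b : Fin n} (hab : a ≠ b) (u v : Fin n → ℕ) :
    shift a b ((u + v) b) (u + v) = shift a b (u b) u + shift a b (v b) v := by
  funext i
  simp only [shift, Pi.add_apply]
  split_ifs <;> omega

lemma shift_full_nsmul {a b : Fin n} (N : ℕ) (u : Fin n → ℕ) :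
    shift a b ((N • u) b) (N • u) = N • shift a b (u b) u := by
  funext i
  simp only [shift, Pi.smul_apply, smul_eq_mul]
  split_ifs
  · simp
  · ring
  · rfl

lemma Mp_borel (hbor : ∀ u ∈ M, ∀ a b : Fin n, a < b → shift a b (u b) u ∈ M) {a b : Fin n}
    (hab : a < b) : ∀ t, ∀ u ∈ Mp M t, shift a b (u b) u ∈ Mp M t := by
  intro t
  induction t with
  | zero => intro u _; exact Set.mem_univ _
  | succ t ih =>
    rintro _ ⟨v, hv, w, hw, rfl⟩
    exact ⟨_, ih v hv, _, hbor w hw a b hab, shift_full_add hab.ne v w⟩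

/-! ### The integral closure -/

/-- Integral closure of an up-set of exponents. -/
def Mbar (M : Set (Fin n → ℕ)) : Set (Fin n → ℕ) := {v | ∃ N, 1 ≤ N ∧ N • v ∈ Mp M N}

lemma sub_Mbar {u : Fin n → ℕ} (hu : u ∈ M) : u ∈ Mbar M :=
  ⟨1, le_rfl, by rw [one_nsmul]; exact mem_Mp_one hu⟩

lemma Mbar_up (hadd : ∀ u ∈ M, ∀ w, u + w ∈ M) {v : Fin n → ℕ} (hv : v ∈ Mbar M)
    (w : Fin n → ℕ) : v + w ∈ Mbar M := by
  obtain ⟨N, hN, h⟩ := hv
  refine ⟨N, hN, ?_⟩
  rw [nsmul_add]
  exact Mp_up hadd _ _ h _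

lemma Mbar_move (hadd : ∀ u ∈ M, ∀ w, u + w ∈ M)
    (hbor : ∀ u ∈ M, ∀ a b : Fin n, a < b → shift a b (u b) u ∈ M) {v : Fin n → ℕ}
    (hv : v ∈ Mbar M) {a b : Fin n} (hab : a < b) (hvb : 1 ≤ v b) : shift a b 1 v ∈ Mbar M := by
  obtain ⟨N, hN, h⟩ := hv
  obtain ⟨m, hm⟩ := Nat.exists_eq_add_of_le' hvb
  refine ⟨m * N + N, by omega, ?_⟩
  have h1 : m • (N • v) ∈ Mp M (m * N) := Mp_nsmul hadd h m
  have h2 := Mp_borel hbor hab N _ h
  rw [shift_full_nsmul] at h2
  have h3 := Mp_add hadd _ _ _ h1 _ h2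
  have h4 : (m * N + N) • shift a b 1 v = m • (N • v) + N • shift a b (v b) v := by
    funext i
    simp only [shift, Pi.smul_apply, smul_eq_mul, Pi.add_apply, hm]
    split_ifs with h5 h6
    · subst h5
      rw [hm]
      have e1 : m + 1 - 1 = m := by omega
      have e2 : m + 1 - (m + 1) = 0 := by omega
      rw [e1, e2]
      ring
    · subst h6
      ring
    · ring
  rw [h4]
  exact h3

/-! ### Partial sums -/

/-- Partial sums. -/
def T (u : Fin n → ℕ) (i : Fin n) : ℕ := ∑ m ∈ Finset.Iic i, u m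

lemma T_eq (u : Fin n → ℕ) (i : Fin n) : T u i = ∑ m ∈ Finset.Iio i, u m + u i := by
  unfold T
  rw [← Finset.Iio_insert, Finset.sum_insert (by simp), add_comm]

lemma T_add (u v : Fin n → ℕ) (i : Fin n) : T (u + v) i = T u i + T v i := by
  simp [T, Finset.sum_add_distrib]

lemma T_sum {ι : Type*} (S : Finset ι) (f : ι → Fin n → ℕ) (i : Fin n) :
    T (∑ s ∈ S, f s) i = ∑ s ∈ S, T (f s) i := by
  unfold T
  rw [Finset.sum_comm]
  apply Finset.sum_congr rfl
  intro m _
  rw [Finset.sum_apply]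

lemma T_mono (u : Fin n → ℕ) : Monotone (T u) := by
  intro i j hij
  unfold T
  apply Finset.sum_le_sum_of_subset
  exact Finset.Iic_subset_Iic.mpr hij

lemma T_single (a i : Fin n) : T (Pi.single a 1) i = if a ≤ i then 1 else 0 := by
  unfold T
  simp only [Pi.single_apply, Finset.sum_ite_eq', Finset.mem_Iic]

lemma T_step {u v : Fin n → ℕ} {i : Fin n} (h : T u i = T v i) (h' : ∀ m < i, u m = v m) :
    u i = v i := by
  rw [T_eq, T_eq] at h
  have : ∑ m ∈ Finset.Iio i, u m = ∑ m ∈ Finset.Iio i, v m := by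
    apply Finset.sum_congr rfl
    intro m hm
    exact h' m (Finset.mem_Iio.mp hm)
  omega

lemma T_inj_upto {u v : Fin n → ℕ} (j : ℕ) (h : ∀ i : Fin n, i.val < j → T u i = T v i) :
    ∀ m : ℕ, ∀ i : Fin n, i.val = m → i.val < j → u i = v i := by
  intro m
  induction m using Nat.strong_induction_on with
  | _ m ih =>
    intro i him hij
    apply T_step (h i hij)
    intro m' hm'
    have : m'.val < i.val := hm'
    exact ih m'.val (by omega) m' rfl (by omega)

lemma T_inj {u v : Fin n → ℕ} (h : T u = T v) : u = v := by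
  funext i
  exact T_inj_upto n (fun i _ => by rw [h]) i.val i rfl i.2

lemma T_up (hadd : ∀ u ∈ M, ∀ w, u + w ∈ M)
    (hbor : ∀ u ∈ M, ∀ a b : Fin n, a < b → shift a b (u b) u ∈ M) (v' : Fin n → ℕ) :
    ∀ D : ℕ, ∀ v : Fin n → ℕ, ∑ i, (T v' i - T v i) = D → T v ≤ T v' → v ∈ Mbar M →
      v' ∈ Mbar M := by
  intro D
  induction D with
  | zero =>
    intro v hD hle hv
    have : T v = T v' := by
      funext i
      have h1 := (Finset.sum_eq_zero_iff.mp hD) i (Finset.mem_univ i)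
      have h2 : T v i ≤ T v' i := hle i
      omega
    rw [← T_inj this]
    exact hv
  | succ D ih =>
    intro v hD hle hv
    let S : Finset (Fin n) := Finset.univ.filter (fun i => T v i < T v' i)
    have hS : S.Nonempty := by
      by_contra hcon
      rw [Finset.not_nonempty_iff_eq_empty, Finset.filter_eq_empty_iff] at hcon
      have : ∑ i, (T v' i - T v i) = 0 := by
        apply Finset.sum_eq_zero
        intro i _
        have := hcon (Finset.mem_univ i)
        omega
      omega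
    obtain ⟨i, hiS, hmax⟩ := S.exists_max_image id hS
    simp only [S, Finset.mem_filter, Finset.mem_univ, true_and, id] at hiS hmax
    -- new element
    obtain ⟨v'', hv'', hT⟩ : ∃ v'' ∈ Mbar M, ∀ m, T v'' m = T v m + if m = i then 1 else 0 := by
      by_cases hlast : i.val + 1 < n
      · let b : Fin n := ⟨i.val + 1, hlast⟩
        have hib : i < b := by show i.val < i.val + 1; omega
        have h1 : T v b = T v i + v b := by
          rw [T_eq]
          congr 1
          unfold T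
          apply Finset.sum_congr _ (fun _ _ => rfl)
          ext m
          simp only [Finset.mem_Iio, Finset.mem_Iic]
          show m.val < i.val + 1 ↔ m.val ≤ i.val
          omega
        have h2 : T v b = T v' b := by
          apply le_antisymm (hle b)
          by_contra hcon
          push Not at hcon
          exact absurd (hmax b hcon) (not_le.mpr hib)
        have h3 : T v' i ≤ T v' b := T_mono v' hib.le
        have h4 : 1 ≤ v b := by omega
        refine ⟨shift i b 1 v, Mbar_move hadd hbor hv hib h4, ?_⟩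
        intro m
        have h5 := congrArg (fun w => T w m) (shift_add_single hib.ne h4)
        simp only [T_add, T_single] at h5
        by_cases hmi : m = i
        · subst hmi
          rw [if_pos le_rfl, if_neg (not_le.mpr hib)] at h5
          rw [if_pos rfl]
          omega
        · rw [if_neg hmi]
          by_cases hm2 : i ≤ m
          · have hm3 : b ≤ m := by
              have h6 : i.val ≤ m.val := hm2
              have h7 : m.val ≠ i.val := fun h => hmi (Fin.ext h)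
              show i.val + 1 ≤ m.val
              omega
            rw [if_pos hm2, if_pos hm3] at h5
            omega
          · have hm3 : ¬ b ≤ m := fun h => hm2 (hib.le.trans h)
            rw [if_neg hm2, if_neg hm3] at h5
            omega
      · refine ⟨v + Pi.single i 1, Mbar_up hadd hv _, ?_⟩
        intro m
        rw [T_add, T_single]
        congr 1
        have h6 := m.2
        have h7 := i.2
        by_cases hmi : m = i
        · subst hmi
          rw [if_pos le_rfl, if_pos rfl]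
        · have h8 : m.val ≠ i.val := fun h => hmi (Fin.ext h)
          rw [if_neg hmi, if_neg]
          intro h9
          have h10 : i.val ≤ m.val := h9
          omega
    apply ih v'' _ _ hv''
    · have h1 : ∑ m, (T v' m - T v m) = ∑ m, (T v' m - T v'' m) + 1 := by
        have : ∀ m, T v' m - T v m = (T v' m - T v'' m) + if m = i then 1 else 0 := by
          intro m
          rw [hT m]
          split_ifs with h
          · subst h; omega
          · omega
        simp only [this]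
        rw [Finset.sum_add_distrib]
        simp
      omega
    · intro m
      rw [hT m]
      split_ifs with h
      · rw [h]; exact hiS
      · rw [add_zero]; exact hle m

lemma Mbar_T_up (hadd : ∀ u ∈ M, ∀ w, u + w ∈ M)
    (hbor : ∀ u ∈ M, ∀ a b : Fin n, a < b → shift a b (u b) u ∈ M) {v v' : Fin n → ℕ}
    (hle : T v ≤ T v') (hv : v ∈ Mbar M) : v' ∈ Mbar M :=
  T_up hadd hbor v' _ v rfl hle hv

/-! ### Sums of elements of the closure -/

lemma exists_const (hadd : ∀ u ∈ M, ∀ w, u + w ∈ M) {r : ℕ}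
    (hlarge : ∀ u : Fin n → ℕ, r ≤ ∑ i, u i → u ∈ M) :
    ∃ C : ℕ, ∀ (S : Finset ℕ) (f : ℕ → Fin n → ℕ), (∀ i ∈ S, f i ∈ Mbar M) →
      ∑ i ∈ S, f i ∈ Mp M (#S - C) := by
  classical
  -- the finite generating set
  have hGfin : {v : Fin n → ℕ | v ∈ Mbar M ∧ ∑ i, v i ≤ r}.Finite := by
    apply (Set.finite_Iic (fun _ : Fin n => r)).subset
    intro u hu i
    have : u i ≤ ∑ i, u i := Finset.single_le_sum (fun _ _ => Nat.zero_le _) (Finset.mem_univ i)
    have h2 := hu.2
    show u i ≤ r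
    omega
  let G : Finset (Fin n → ℕ) := hGfin.toFinset
  have hG : ∀ v, v ∈ G ↔ v ∈ Mbar M ∧ ∑ i, v i ≤ r := fun v => by
    simp only [G, Set.Finite.mem_toFinset, Set.mem_ofPred_eq]
  have hdom : ∀ v ∈ Mbar M, ∃ g ∈ G, g ≤ v := by
    intro v hv
    by_cases h : ∑ i, v i ≤ r
    · exact ⟨v, (hG v).mpr ⟨hv, h⟩, le_rfl⟩
    · obtain ⟨w, hw, hs⟩ := exists_le_sum v r (by omega)
      exact ⟨w, (hG w).mpr ⟨sub_Mbar (hlarge w hs.ge), hs.le⟩, hw⟩
  have hN : ∃ N : ℕ, 1 ≤ N ∧ ∀ g ∈ G, N • g ∈ Mp M N := by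
    have : ∀ g : Fin n → ℕ, ∃ N : ℕ, 1 ≤ N ∧ (g ∈ G → N • g ∈ Mp M N) := by
      intro g
      by_cases hg : g ∈ G
      · obtain ⟨N, hN, h⟩ := ((hG g).mp hg).1
        exact ⟨N, hN, fun _ => h⟩
      · exact ⟨1, le_rfl, fun h => absurd h hg⟩
    choose Ng hNg1 hNg using this
    refine ⟨∏ g ∈ G, Ng g, Finset.one_le_prod' (fun g _ => hNg1 g), ?_⟩
    intro g hg
    obtain ⟨m, hm⟩ := Finset.dvd_prod_of_mem Ng hg
    rw [hm, mul_comm, mul_smul]
    exact Mp_nsmul hadd (hNg g hg) m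
  obtain ⟨N, hN1, hN⟩ := hN
  refine ⟨#G * N, ?_⟩
  intro S f hf
  have hch : ∀ i : ℕ, ∃ g : Fin n → ℕ, i ∈ S → (g ∈ G ∧ g ≤ f i) := by
    intro i
    by_cases hi : i ∈ S
    · obtain ⟨g, hg, hle⟩ := hdom _ (hf i hi)
      exact ⟨g, fun _ => ⟨hg, hle⟩⟩
    · exact ⟨0, fun h => absurd h hi⟩
  choose g hg using hch
  have h1 : ∑ i ∈ S, g i ≤ ∑ i ∈ S, f i := Finset.sum_le_sum (fun i hi => (hg i hi).2)
  apply Mp_up_le hadd _ h1
  have h2 : ∑ i ∈ S, g i = ∑ γ ∈ G, (#{i ∈ S | g i = γ}) • γ := by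
    rw [← Finset.sum_fiberwise_of_maps_to (s := S) (t := G) (g := g) (fun i hi => (hg i hi).1)]
    apply Finset.sum_congr rfl
    intro γ _
    rw [← Finset.sum_const]
    apply Finset.sum_congr rfl
    intro i hi
    rw [Finset.mem_filter] at hi
    exact hi.2
  have h3 : ∀ γ ∈ G, (#{i ∈ S | g i = γ}) • γ ∈ Mp M ((#{i ∈ S | g i = γ}) / N * N) := by
    intro γ hγ
    set a := #{i ∈ S | g i = γ}
    have h4 : (a / N) • (N • γ) ∈ Mp M (a / N * N) := Mp_nsmul hadd (hN γ hγ) _
    apply Mp_up_le hadd h4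
    intro i
    simp only [Pi.smul_apply, smul_eq_mul]
    rw [← mul_assoc]
    exact Nat.mul_le_mul_right _ (Nat.div_mul_le_self a N)
  rw [h2]
  apply Mp_anti hadd _ (Mp_sum hadd G _ _ h3)
  have h5 : #S = ∑ γ ∈ G, #{i ∈ S | g i = γ} :=
    Finset.card_eq_sum_card_fiberwise (fun i hi => (hg i hi).1)
  have h6 : ∑ γ ∈ G, #{i ∈ S | g i = γ} ≤ ∑ γ ∈ G, ((#{i ∈ S | g i = γ}) / N * N + N) := by
    apply Finset.sum_le_sum
    intro γ _
    have := Nat.div_add_mod' (#{i ∈ S | g i = γ}) N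
    have h7 := Nat.mod_lt (#{i ∈ S | g i = γ}) hN1
    omega
  rw [Finset.sum_add_distrib, Finset.sum_const, smul_eq_mul] at h6
  omega

end

end Pool.Agent.R829.St
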