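import Pool.Agent.R829.StComb2

set_option autoImplicit false

namespace Pool.Agent.R829.St

open Finset

section
variable {n : ℕ} {M : Set (Fin n → ℕ)}

/-- Differences of a sequence. -/
def Dif (y : Fin n → ℕ) (i : Fin n) : ℕ :=
  y i - (if i.val = 0 then 0 else y ⟨i.val - 1, by omega⟩)

lemma T_Dif {y : Fin n → ℕ} (hy : Monotone y) : T (Dif y) = y := by
  have key : ∀ m : ℕ, ∀ i : Fin n, i.val = m → T (Dif y) i = y i := by
    intro m
    induction m with
    | zero =>
      intro i hi
      rw [T_eq]
      have : Finset.Iio i = ∅ := by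
        ext x
        simp only [Finset.mem_Iio, Finset.notMem_empty, iff_false, not_lt]
        show i.val ≤ x.val
        omega
      rw [this, Finset.sum_empty, zero_add]
      unfold Dif
      rw [if_pos hi]; rfl
    | succ m ih =>
      intro i hi
      have hlt := i.2
      let j : Fin n := ⟨m, by omega⟩
      have h1 : Finset.Iio i = Finset.Iic j := by
        ext x
        simp only [Finset.mem_Iio, Finset.mem_Iic]
        show x.val < i.val ↔ x.val ≤ m
        omega
      rw [T_eq, h1]
      have h2 : ∑ m ∈ Finset.Iic j, Dif y m = y j := ih j rfl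
      rw [h2]
      have h3 : Dif y i = y i - y j := by
        unfold Dif
        rw [if_neg (by omega)]
        congr 2
        apply Fin.ext
        show i.val - 1 = m
        omega
      have h4 : y j ≤ y i := hy (by show m ≤ i.val; omega)
      omega
  funext i
  exact key i.val i rfl

lemma T_le_sum (u : Fin n → ℕ) (i : Fin n) : T u i ≤ ∑ i, u i := by
  unfold T
  exact Finset.sum_le_sum_of_subset (Finset.subset_univ _)

lemma hermite {s : ℕ} (hs : 0 < s) (y : ℕ) : ∑ s' ∈ Finset.range s, (y + s') / s = y := by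
  induction y with
  | zero =>
    apply Finset.sum_eq_zero
    intro s' hs'
    rw [Finset.mem_range] at hs'
    rw [zero_add]
    exact Nat.div_eq_of_lt hs'
  | succ y ih =>
    have h1 := Finset.sum_range_succ (fun s' => (y + s') / s) s
    have h2 := Finset.sum_range_succ' (fun s' => (y + s') / s) s
    rw [h1] at h2
    rw [ih] at h2
    have h3 : (y + s) / s = y / s + 1 := Nat.add_div_right y hs
    rw [h3] at h2
    simp only [add_zero] at h2
    have h4 : ∑ s' ∈ Finset.range s, (y + 1 + s') / s = ∑ s' ∈ Finset.range s, (y + (s' + 1)) / s := by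
      apply Finset.sum_congr rfl
      intro s' _
      congr 1
      ring
    rw [h4]
    omega

lemma sort_mono {y y' : Fin n → ℕ} (h : y' ≤ y) : y' ∘ Tuple.sort y' ≤ y ∘ Tuple.sort y := by
  intro i
  have hc : ∀ (f : Fin n → ℕ) (σ : Equiv.Perm (Fin n)) (a : ℕ),
      #{m | (f ∘ σ) m ≤ a} = #{m | f m ≤ a} := by
    intro f σ a
    apply Finset.card_bij (fun m _ => σ m)
    · intro m hm
      simpa using hm
    · intro m _ m' _ hmm
      exact σ.injective hmm
    · intro m hm
      refine ⟨σ.symm m, ?_, by simp⟩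
      simpa using hm
  set a := (y ∘ Tuple.sort y) i with ha
  rw [← Tuple.lt_card_le_iff_apply_le_of_monotone (Tuple.monotone_sort y')]
  have h1 : i < #{m | (y ∘ Tuple.sort y) m ≤ a} :=
    (Tuple.lt_card_le_iff_apply_le_of_monotone (Tuple.monotone_sort y)).mpr le_rfl
  rw [hc] at h1 ⊢
  refine lt_of_lt_of_le h1 ?_
  apply Finset.card_le_card
  intro m hm
  simp only [Finset.mem_filter, Finset.mem_univ, true_and] at hm ⊢
  exact (h m).trans hm

lemma sort_of_mono {y : Fin n → ℕ} (hy : Monotone y) : y ∘ Tuple.sort y = y := by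
  have := Tuple.unique_monotone (f := y) (σ := Tuple.sort y) (τ := 1) (Tuple.monotone_sort y)
    (by simpa using hy)
  simpa using this

/-- Sequences whose sorted version is outside the closure. -/
def XN (M : Set (Fin n → ℕ)) : Set (Fin n → ℕ) := {y | Dif (y ∘ Tuple.sort y) ∉ Mbar M}

lemma XN_mono {y : Fin n → ℕ} (hy : Monotone y) : y ∈ XN M ↔ Dif y ∉ Mbar M := by
  unfold XN
  rw [Set.mem_ofPred_eq, sort_of_mono hy]

lemma XN_sym {y : Fin n → ℕ} (hy : y ∈ XN M) (σ : Equiv.Perm (Fin n)) : y ∘ σ ∈ XN M := by
  have : (y ∘ σ) ∘ Tuple.sort (y ∘ σ) = y ∘ Tuple.sort y := by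
    have := Tuple.unique_monotone (f := y) (σ := (Tuple.sort (y ∘ σ)).trans σ) (τ := Tuple.sort y)
      (Tuple.monotone_sort (y ∘ σ)) (Tuple.monotone_sort y)
    exact this
  unfold XN
  rw [Set.mem_ofPred_eq, this]
  exact hy

lemma XN_down (hadd : ∀ u ∈ M, ∀ w, u + w ∈ M)
    (hbor : ∀ u ∈ M, ∀ a b : Fin n, a < b → shift a b (u b) u ∈ M) {y y' : Fin n → ℕ}
    (hy : y ∈ XN M) (h : y' ≤ y) : y' ∈ XN M := by
  intro hcon
  apply hy
  apply Mbar_T_up hadd hbor _ hcon
  rw [T_Dif (Tuple.monotone_sort y), T_Dif (Tuple.monotone_sort y')]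
  exact sort_mono h

lemma XN_bound {r : ℕ} (hlarge : ∀ u : Fin n → ℕ, r ≤ ∑ i, u i → u ∈ M) {y : Fin n → ℕ}
    (hy : y ∈ XN M) (i : Fin n) : y i < r := by
  by_contra hcon
  push Not at hcon
  apply hy
  apply sub_Mbar
  apply hlarge
  refine le_trans ?_ (T_le_sum _ ((Tuple.sort y).symm i))
  rw [T_Dif (Tuple.monotone_sort y)]
  simpa using hcon

open Classical in
/-- The finite version of `XN`. -/
noncomputable def XF (M : Set (Fin n → ℕ)) (r : ℕ) : Finset (Fin n → Fin (r + 1)) :=
  Finset.univ.filter (fun y => (fun i => (y i).val) ∈ XN M)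

lemma mem_XF {r : ℕ} {y : Fin n → Fin (r + 1)} : y ∈ XF M r ↔ (fun i => (y i).val) ∈ XN M := by
  classical
  unfold XF
  simp

lemma finite_compl (hadd : ∀ u ∈ M, ∀ w, u + w ∈ M) {r : ℕ}
    (hlarge : ∀ u : Fin n → ℕ, r ≤ ∑ i, u i → u ∈ M) : (Mᶜ).Finite := by
  have := finite_compl_Mp hlarge 1
  apply this.subset
  intro u hu h1
  obtain ⟨v, _, w, hw, rfl⟩ := h1
  apply hu
  have h2 := hadd w hw v
  rw [add_comm w v] at h2
  exact h2

lemma count_mono (hadd : ∀ u ∈ M, ∀ w, u + w ∈ M) {r : ℕ}
    (hlarge : ∀ u : Fin n → ℕ, r ≤ ∑ i, u i → u ∈ M) :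
    #{y ∈ XF M r | Monotone y} ≤ (Mᶜ).ncard := by
  classical
  have hfin := finite_compl hadd hlarge
  rw [Set.ncard_eq_toFinset_card _ hfin]
  apply Finset.card_le_card_of_injOn (fun y => Dif (fun i => (y i).val))
  · intro y hy
    rw [Finset.mem_coe, Finset.mem_filter] at hy
    rw [Finset.mem_coe, Set.Finite.mem_toFinset]
    intro hcon
    have h1 := mem_XF.mp hy.1
    have hm : Monotone (fun i => (y i).val) := fun a b hab => hy.2 hab
    rw [XN_mono hm] at h1
    exact h1 (sub_Mbar hcon)
  · intro y hy y' hy' h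
    rw [Finset.mem_coe, Finset.mem_filter] at hy hy'
    have hm : Monotone (fun i => (y i).val) := fun a b hab => hy.2 hab
    have hm' : Monotone (fun i => (y' i).val) := fun a b hab => hy'.2 hab
    have h2 := congrArg T h
    simp only at h2
    rw [T_Dif hm, T_Dif hm'] at h2
    funext i
    exact Fin.ext (congrFun h2 i)

lemma val_sup {j r : ℕ} (z : Fin j → Fin (r + 1)) :
    (Finset.univ.sup z).val = Finset.univ.sup (fun i => (z i).val) := by
  apply le_antisymm
  · have h1 : Finset.univ.sup z ≤ ⟨min r (Finset.univ.sup (fun i => (z i).val)), by omega⟩ := by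
      apply Finset.sup_le
      intro i _
      show (z i).val ≤ min r _
      have h2 := Finset.le_sup (f := fun i => (z i).val) (Finset.mem_univ i)
      have h3 := (z i).2
      omega
    have h4 : (Finset.univ.sup z).val ≤ min r (Finset.univ.sup (fun i => (z i).val)) := h1
    omega
  · apply Finset.sup_le
    intro i _
    have : z i ≤ Finset.univ.sup z := Finset.le_sup (f := z) (Finset.mem_univ i)
    exact this

lemma val_ext {j r : ℕ} (z : Fin j → Fin (r + 1)) :
    (fun i => (ext j n z i).val) = ext j n (fun i => (z i).val) := by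
  funext i
  unfold ext
  split_ifs
  · rfl
  · exact val_sup z

lemma ext_mono {j : ℕ} {z : Fin j → ℕ} (hz : Monotone z) : Monotone (ext j n z) := by
  intro a b hab
  unfold ext
  have h0 : a.val ≤ b.val := hab
  split_ifs with h1 h2 h3
  · exact hz hab
  · exact Finset.le_sup (f := z) (Finset.mem_univ _)
  · omega
  · exact le_rfl

lemma ext_perm {j : ℕ} (hj : j ≤ n) (z : Fin j → ℕ) (σ : Equiv.Perm (Fin j)) :
    ∃ σ' : Equiv.Perm (Fin n), ext j n (z ∘ σ) = ext j n z ∘ σ' := by
  classical
  refine ⟨σ.viaEmbedding (Fin.castLEEmb hj), ?_⟩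
  have hsup : Finset.univ.sup (z ∘ σ) = Finset.univ.sup z := by
    apply le_antisymm
    · apply Finset.sup_le
      intro i _
      exact Finset.le_sup (f := z) (Finset.mem_univ _)
    · apply Finset.sup_le
      intro i _
      have : z i = (z ∘ σ) (σ.symm i) := by simp
      rw [this]
      exact Finset.le_sup (f := z ∘ σ) (Finset.mem_univ _)
  funext i
  rw [Function.comp_apply]
  by_cases h : i.val < j
  · have h1 : i = Fin.castLEEmb hj ⟨i.val, h⟩ := rfl
    rw [h1, Equiv.Perm.viaEmbedding_apply]
    unfold ext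
    rw [dif_pos (by exact h), dif_pos (by exact (σ ⟨i.val, h⟩).2)]
    rfl
  · have h1 : i ∉ Set.range (Fin.castLEEmb hj) := by
      rintro ⟨m, rfl⟩
      exact h m.2
    rw [Equiv.Perm.viaEmbedding_apply_of_notMem _ _ _ h1]
    unfold ext
    rw [dif_neg h, dif_neg h, hsup]

/-- The key counting bound. -/
theorem section_count (hadd : ∀ u ∈ M, ∀ w, u + w ∈ M) {r : ℕ}
    (hlarge : ∀ u : Fin n → ℕ, r ≤ ∑ i, u i → u ∈ M)
    (hbor : ∀ u ∈ M, ∀ a b : Fin n, a < b → shift a b (u b) u ∈ M) :
    ∃ C : ℕ, ∀ j, 1 ≤ j → j ≤ n → ∀ t : ℕ,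
      j.factorial * {u : Fin n → ℕ | (∀ s : Fin n, j ≤ s.val → u s = 0) ∧ u ∉ Mp M t}.ncard
        ≤ (t + C + j) ^ j * #{z : Fin j → Fin (r + 1) | ext j n z ∈ XF M r} := by
  classical
  obtain ⟨C, hC⟩ := exists_const hadd hlarge
  refine ⟨C, ?_⟩
  intro j hj1 hjn t
  set s := t + C + j with hs
  have hs0 : 0 < s := by omega
  have hfin : {u : Fin n → ℕ | (∀ s : Fin n, j ≤ s.val → u s = 0) ∧ u ∉ Mp M t}.Finite :=
    (finite_compl_Mp hlarge t).subset (fun u hu => hu.2)
  set U : Finset (Fin n → ℕ) := hfin.toFinset with hU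
  have hmemU : ∀ u, u ∈ U ↔ (∀ s : Fin n, j ≤ s.val → u s = 0) ∧ u ∉ Mp M t := fun u => by
    simp only [U, Set.Finite.mem_toFinset, Set.mem_ofPred_eq]
  rw [Set.ncard_eq_toFinset_card _ hfin, ← hU]
  -- the sequences
  let w : (Fin n → ℕ) → Fin j → ℕ := fun u i => T u (Fin.castLE hjn i) + i.val
  let z : (Fin n → ℕ) → Fin j → ℕ := fun u i => w u i / s
  have hw_strict : ∀ u, StrictMono (w u) := by
    intro u a b hab
    have h1 : T u (Fin.castLE hjn a) ≤ T u (Fin.castLE hjn b) := T_mono u (by exact hab.le)
    have h2 : a.val < b.val := hab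
    show T u (Fin.castLE hjn a) + a.val < T u (Fin.castLE hjn b) + b.val
    omega
  have hz_mono : ∀ u, Monotone (z u) := by
    intro u a b hab
    exact Nat.div_le_div_right ((hw_strict u).monotone hab)
  have hTconst : ∀ u ∈ U, ∀ i : Fin n, j ≤ i.val → T u i = T u ⟨j - 1, by omega⟩ := by
    intro u hu i hi
    unfold T
    symm
    apply Finset.sum_subset
    · intro m hm
      rw [Finset.mem_Iic] at hm ⊢
      have h1 : m.val ≤ j - 1 := hm
      show m.val ≤ i.val
      omega
    · intro m _ hm2
      rw [Finset.mem_Iic] at hm2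
      apply ((hmemU u).mp hu).1
      by_contra hcon
      apply hm2
      show m.val ≤ j - 1
      omega
  -- the claim
  have hclaim : ∀ u ∈ U, ext j n (z u) ∈ XN M := by
    intro u hu
    rw [XN_mono (ext_mono (hz_mono u))]
    intro hcon
    apply ((hmemU u).mp hu).2
    let ys : ℕ → Fin n → ℕ := fun s' i => (T u i + s') / s
    have hys_mono : ∀ s', Monotone (ys s') := by
      intro s' a b hab
      apply Nat.div_le_div_right
      have := T_mono u hab
      omega
    let f : ℕ → Fin n → ℕ := fun s' => Dif (ys s')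
    have hsum : ∑ s' ∈ Finset.range s, f s' = u := by
      apply T_inj
      funext i
      rw [T_sum]
      have : ∀ s', T (f s') i = (T u i + s') / s := fun s' => by
        simp only [f]
        rw [T_Dif (hys_mono s')]
      simp only [this]
      exact hermite hs0 _
    have hf : ∀ s' ∈ Finset.Ico j s, f s' ∈ Mbar M := by
      intro s' hs'
      rw [Finset.mem_Ico] at hs'
      apply Mbar_T_up hadd hbor _ hcon
      rw [T_Dif (ext_mono (hz_mono u)), T_Dif (hys_mono s')]
      intro i
      show ext j n (z u) i ≤ (T u i + s') / s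
      unfold ext
      split_ifs with h
      · apply Nat.div_le_div_right
        show T u (Fin.castLE hjn ⟨i.val, h⟩) + i.val ≤ T u i + s'
        have : (Fin.castLE hjn ⟨i.val, h⟩ : Fin n) = i := rfl
        rw [this]
        omega
      · apply Finset.sup_le
        intro m _
        apply Nat.div_le_div_right
        show T u (Fin.castLE hjn m) + m.val ≤ T u i + s'
        have h1 : T u (Fin.castLE hjn m) ≤ T u i := T_mono u (by
          show m.val ≤ i.val
          have := m.2
          omega)
        have := m.2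
        omega
    have h1 := hC (Finset.Ico j s) f hf
    rw [Nat.card_Ico] at h1
    have h2 : s - j - C = t := by omega
    rw [h2] at h1
    have h3 : ∑ s' ∈ Finset.Ico j s, f s' ≤ u := by
      conv_rhs => rw [← hsum]
      apply Finset.sum_le_sum_of_subset_of_nonneg
      · intro m hm
        rw [Finset.mem_Ico] at hm
        rw [Finset.mem_range]
        omega
      · intro m _ _ i
        exact Nat.zero_le _
    exact Mp_up_le hadd h1 h3
  have hclaim2 : ∀ u ∈ U, ∀ σ : Equiv.Perm (Fin j), ext j n (z u ∘ σ) ∈ XN M := by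
    intro u hu σ
    obtain ⟨σ', hσ'⟩ := ext_perm hjn (z u) σ
    rw [hσ']
    exact XN_sym (hclaim u hu) σ'
  have hbound : ∀ u ∈ U, ∀ i, z u i < r := by
    intro u hu i
    have h1 := XN_bound hlarge (hclaim u hu) (Fin.castLE hjn i)
    have h2 : ext j n (z u) (Fin.castLE hjn i) = z u i := by
      unfold ext
      rw [dif_pos (by exact i.2)]
      rfl
    rw [h2] at h1
    exact h1
  -- the injection
  have hcard : #(U ×ˢ (Finset.univ : Finset (Equiv.Perm (Fin j))))
      ≤ #((Finset.univ.filter (fun z : Fin j → Fin (r + 1) => ext j n z ∈ XF M r)) ×ˢ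
        (Finset.univ : Finset (Fin j → Fin s))) := by
    apply Finset.card_le_card_of_injOn
      (fun p => (fun i => Fin.ofNat (r + 1) (z p.1 (p.2 i)),
        fun i => ⟨w p.1 (p.2 i) % s, Nat.mod_lt _ hs0⟩))
    · rintro ⟨u, σ⟩ hp
      rw [Finset.mem_coe, Finset.mem_product] at hp
      rw [Finset.mem_coe, Finset.mem_product]
      refine ⟨?_, Finset.mem_univ _⟩
      rw [Finset.mem_filter]
      refine ⟨Finset.mem_univ _, ?_⟩
      rw [mem_XF, val_ext]
      have : (fun i => (Fin.ofNat (r + 1) (z u (σ i))).val) = z u ∘ σ := by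
        funext i
        simp only [Fin.val_ofNat, Function.comp_apply]
        exact Nat.mod_eq_of_lt (by have := hbound u hp.1 (σ i); omega)
      simp only [this]
      exact hclaim2 u hp.1 σ
    · rintro ⟨u, σ⟩ hp ⟨u', σ'⟩ hp' h
      rw [Finset.mem_coe, Finset.mem_product] at hp hp'
      simp only [Prod.mk.injEq] at h
      obtain ⟨ha, hb⟩ := h
      have hw_eq : w u ∘ σ = w u' ∘ σ' := by
        funext i
        have h1 := congrArg Fin.val (congrFun ha i)
        have h2 := congrArg Fin.val (congrFun hb i)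
        simp only [Fin.val_ofNat] at h1 h2
        rw [Nat.mod_eq_of_lt (by have := hbound u hp.1 (σ i); omega),
          Nat.mod_eq_of_lt (by have := hbound u' hp'.1 (σ' i); omega)] at h1
        simp only [Function.comp_apply]
        rw [← Nat.div_add_mod (w u (σ i)) s, ← Nat.div_add_mod (w u' (σ' i)) s, h2]
        simp only [z] at h1
        rw [h1]
      have hw_eq2 : w u = w u' := by
        have h1 : w u' ∘ (σ.symm.trans σ') = w u := by
          funext i
          have := congrFun hw_eq (σ.symm i)
          simp only [Function.comp_apply, Equiv.apply_symm_apply] at this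
          simp only [Function.comp_apply, Equiv.trans_apply]
          exact this.symm
        have h2 := Tuple.unique_monotone (f := w u') (σ := σ.symm.trans σ') (τ := 1)
          (by rw [h1]; exact (hw_strict u).monotone) (by simpa using (hw_strict u').monotone)
        rw [h1] at h2
        simpa using h2
      have huu : u = u' := by
        have hT : ∀ i : Fin n, i.val < j → T u i = T u' i := by
          intro i hi
          have h1 := congrFun hw_eq2 ⟨i.val, hi⟩
          have h2 : T u i + i.val = T u' i + i.val := h1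
          omega
        funext i
        by_cases hi : i.val < j
        · exact T_inj_upto j hT i.val i rfl hi
        · rw [((hmemU u).mp hp.1).1 i (by omega), ((hmemU u').mp hp'.1).1 i (by omega)]
      subst huu
      have hσ : σ = σ' := by
        ext i
        have := congrFun hw_eq i
        simp only [Function.comp_apply] at this
        rw [(hw_strict u).injective this]
      rw [hσ]
  rw [Finset.card_product, Finset.card_product, Finset.card_univ, Finset.card_univ,
    Fintype.card_perm, Fintype.card_fin, Fintype.card_fun, Fintype.card_fin, Fintype.card_fin] at hcard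
  calc j.factorial * #U = #U * j.factorial := by ring
    _ ≤ _ := hcard
    _ = _ := by ring

end

end Pool.Agent.R829.St
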