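import Pool.Agent.R829.StAlg

set_option autoImplicit false

namespace Pool.Agent.R829.St

open Finset TensorProduct

section
variable {k : Type*} [Field k] {d : ℕ} {A : Type*} [CommRing A] [Algebra k A]

/-- The matrix of indeterminates (first row is a constant vector). -/
noncomputable def Cgen (k : Type*) [Field k] (d : ℕ) (i t : Fin (d + 1)) :
    MvPolynomial (Fin d × Fin (d + 1)) k :=
  Fin.cases (motive := fun _ => MvPolynomial (Fin d × Fin (d + 1)) k)
    (if t = Fin.last d then 1 else 0) (fun j => MvPolynomial.X (Fin.rev j, t)) i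

/-- The numerical matrix. -/
def Cnum (c : Fin d → Fin (d + 1) → k) (i t : Fin (d + 1)) : k :=
  Fin.cases (motive := fun _ => k)
    (if t = Fin.last d then 1 else 0) (fun j => c (Fin.rev j) t) i

lemma Cgen_zero (t : Fin (d + 1)) : Cgen k d 0 t = if t = Fin.last d then 1 else 0 := rfl
lemma Cgen_succ (j : Fin d) (t : Fin (d + 1)) :
    Cgen k d j.succ t = MvPolynomial.X (Fin.rev j, t) := rfl
lemma Cnum_zero (c : Fin d → Fin (d + 1) → k) (t : Fin (d + 1)) :
    Cnum c 0 t = if t = Fin.last d then 1 else 0 := rfl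
lemma Cnum_succ (c : Fin d → Fin (d + 1) → k) (j : Fin d) (t : Fin (d + 1)) :
    Cnum c j.succ t = c (Fin.rev j) t := rfl

lemma eval_Cgen (c : Fin d → Fin (d + 1) → k) (i t : Fin (d + 1)) :
    MvPolynomial.eval (fun p => c p.1 p.2) (Cgen k d i t) = Cnum c i t := by
  refine Fin.cases ?_ (fun j => ?_) i
  · rw [Cgen_zero, Cnum_zero]; split_ifs <;> simp
  · rw [Cgen_succ, Cnum_succ]; simp

/-- Generic linear forms. -/
noncomputable def Ygen (k : Type*) [Field k] [Algebra k A] (x : Fin (d + 1) → A) (i : Fin (d + 1)) :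
    MvPolynomial (Fin d × Fin (d + 1)) k ⊗[k] A :=
  ∑ t, Cgen k d i t ⊗ₜ[k] x t

/-- Numerical linear forms. -/
noncomputable def Ynum (c : Fin d → Fin (d + 1) → k) (x : Fin (d + 1) → A) (i : Fin (d + 1)) : A :=
  ∑ t, Cnum c i t • x t

variable {Γ : Type*} [AddCommMonoid Γ] [LinearOrder Γ] [IsOrderedCancelAddMonoid Γ]

/-- The generic initial exponents. -/
def Mgen (k : Type*) [Field k] [Algebra k A] (ord : (Fin (d + 1) → ℕ) →+ Γ)
    (x : Fin (d + 1) → A) : Set (Fin (d + 1) → ℕ) :=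
  {u | ∃ P : MvPolynomial (Fin d × Fin (d + 1)) k, P ≠ 0 ∧
    (P ⊗ₜ[k] (1 : A)) * mon (Ygen k x) u ∈ hi ord (Ygen k x) u}

lemma Mgen_add (ord : (Fin (d + 1) → ℕ) →+ Γ) (x : Fin (d + 1) → A)
    {u : Fin (d + 1) → ℕ} (hu : u ∈ Mgen k ord x) (w : Fin (d + 1) → ℕ) :
    u + w ∈ Mgen k ord x := by
  obtain ⟨P, hP, h⟩ := hu
  refine ⟨P, hP, ?_⟩
  have := mon_mul_hi ord (Ygen k x) w h
  rw [mon_add]
  rw [show mon (Ygen k x) w * (P ⊗ₜ[k] (1 : A) * mon (Ygen k x) u)
    = P ⊗ₜ[k] (1 : A) * (mon (Ygen k x) u * mon (Ygen k x) w) by ring] at this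
  exact this

omit [IsOrderedCancelAddMonoid Γ] in
lemma Mgen_large (ord : (Fin (d + 1) → ℕ) →+ Γ) (x : Fin (d + 1) → A) (r : ℕ)
    (hr : Ideal.span (Set.range x) ^ r = ⊥) (u : Fin (d + 1) → ℕ) (hu : r ≤ ∑ i, u i) :
    u ∈ Mgen k ord x := by
  refine ⟨1, one_ne_zero, ?_⟩
  let ι : A →+* MvPolynomial (Fin d × Fin (d + 1)) k ⊗[k] A :=
    (Algebra.TensorProduct.includeRight :
      A →ₐ[k] MvPolynomial (Fin d × Fin (d + 1)) k ⊗[k] A).toRingHom
  have h1 : ∀ i, Ygen k x i ∈ (Ideal.span (Set.range x)).map ι := by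
    intro i
    unfold Ygen
    refine Ideal.sum_mem _ ?_
    intro t _
    have : Cgen k d i t ⊗ₜ[k] x t = (Cgen k d i t ⊗ₜ[k] (1 : A)) * ι (x t) := by
      simp [ι]
    rw [this]
    exact Ideal.mul_mem_left _ _ (Ideal.mem_map_of_mem _ (Ideal.subset_span ⟨t, rfl⟩))
  have h2 := mon_mem_pow h1 u
  have h3 := Ideal.pow_le_pow_right hu h2
  rw [← Ideal.map_pow, hr, Ideal.map_bot] at h3
  rw [Ideal.mem_bot.mp h3, mul_zero]
  exact Ideal.zero_mem _

/-- The substitution homomorphism. -/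
noncomputable def Phi (k : Type*) [Field k] {d : ℕ} (A : Type*) [CommRing A] [Algebra k A]
    (a : Fin (d + 1)) (j : Fin d) :
    MvPolynomial (Fin d × Fin (d + 1)) k ⊗[k] A →ₐ[k]
      Polynomial (MvPolynomial (Fin d × Fin (d + 1)) k ⊗[k] A) :=
  Algebra.TensorProduct.productMap
    (MvPolynomial.aeval (fun p : Fin d × Fin (d + 1) =>
      Polynomial.C ((MvPolynomial.X p : MvPolynomial (Fin d × Fin (d + 1)) k) ⊗ₜ[k] (1 : A))
      + if p.1 = Fin.rev j then Polynomial.X * Polynomial.C (Cgen k d a p.2 ⊗ₜ[k] (1 : A)) else 0))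
    ((Polynomial.CAlgHom (R := k)).comp Algebra.TensorProduct.includeRight)

lemma Phi_Y (x : Fin (d + 1) → A) (a : Fin (d + 1)) (j : Fin d) (i : Fin (d + 1)) :
    Phi k A a j (Ygen k x i) =
      Polynomial.C (Ygen k x i) + if i = j.succ then Polynomial.X * Polynomial.C (Ygen k x a) else 0 := by
  have h0 : ∀ i t, Phi k A a j (Cgen k d i t ⊗ₜ[k] x t) =
      Polynomial.C (Cgen k d i t ⊗ₜ[k] x t) +
        if i = j.succ then Polynomial.X * Polynomial.C (Cgen k d a t ⊗ₜ[k] x t) else 0 := by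
    intro i t
    unfold Phi
    rw [Algebra.TensorProduct.productMap_apply_tmul]
    refine Fin.cases ?_ (fun j' => ?_) i
    · rw [Cgen_zero]
      rw [if_neg (Fin.succ_ne_zero j).symm]
      split_ifs <;> simp
    · rw [Cgen_succ, MvPolynomial.aeval_X]
      simp only [Fin.rev_inj, Fin.succ_inj]
      have e1 : ((Polynomial.CAlgHom (R := k)).comp
          (Algebra.TensorProduct.includeRight : A →ₐ[k]
            MvPolynomial (Fin d × Fin (d + 1)) k ⊗[k] A)) (x t)
          = Polynomial.C ((1 : MvPolynomial (Fin d × Fin (d + 1)) k) ⊗ₜ[k] x t) := rfl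
      rw [e1, add_mul, ← Polynomial.C_mul, Algebra.TensorProduct.tmul_mul_tmul, one_mul, mul_one]
      split_ifs
      · rw [mul_assoc, ← Polynomial.C_mul, Algebra.TensorProduct.tmul_mul_tmul, one_mul, mul_one]
      · simp
  unfold Ygen
  rw [map_sum]
  simp only [h0]
  rw [Finset.sum_add_distrib]
  congr 1
  · rw [map_sum]
  · split_ifs
    · rw [map_sum, Finset.mul_sum]
    · simp

lemma Phi_coeff_zero (a : Fin (d + 1)) (j : Fin d) (P : MvPolynomial (Fin d × Fin (d + 1)) k) :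
    (Phi k A a j (P ⊗ₜ[k] 1)).coeff 0 = P ⊗ₜ[k] 1 := by
  let f : MvPolynomial (Fin d × Fin (d + 1)) k →ₐ[k]
      MvPolynomial (Fin d × Fin (d + 1)) k ⊗[k] A :=
    ((Polynomial.aeval (R := MvPolynomial (Fin d × Fin (d + 1)) k ⊗[k] A)
        (0 : MvPolynomial (Fin d × Fin (d + 1)) k ⊗[k] A)).restrictScalars k).comp
      ((Phi k A a j).comp Algebra.TensorProduct.includeLeft)
  have hf : f = Algebra.TensorProduct.includeLeft := by
    apply MvPolynomial.algHom_ext
    intro p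
    simp only [f, Phi, AlgHom.comp_apply, AlgHom.restrictScalars_apply]
    rw [Algebra.TensorProduct.includeLeft_apply, Algebra.TensorProduct.productMap_apply_tmul,
      map_one, mul_one, MvPolynomial.aeval_X, Polynomial.aeval_def, Polynomial.eval₂_add,
      Polynomial.eval₂_C]
    split_ifs <;> simp
  have h1 : f P = P ⊗ₜ[k] 1 := by rw [hf]; rfl
  rw [Polynomial.coeff_zero_eq_eval_zero, ← Polynomial.coe_aeval_eq_eval]
  exact h1

/-- The Borel property. -/
lemma Mgen_borel (ord : (Fin (d + 1) → ℕ) →+ Γ)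
    (hlt : ∀ a b : Fin (d + 1), a < b → ord (Pi.single a 1) < ord (Pi.single b 1))
    (x : Fin (d + 1) → A)
    {u : Fin (d + 1) → ℕ} (hu : u ∈ Mgen k ord x) {a b : Fin (d + 1)} (hab : a < b) :
    shift a b (u b) u ∈ Mgen k ord x := by
  obtain ⟨P, hP, h⟩ := hu
  refine ⟨P, hP, ?_⟩
  obtain ⟨j, rfl⟩ : ∃ j : Fin d, j.succ = b := Fin.exists_succ_eq.mpr (ne_of_gt (lt_of_le_of_lt (Fin.zero_le a) hab))
  apply borel_abstract ord (Ygen k x) (Phi k A a j).toRingHom hab.ne (hlt _ _ hab)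
  · have := Phi_Y (k := k) x a j j.succ
    rw [if_pos rfl] at this
    exact this
  · intro i hi
    have := Phi_Y (k := k) x a j i
    rw [if_neg hi, add_zero] at this
    exact this
  · exact Phi_coeff_zero a j P
  · exact h

lemma tsmul_eq (p : MvPolynomial (Fin d × Fin (d + 1)) k)
    (z : MvPolynomial (Fin d × Fin (d + 1)) k ⊗[k] A) : p • z = (p ⊗ₜ[k] (1 : A)) * z := by
  induction z using TensorProduct.induction_on with
  | zero => simp
  | tmul q a =>
    rw [TensorProduct.smul_tmul', Algebra.TensorProduct.tmul_mul_tmul, one_mul, smul_eq_mul]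
  | add z w hz hw => rw [smul_add, mul_add, hz, hw]

omit [IsOrderedCancelAddMonoid Γ] in
lemma Mgen_card (ord : (Fin (d + 1) → ℕ) →+ Γ) (hinj : Function.Injective ord)
    (x : Fin (d + 1) → A) [Module.Finite k A] (G : Finset (Fin (d + 1) → ℕ))
    (hG : ∀ u ∈ G, u ∉ Mgen k ord x) : G.card ≤ Module.finrank k A := by
  classical
  have hli : LinearIndependent (MvPolynomial (Fin d × Fin (d + 1)) k)
      (fun u : G => mon (Ygen k x) u.1) := by
    rw [Fintype.linearIndependent_iff]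
    intro g hg
    by_contra hcon
    push Not at hcon
    obtain ⟨u1, hu1⟩ := hcon
    let S : Finset G := Finset.univ.filter (fun u => g u ≠ 0)
    have hS : S.Nonempty := ⟨u1, by simp [S, hu1]⟩
    obtain ⟨u0, hu0, hmin⟩ := S.exists_min_image (fun u => ord u.1) hS
    simp only [S, Finset.mem_filter, Finset.mem_univ, true_and] at hu0 hmin
    apply hG u0.1 u0.2
    refine ⟨g u0, hu0, ?_⟩
    rw [← Finset.add_sum_erase Finset.univ _ (Finset.mem_univ u0)] at hg
    have e : g u0 • mon (Ygen k x) u0.1 = (g u0 ⊗ₜ[k] (1 : A)) * mon (Ygen k x) u0.1 := by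
      exact tsmul_eq _ _
    rw [← e, eq_neg_of_add_eq_zero_left hg]
    apply neg_mem
    refine Ideal.sum_mem _ ?_
    intro u hu
    by_cases h0 : g u = 0
    · rw [h0, zero_smul]; exact Ideal.zero_mem _
    · rw [tsmul_eq]
      apply Ideal.mul_mem_left
      apply mon_mem_hi
      refine lt_of_le_of_ne (hmin u h0) ?_
      intro h
      have h2 := hinj h
      rw [Finset.mem_erase] at hu
      exact hu.1 (Subtype.ext h2.symm)
  have h1 := hli.fintype_card_le_finrank
  rw [Fintype.card_coe, Module.finrank_baseChange] at h1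
  exact h1

/-- Evaluation at a point. -/
noncomputable def ev (c : Fin d → Fin (d + 1) → k) (A : Type*) [CommRing A] [Algebra k A] :
    MvPolynomial (Fin d × Fin (d + 1)) k ⊗[k] A →ₐ[k] A :=
  Algebra.TensorProduct.productMap
    (MvPolynomial.aeval (fun p : Fin d × Fin (d + 1) => algebraMap k A (c p.1 p.2)))
    (AlgHom.id k A)

lemma ev_tmul (c : Fin d → Fin (d + 1) → k) (P : MvPolynomial (Fin d × Fin (d + 1)) k) (z : A) :
    ev c A (P ⊗ₜ[k] z) = algebraMap k A (MvPolynomial.eval (fun p => c p.1 p.2) P) * z := by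
  unfold ev
  rw [Algebra.TensorProduct.productMap_apply_tmul]
  congr 1
  have := MvPolynomial.aeval_algebraMap_apply (R := k) (A := k) A (fun p : Fin d × Fin (d + 1) => c p.1 p.2) P
  rw [show (fun p : Fin d × Fin (d + 1) => algebraMap k A (c p.1 p.2))
    = (algebraMap k A) ∘ (fun p : Fin d × Fin (d + 1) => c p.1 p.2) from rfl, this,
    MvPolynomial.aeval_eq_eval]

lemma ev_Y (c : Fin d → Fin (d + 1) → k) (x : Fin (d + 1) → A) (i : Fin (d + 1)) :
    ev c A (Ygen k x i) = Ynum c x i := by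
  unfold Ygen Ynum
  rw [map_sum]
  apply Finset.sum_congr rfl
  intro t _
  rw [ev_tmul, eval_Cgen, Algebra.smul_def]

omit [IsOrderedCancelAddMonoid Γ] in
lemma spec (ord : (Fin (d + 1) → ℕ) →+ Γ) (x : Fin (d + 1) → A) (c : Fin d → Fin (d + 1) → k)
    (P : MvPolynomial (Fin d × Fin (d + 1)) k)
    (hP : MvPolynomial.eval (fun p => c p.1 p.2) P ≠ 0) (u : Fin (d + 1) → ℕ)
    (h : (P ⊗ₜ[k] (1 : A)) * mon (Ygen k x) u ∈ hi ord (Ygen k x) u) :
    mon (Ynum c x) u ∈ hi ord (Ynum c x) u := by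
  have h1 : hi ord (Ygen k x) u ≤ (hi ord (Ynum c x) u).comap (ev c A).toRingHom := by
    rw [hi_le_iff]
    intro v hv
    rw [Ideal.mem_comap, mon_map]
    have : (fun i => (ev c A).toRingHom (Ygen k x i)) = Ynum c x := by
      funext i; exact ev_Y c x i
    rw [this]
    exact mon_mem_hi ord _ hv
  have h2 := h1 h
  rw [Ideal.mem_comap, map_mul, mon_map] at h2
  have h3 : (fun i => (ev c A).toRingHom (Ygen k x i)) = Ynum c x := by
    funext i; exact ev_Y c x i
  rw [h3] at h2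
  have h4 : (ev c A).toRingHom (P ⊗ₜ[k] (1 : A))
      = algebraMap k A (MvPolynomial.eval (fun p => c p.1 p.2) P) := by
    have := ev_tmul c P (1 : A)
    rw [mul_one] at this
    exact this
  rw [h4] at h2
  have h5 : IsUnit (algebraMap k A (MvPolynomial.eval (fun p => c p.1 p.2) P)) :=
    (IsUnit.mk0 _ hP).map _
  exact (Ideal.unit_mul_mem_iff_mem _ h5).mp h2

end

end Pool.Agent.R829.St
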