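import Pool.Agent.R829.StComb3

set_option autoImplicit false

namespace Pool.Agent.R829.St

open Finset

section
variable {k R : Type*} [Field k] [CommRing R] [Algebra k R] [IsLocalRing R]

lemma simple_length_one (hres : ∀ f : R, ∃ a : k, f - algebraMap k R a ∈ IsLocalRing.maximalIdeal R)
    (Q : Type*) [AddCommGroup Q] [Module R Q] [Module k Q] [IsScalarTower k R Q]
    [IsSimpleModule R Q] : Module.length k Q = 1 := by
  rw [Module.length_eq_one_iff]
  have hmax : (Module.annihilator R Q).IsMaximal := IsSimpleModule.annihilator_isMaximal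
  have hann : Module.annihilator R Q = IsLocalRing.maximalIdeal R :=
    IsLocalRing.eq_maximalIdeal hmax
  have hnt : Nontrivial Q := IsSimpleModule.nontrivial R Q
  refine (isSimpleModule_iff k Q).mpr ⟨?_⟩
  intro S
  let S' : Submodule R Q :=
    { carrier := S
      add_mem' := fun ha hb => S.add_mem ha hb
      zero_mem' := S.zero_mem
      smul_mem' := by
        intro r v hv
        obtain ⟨a, ha⟩ := hres r
        rw [← hann, Module.mem_annihilator] at ha
        have h1 := ha v
        rw [sub_smul, sub_eq_zero] at h1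
        rw [h1, algebraMap_smul]
        exact S.smul_mem a hv }
  rcases eq_bot_or_eq_top S' with h | h
  · left
    ext v
    have : v ∈ S' ↔ v ∈ (⊥ : Submodule R Q) := by rw [h]
    exact this
  · right
    ext v
    have : v ∈ S' ↔ v ∈ (⊤ : Submodule R Q) := by rw [h]
    exact this

lemma length_eq_of_finiteLength
    (hres : ∀ f : R, ∃ a : k, f - algebraMap k R a ∈ IsLocalRing.maximalIdeal R)
    (N : Type*) [AddCommGroup N] [Module R N] (h : IsFiniteLength R N) :
    ∀ [Module k N] [IsScalarTower k R N], Module.length R N = Module.length k N := by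
  induction h with
  | of_subsingleton =>
    intro _ _
    rw [Module.length_eq_zero, Module.length_eq_zero]
  | @of_simple_quotient M _ _ N hs hN ih =>
    intro _ _
    have h1 : Module.length R M = Module.length R N + Module.length R (M ⧸ N) :=
      Module.length_eq_add_of_exact N.subtype N.mkQ N.injective_subtype N.mkQ_surjective
        (LinearMap.exact_subtype_mkQ N)
    have h2 : Module.length k M = Module.length k N + Module.length k (M ⧸ N) :=
      Module.length_eq_add_of_exact (N.subtype.restrictScalars k) (N.mkQ.restrictScalars k)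
        N.injective_subtype N.mkQ_surjective (LinearMap.exact_subtype_mkQ N)
    rw [h1, h2, ih, simple_length_one hres (M ⧸ N), Module.length_eq_one R (M ⧸ N)]

lemma length_eq_finrank
    (hres : ∀ f : R, ∃ a : k, f - algebraMap k R a ∈ IsLocalRing.maximalIdeal R)
    (N : Type*) [AddCommGroup N] [Module R N] [Module k N] [IsScalarTower k R N]
    [Module.Finite k N] : Module.length R N = Module.finrank k N := by
  rw [← Module.length_eq_finrank k N]
  apply length_eq_of_finiteLength hres
  rw [← Module.length_ne_top_iff]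
  have : IsNoetherian R N := isNoetherian_of_tower k inferInstance
  have : IsArtinian R N := isArtinian_of_tower k inferInstance
  exact Module.length_ne_top

end

section
variable {k : Type*} [Field k] {m : ℕ}

lemma mem_span_X_of_constantCoeff (f : MvPowerSeries (Fin m) k)
    (hf : MvPowerSeries.constantCoeff f = 0) :
    f ∈ Ideal.span (Set.range (MvPowerSeries.X : Fin m → MvPowerSeries (Fin m) k)) := by
  classical
  -- first index in the support
  let first : (Fin m →₀ ℕ) → Fin m → Prop := fun e i => e i ≠ 0 ∧ ∀ j < i, e j = 0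
  have hfirst : ∀ e : Fin m →₀ ℕ, e ≠ 0 → ∃! i, first e i := by
    intro e he
    have hne : e.support.Nonempty := Finsupp.support_nonempty_iff.mpr he
    refine ⟨e.support.min' hne, ⟨?_, ?_⟩, ?_⟩
    · exact Finsupp.mem_support_iff.mp (Finset.min'_mem _ hne)
    · intro j hj
      by_contra hcon
      exact absurd (Finset.min'_le _ j (Finsupp.mem_support_iff.mpr hcon)) (not_le.mpr hj)
    · rintro i ⟨h1, h2⟩
      apply le_antisymm
      · by_contra hcon
        push Not at hcon
        exact Finsupp.mem_support_iff.mp (Finset.min'_mem _ hne) (h2 _ hcon)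
      · exact Finset.min'_le _ i (Finsupp.mem_support_iff.mpr h1)
  let g : Fin m → MvPowerSeries (Fin m) k := fun i e =>
    if first (e + Finsupp.single i 1) i then MvPowerSeries.coeff (e + Finsupp.single i 1) f else 0
  have hfg : f = ∑ i, MvPowerSeries.X i * g i := by
    ext e
    rw [map_sum]
    have h1 : ∀ i, MvPowerSeries.coeff e (MvPowerSeries.X i * g i)
        = if first e i then MvPowerSeries.coeff e f else 0 := by
      intro i
      rw [MvPowerSeries.X_def, MvPowerSeries.coeff_monomial_mul, one_mul]
      by_cases h2 : Finsupp.single i 1 ≤ e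
      · rw [if_pos h2]
        have h3 : e - Finsupp.single i 1 + Finsupp.single i 1 = e := tsub_add_cancel_of_le h2
        show (if first (e - Finsupp.single i 1 + Finsupp.single i 1) i then
          MvPowerSeries.coeff (e - Finsupp.single i 1 + Finsupp.single i 1) f else 0) = _
        rw [h3]
      · rw [if_neg h2, if_neg]
        intro h3
        apply h2
        rw [Finsupp.single_le_iff]
        exact Nat.one_le_iff_ne_zero.mpr h3.1
    simp only [h1]
    by_cases he : e = 0
    · subst he
      rw [MvPowerSeries.coeff_zero_eq_constantCoeff_apply, hf]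
      simp
    · obtain ⟨i, hi, hu⟩ := hfirst e he
      rw [Finset.sum_eq_single i]
      · rw [if_pos hi]
      · intro j _ hj
        rw [if_neg]
        intro h
        exact hj (hu j h)
      · intro h
        exact absurd (Finset.mem_univ i) h
  rw [hfg]
  refine Ideal.sum_mem _ ?_
  intro i _
  exact Ideal.mul_mem_right _ _ (Ideal.subset_span ⟨i, rfl⟩)

lemma res_span_X (f : MvPowerSeries (Fin m) k) : ∃ a : k,
    f - algebraMap k (MvPowerSeries (Fin m) k) a ∈
      Ideal.span (Set.range (MvPowerSeries.X : Fin m → MvPowerSeries (Fin m) k)) := by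
  refine ⟨MvPowerSeries.constantCoeff f, ?_⟩
  apply mem_span_X_of_constantCoeff
  rw [map_sub]
  have : algebraMap k (MvPowerSeries (Fin m) k) (MvPowerSeries.constantCoeff f)
      = MvPowerSeries.C (MvPowerSeries.constantCoeff f) := rfl
  rw [this, MvPowerSeries.constantCoeff_C, sub_self]

lemma res_max (f : MvPowerSeries (Fin m) k) : ∃ a : k,
    f - algebraMap k (MvPowerSeries (Fin m) k) a ∈
      IsLocalRing.maximalIdeal (MvPowerSeries (Fin m) k) := by
  obtain ⟨a, ha⟩ := res_span_X f
  refine ⟨a, ?_⟩
  have : Ideal.span (Set.range (MvPowerSeries.X : Fin m → MvPowerSeries (Fin m) k))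
      ≤ IsLocalRing.maximalIdeal (MvPowerSeries (Fin m) k) := by
    rw [Ideal.span_le]
    rintro _ ⟨i, rfl⟩
    rw [SetLike.mem_coe, IsLocalRing.mem_maximalIdeal, mem_nonunits_iff,
      MvPowerSeries.isUnit_iff_constantCoeff, MvPowerSeries.constantCoeff_X]
    simp
  exact this ha

end

/-- The monomial order used. -/
noncomputable def ordLex (m : ℕ) : (Fin m → ℕ) →+ Lex (Fin m → ℕ) where
  toFun u := toLex (u ∘ Fin.rev)
  map_zero' := rfl
  map_add' _ _ := rfl

lemma ordLex_inj (m : ℕ) : Function.Injective (ordLex m) := by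
  intro u v h
  have h1 : u ∘ Fin.rev = v ∘ Fin.rev := toLex.injective h
  funext i
  have := congrFun h1 (Fin.rev i)
  simpa using this

lemma ordLex_pos (m : ℕ) (i : Fin m) : 0 < ordLex m (Pi.single i 1) := by
  refine ⟨Fin.rev i, ?_, ?_⟩
  · intro j hj
    have : Fin.rev j ≠ i := by
      intro h
      rw [← h, Fin.rev_rev] at hj
      exact lt_irrefl _ hj
    show (0 : ℕ) = (Pi.single i 1 : Fin m → ℕ) (Fin.rev j)
    rw [Pi.single_eq_of_ne this]
  · show (0 : ℕ) < (Pi.single i 1 : Fin m → ℕ) (Fin.rev (Fin.rev i))
    simp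

lemma ordLex_lt (m : ℕ) (a b : Fin m) (hab : a < b) :
    ordLex m (Pi.single a 1) < ordLex m (Pi.single b 1) := by
  refine ⟨Fin.rev b, ?_, ?_⟩
  · intro j hj
    have h1 : b < Fin.rev j := by rw [Fin.lt_rev_iff]; exact hj
    show (Pi.single a 1 : Fin m → ℕ) (Fin.rev j) = (Pi.single b 1 : Fin m → ℕ) (Fin.rev j)
    rw [Pi.single_eq_of_ne (ne_of_gt (hab.trans h1)), Pi.single_eq_of_ne (ne_of_gt h1)]
  · show (Pi.single a 1 : Fin m → ℕ) (Fin.rev (Fin.rev b)) <
      (Pi.single b 1 : Fin m → ℕ) (Fin.rev (Fin.rev b))
    rw [Fin.rev_rev, Pi.single_eq_of_ne (ne_of_gt hab)]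
    simp

end Pool.Agent.R829.St
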