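import Pool.Agent.R829.StLen

set_option autoImplicit false

namespace Pool.Agent.R829.St

open Finset

/-- For k infinite, R=k[[x_0..x_d]], I m-primary: for general linear forms l_j, the sum over i<d of s(d+1,d+1-i)·e(I R/(l_1..l_i)) is at most (d+1)!·length(R/I), s unsigned Stirling of first kind. -/
theorem stirling_lech :
  ∀ (k : Type) [Field k] [Infinite k] (d : ℕ) (I : Ideal (MvPowerSeries (Fin (d+1)) k)),
    I.radical = Ideal.span (Set.range (MvPowerSeries.X : Fin (d+1) → MvPowerSeries (Fin (d+1)) k)) →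
    ∃ P : MvPolynomial (Fin d × Fin (d+1)) k, P ≠ 0 ∧
      ∀ c : Fin d → Fin (d+1) → k, MvPolynomial.eval (fun p => c p.1 p.2) P ≠ 0 →
        ∀ e : Fin d → ℝ,
          (∀ i : Fin d, Filter.Tendsto
            (fun n : ℕ => ((Nat.factorial (d+1-i.val) : ℝ) *
              ((Module.length (MvPowerSeries (Fin (d+1)) k)
                (MvPowerSeries (Fin (d+1)) k ⧸
                  (I ^ n ⊔ Ideal.span {f : MvPowerSeries (Fin (d+1)) k |
                    ∃ j : Fin d, j.val < i.val ∧
                      f = ∑ t : Fin (d+1), c j t • (MvPowerSeries.X t : MvPowerSeries (Fin (d+1)) k)}))).toNat : ℝ))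
              / (n : ℝ) ^ (d+1-i.val))
            Filter.atTop (nhds (e i))) →
          ∑ i : Fin d, ((ascPochhammer ℕ (d+1)).coeff (d+1-i.val) : ℝ) * e i
            ≤ (Nat.factorial (d+1) : ℝ) *
              ((Module.length (MvPowerSeries (Fin (d+1)) k)
                (MvPowerSeries (Fin (d+1)) k ⧸ I)).toNat : ℝ) := by
  intro k _ _ d I hI
  classical
  obtain ⟨r, hr⟩ := Ideal.exists_pow_le_of_le_radical_of_fg (I := Ideal.span (Set.range
    (MvPowerSeries.X : Fin (d+1) → MvPowerSeries (Fin (d+1)) k))) (J := I) hI.ge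
    ⟨(Set.finite_range
      (MvPowerSeries.X : Fin (d+1) → MvPowerSeries (Fin (d+1)) k)).toFinset, by simp⟩
  obtain ⟨M, P, hP, hadd, hlarge, hbor, hfinA, hcard, hsec⟩ :=
    alg_main (k := k) (MvPowerSeries.X : Fin (d+1) → MvPowerSeries (Fin (d+1)) k) I r hr
      res_span_X (ordLex (d + 1)) (ordLex_inj _) (ordLex_pos _) (ordLex_lt _)
  refine ⟨P, hP, ?_⟩
  intro c hc e he
  obtain ⟨C, hC⟩ := section_count hadd hlarge hbor
  -- bound on each multiplicity
  have hbound : ∀ i : Fin d, e i ≤ (#{z : Fin (d + 1 - i.val) → Fin (r + 1) |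
      ext (d + 1 - i.val) (d + 1) z ∈ XF M r} : ℝ) := by
    intro i
    set j := d + 1 - i.val with hj
    set cj := #{z : Fin j → Fin (r + 1) | ext j (d + 1) z ∈ XF M r} with hcj
    have hlim : Filter.Tendsto (fun n : ℕ => (1 + ((C + j : ℕ) : ℝ) / (n : ℝ)) ^ j * (cj : ℝ))
        Filter.atTop (nhds ((1 + 0) ^ j * (cj : ℝ))) := by
      apply Filter.Tendsto.mul_const
      apply Filter.Tendsto.pow
      apply Filter.Tendsto.const_add
      exact tendsto_const_div_atTop_nhds_zero_nat _
    rw [add_zero, one_pow, one_mul] at hlim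
    refine le_of_tendsto_of_tendsto (he i) hlim ?_
    filter_upwards [Filter.eventually_ge_atTop 1] with n hn
    obtain ⟨hfin, hle⟩ := hsec c hc i.val i.2.le n
    have h1 := length_eq_finrank (k := k) (res_max (k := k) (m := d + 1))
      (MvPowerSeries (Fin (d+1)) k ⧸ (I ^ n ⊔ Ideal.span {f : MvPowerSeries (Fin (d+1)) k |
                    ∃ j : Fin d, j.val < i.val ∧
                      f = ∑ t : Fin (d+1), c j t • (MvPowerSeries.X t : MvPowerSeries (Fin (d+1)) k)}))
    rw [h1, ENat.toNat_coe]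
    have h2 := hC j (by omega) (by omega) n
    have h3 : j.factorial * Module.finrank k
        (MvPowerSeries (Fin (d+1)) k ⧸ (I ^ n ⊔ Ideal.span {f : MvPowerSeries (Fin (d+1)) k |
                    ∃ j : Fin d, j.val < i.val ∧
                      f = ∑ t : Fin (d+1), c j t • (MvPowerSeries.X t : MvPowerSeries (Fin (d+1)) k)}))
        ≤ (n + C + j) ^ j * cj := (Nat.mul_le_mul_left _ hle).trans h2
    have hn0 : (0 : ℝ) < (n : ℝ) := by exact_mod_cast hn
    rw [div_le_iff₀ (pow_pos hn0 j)]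
    have h4 : (1 + ((C + j : ℕ) : ℝ) / (n : ℝ)) ^ j * (cj : ℝ) * (n : ℝ) ^ j
        = (((n + C + j) ^ j * cj : ℕ) : ℝ) := by
      push_cast
      rw [mul_right_comm, ← mul_pow]
      congr 2
      field_simp
      ring
    rw [h4]
    exact_mod_cast h3
  have hst := stirling_count (d + 1) (XF M r)
    (fun y hy σ => by
      rw [mem_XF] at hy ⊢
      exact XN_sym hy σ)
    (fun y hy y' hle => by
      rw [mem_XF] at hy ⊢
      exact XN_down hadd hbor hy (fun i => hle i))
  have hcm := count_mono hadd hlarge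
  have hlen := length_eq_finrank (k := k) (res_max (k := k) (m := d + 1))
      (MvPowerSeries (Fin (d+1)) k ⧸ I)
  rw [hlen, ENat.toNat_coe]
  have hfinal : ∑ j ∈ Finset.range (d + 1 + 1), (ascPochhammer ℕ (d + 1)).coeff j *
      #{z : Fin j → Fin (r + 1) | ext j (d + 1) z ∈ XF M r}
      ≤ (d + 1).factorial * Module.finrank k (MvPowerSeries (Fin (d+1)) k ⧸ I) :=
    hst.trans (Nat.mul_le_mul_left _ (hcm.trans hcard))
  have hsub : ∑ i : Fin d, (ascPochhammer ℕ (d + 1)).coeff (d + 1 - i.val) *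
      #{z : Fin (d + 1 - i.val) → Fin (r + 1) | ext (d + 1 - i.val) (d + 1) z ∈ XF M r}
      ≤ ∑ j ∈ Finset.range (d + 1 + 1), (ascPochhammer ℕ (d + 1)).coeff j *
      #{z : Fin j → Fin (r + 1) | ext j (d + 1) z ∈ XF M r} := by
    rw [← Finset.sum_image (s := Finset.univ) (g := fun i : Fin d => d + 1 - i.val)
      (f := fun j => (ascPochhammer ℕ (d + 1)).coeff j *
      #{z : Fin j → Fin (r + 1) | ext j (d + 1) z ∈ XF M r})]
    · apply Finset.sum_le_sum_of_subset
      intro j hj
      rw [Finset.mem_image] at hj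
      obtain ⟨i, _, rfl⟩ := hj
      rw [Finset.mem_range]
      omega
    · intro i _ i' _ h
      simp only at h
      apply Fin.ext
      have := i.2
      have := i'.2
      omega
  calc ∑ i : Fin d, ((ascPochhammer ℕ (d+1)).coeff (d+1-i.val) : ℝ) * e i
      ≤ ∑ i : Fin d, ((ascPochhammer ℕ (d+1)).coeff (d+1-i.val) : ℝ) *
        (#{z : Fin (d + 1 - i.val) → Fin (r + 1) |
          ext (d + 1 - i.val) (d + 1) z ∈ XF M r} : ℝ) := by
        apply Finset.sum_le_sum
        intro i _
        exact mul_le_mul_of_nonneg_left (hbound i) (Nat.cast_nonneg _)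
    _ ≤ (((d + 1).factorial * Module.finrank k (MvPowerSeries (Fin (d+1)) k ⧸ I) : ℕ) : ℝ) := by
        have := hsub.trans hfinal
        exact_mod_cast this
    _ = _ := by push_cast; rfl

end Pool.Agent.R829.St
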