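import Pool.Agent.Y230.TH.TopFin

/-!
# The strong monodromy conjecture for the ideals of the Thom-Sebastiani class

Let `𝓘` and `𝓗` be the least classes of ideals and of hypersurfaces (principal ideals), together
with their global topological zeta functions, with the following properties.

* `𝓘` contains the powers `(x ^ m)`; all non-zero ideals of `ℂ[x, y]`; the ideals of
  `ℂ[x₀, x₁, x₂]` generated by forms of the same degree, three of which are algebraically independent;
  the ideals generated by forms of the same degree without a common zero outside the origin; the ideals
  whose numerical data come from Rees divisors; the ideals `(f_1, …, f_k)` in any number of variables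
  with very general coefficients at the vertices of the Newton polytopes of the `f_i` and arbitrary
  other coefficients; the principal ideals `(h)` with `h` in `𝓗`; and `𝓘` is closed under sums and
  products in disjoint sets of variables.
* `𝓗` contains all plane curves and the polynomials with very general coefficients at the
  vertices of the Newton polytope and arbitrary other terms; for `(f_j)` in `𝓘` and `g` in `𝓗` it
  contains `∑ y_j f_j(x)` and `∑ y_j f_j(x) + g(z)`, with new variables `y_j`; and `𝓗` is closed
  under products in disjoint sets of variables and under dropping variables which do not occur.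

For every ideal `I` in `𝓘` we prove the strong monodromy conjecture: every pole of the topological
zeta function of `I` is a root of the Bernstein-Sato polynomial of `I` of Budur, Mustata and Saito.
The principal ideals in `𝓘` are treated in `Results/MP_504089_ag/ThomSebastianiGlobal`; here `I` is
arbitrary, for instance `(y_1 f_1(x_1, x_2) + … + y_r f_r(x_1, x_2) + g(z_1, z_2)) + J`, where `J` is an
arbitrary ideal of `ℂ[u_1, u_2]`, and products of such ideals.

The proof is the closure theorem `tt_closure` of `Pool/Agent/Y230/TH`.
-/

set_option autoImplicit false

namespace Pool.Agent.Results.MP_ee8c61_ag.ThomSebastianiIdeals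

open MvPolynomial Pool.Agent.W574.SM Pool.Agent.W574.RO Pool.Agent.Y228.AT Pool.Agent.Y230.TH

/-- **The strong monodromy conjecture (Q1) for the ideals of the Thom-Sebastiani class.** Let
`TT AllGlobal StrongHyp c A Z` be the classes of ideals (`c = false`) and of hypersurfaces
(`c = true`), given by finite families `A` of generators, with their global topological zeta functions
`Z`, which are obtained from the ideals in `AllGlobal` and the hypersurfaces in `StrongHyp` by sums
and products in disjoint sets of variables, by `∑ y_j f_j(x)` and by `∑ y_j f_j(x) + g(z)`.

Let `A` be in the class of ideals, and let `b` satisfy a functional equation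
`b(∑ s_j) ∏ f_j ^ s_j = ∑_c P_c ∏_{c_j < 0} binom(s_j, -c_j) ∏ f_j ^ (s_j + c_j)`, as in the definition
of the Bernstein-Sato polynomial of `I = (f_j)`. Then `b(s₀) = 0` for every pole `s₀` of `Z`. -/
theorem result (A : Fam) (Z : RatFunc ℂ) (h : TT AllGlobal StrongHyp false A Z)
    (b : Polynomial ℂ) (hb : IsFunctionalEq A.f b) (s₀ : ℂ) (hs : Z.denom.eval s₀ = 0) :
    b.eval s₀ = 0 :=
  tt_ideal A Z h b hb s₀ hs

end Pool.Agent.Results.MP_ee8c61_ag.ThomSebastianiIdeals
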